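import Pool.Agent.PD4.Alg.Herm

/-!
# Project PD4, algebra block: behaviour of `a` and `H` at `1` (owner: helper85)
-/

namespace Pool.Agent.PD4.Alg

open Matrix LauR

section aux

variable {R : Type} [CommRing R] {n : ℕ}

/-- Leibniz rule for matrices -/
theorem AtOne_map_mul {A B C : Type*} [Fintype B] (u : Fin n) (M : Matrix A B (LauR R n))
    (N : Matrix B C (LauR R n)) :
    (M * N).map (Dr u) = M.map (Dr u) * N.map eps + M.map eps * N.map (Dr u) := by
  ext i j
  rw [Matrix.map_apply, Matrix.mul_apply, map_sum, Matrix.add_apply, Matrix.mul_apply,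
    Matrix.mul_apply, ← Finset.sum_add_distrib]
  refine Finset.sum_congr rfl fun k _ => ?_
  rw [Dr_mul]
  rfl

theorem AtOne_map_eps {A B C : Type*} [Fintype B] (M : Matrix A B (LauR R n))
    (N : Matrix B C (LauR R n)) :
    (M * N).map eps = M.map eps * N.map eps := Matrix.map_mul

theorem AtOne_ct {A B : Type*} (M : Matrix A B (LauR R n)) :
    (Mᴴ).map eps = (M.map eps)ᵀ := by
  ext i j
  exact eps_star _

theorem AtOne_ctD {A B : Type*} (u : Fin n) (M : Matrix A B (LauR R n)) :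
    (Mᴴ).map (Dr u) = -(M.map (Dr u))ᵀ := by
  ext i j
  exact Dr_star u _

theorem AtOne_sub_eps {A B : Type*} (M N : Matrix A B (LauR R n)) :
    (M - N).map eps = M.map eps - N.map eps := by
  ext i j
  exact map_sub (eps : LauR R n →+* R) (M i j) (N i j)

theorem AtOne_add_eps {A B : Type*} (M N : Matrix A B (LauR R n)) :
    (M + N).map eps = M.map eps + N.map eps := by
  ext i j
  exact map_add (eps : LauR R n →+* R) (M i j) (N i j)

theorem AtOne_zero_eps {A B : Type*} :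
    (0 : Matrix A B (LauR R n)).map eps = 0 := by
  ext i j
  exact map_zero (eps : LauR R n →+* R)

theorem AtOne_sub_Dr {A B : Type*} (u : Fin n) (M N : Matrix A B (LauR R n)) :
    (M - N).map (Dr u) = M.map (Dr u) - N.map (Dr u) := by
  ext i j
  exact map_sub (Dr u : LauR R n →ₗ[R] R) (M i j) (N i j)

theorem AtOne_zero_Dr {A B : Type*} (u : Fin n) :
    (0 : Matrix A B (LauR R n)).map (Dr u) = 0 := by
  ext i j
  exact map_zero (Dr u : LauR R n →ₗ[R] R)

theorem AtOne_kap_eps : (kap R n).map eps = 0 := by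
  ext i j
  rcases i with i | i <;> rcases j with j | j <;> simp [kap, eps_T]

end aux

variable {R : Type} [CommRing R] {n : ℕ} {I : Type} [Fintype I] [DecidableEq I]

/-- extension of a vector on `I` by zero to `T` -/
def extT (n : ℕ) {I : Type} (z : I → R) : PDData.J n I → R := Sum.elim z 0

/-- the vector `(0, v, 0)`, `v` in the dual of `K_1` -/
def extK {n : ℕ} (I : Type) (v : Fin n → R) : PDData.J n I → R :=
  Sum.elim 0 (Sum.elim (Sum.elim 0 v) 0)

namespace PDData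

variable (X : PDData R n I) (hs : X.D.Sᴴ = X.D.S)

theorem AtOne_E_D (u : Fin n) : (X.D.d.map (Dr u)) * (X.D.d.map eps) =
    -((X.D.d.map eps) * (X.D.d.map (Dr u))) := by
  have h := AtOne_map_mul u X.D.d X.D.d
  rw [X.D.dd] at h
  rw [AtOne_zero_Dr] at h
  exact eq_neg_of_add_eq_zero_left h.symm

theorem AtOne_coc (u : Fin n) (z : I → R) (hz : (X.D.d.map eps)ᵀ *ᵥ z = 0) :
    (X.D.d.map eps)ᵀ *ᵥ ((X.D.d.map (Dr u))ᵀ *ᵥ z) = 0 := by
  rw [Matrix.mulVec_mulVec, ← Matrix.transpose_mul, X.AtOne_E_D u, Matrix.transpose_neg,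
    Matrix.neg_mulVec, Matrix.transpose_mul, ← Matrix.mulVec_mulVec, hz, Matrix.mulVec_zero,
    neg_zero]

/-- `y_v` is a cocycle -/
theorem y_cocycle (v : Fin n) : (X.D.d.map eps)ᵀ *ᵥ X.y v = 0 :=
  X.AtOne_coc v X.η X.hη

/-- `c_uv` is a cocycle -/
theorem c_cocycle (u v : Fin n) : (X.D.d.map eps)ᵀ *ᵥ X.c u v = 0 :=
  X.AtOne_coc u (X.y v) (X.y_cocycle v)

theorem AtOne_deg (u : Fin n) (z : I → R) (m : ℤ) (hz : ∀ i, z i ≠ 0 → X.deg i = m) (i : I)
    (h : ((X.D.d.map (Dr u))ᵀ *ᵥ z) i ≠ 0) : X.deg i = m + 1 := by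
  obtain ⟨a, -, ha⟩ := Finset.exists_ne_zero_of_sum_ne_zero h
  have h1 : Dr u (X.D.d a i) ≠ 0 := left_ne_zero_of_mul ha
  have h2 : z a ≠ 0 := right_ne_zero_of_mul ha
  have h3 : X.D.d a i ≠ 0 := by
    intro h0
    exact h1 (by rw [h0, map_zero])
  have h4 := X.gr.hd a i h3
  have h5 := hz a h2
  omega

theorem y_deg (v : Fin n) (i : I) (h : X.y v i ≠ 0) : X.deg i = 1 :=
  X.AtOne_deg v X.η 0 X.hη0 i h

theorem c_deg (u v : Fin n) (i : I) (h : X.c u v i ≠ 0) : X.deg i = 2 :=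
  X.AtOne_deg u (X.y v) 1 (X.y_deg v) i h

/-- duality of loops and `y_v` -/
theorem y_g (v : Fin n) (k : KI n) :
    X.y v ⬝ᵥ (fun i => eps (X.g i k)) = if k = Sum.inr v then 1 else 0 := by
  have h := AtOne_map_mul v X.D.d X.g
  rw [X.dg, AtOne_map_mul, AtOne_kap_eps, Matrix.mul_zero, zero_add] at h
  -- `η · (D_v d * g(1))_k`
  have e1 : X.y v ⬝ᵥ (fun i => eps (X.g i k)) =
      (X.η ᵥ* ((X.D.d.map (Dr v)) * (X.g.map eps))) k := by
    rw [← Matrix.vecMul_vecMul]
    change ((X.D.d.map (Dr v))ᵀ *ᵥ X.η) ⬝ᵥ _ = _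
    rw [Matrix.mulVec_transpose]
    rfl
  have e2 : (X.D.d.map (Dr v)) * (X.g.map eps) =
      X.g.map eps * (kap R n).map (Dr v) - X.D.d.map eps * X.g.map (Dr v) :=
    eq_sub_of_add_eq h.symm
  have e3 : X.η ᵥ* (X.D.d.map eps * X.g.map (Dr v)) = 0 := by
    rw [← Matrix.vecMul_vecMul, ← Matrix.mulVec_transpose (X.D.d.map eps) X.η, X.hη,
      Matrix.zero_vecMul]
  rw [e1, e2, Matrix.vecMul_sub, e3, sub_zero, ← Matrix.vecMul_vecMul]
  change ∑ a, (X.η ᵥ* X.g.map eps) a * (Dr v) (kap R n a k) = _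
  rcases k with k | k
  · rw [if_neg (by simp)]
    refine Finset.sum_eq_zero fun a _ => ?_
    rcases a with a | a <;> simp [kap]
  · rw [Fintype.sum_sum_type]
    have h1 : ∀ a : Fin n, Dr v (kap R n (Sum.inr a) (Sum.inr k)) = 0 := by
      intro a
      simp [kap]
    have h2 : ∀ a : Unit, Dr v (kap R n (Sum.inl a) (Sum.inr k)) = if v = k then 1 else 0 := by
      intro a
      have h3 : Dr v (1 : LauR R n) = 0 := by
        rw [AddMonoidAlgebra.one_def, Dr_single]
        simp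
      simp [kap, Dr_T, h3]
    have h4 : ∀ a : Unit, (X.η ᵥ* X.g.map eps) (Sum.inl a) = 1 := fun a => X.hη1
    simp only [h1, h2, h4, mul_zero, Finset.sum_const_zero, add_zero, one_mul]
    rw [Finset.univ_unique, Finset.sum_singleton]
    by_cases hk : v = k
    · rw [if_pos hk, if_pos (by rw [hk])]
    · rw [if_neg hk, if_neg (fun h5 => hk (Sum.inr.inj h5).symm)]

theorem AtOne_G : (X.D.S * (X.D.S' * X.g)).map eps =
    X.g.map eps - X.D.d.map eps * (X.D.h * X.g).map eps := by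
  have h : X.D.S * (X.D.S' * X.g) =
      X.g - X.D.d * (X.D.h * X.g) - X.D.h * X.g * kap R n := by
    have h1 : X.D.S * X.D.S' = 1 - X.D.d * X.D.h - X.D.h * X.D.d := by
      rw [← X.D.c1]
      abel
    rw [← Matrix.mul_assoc, h1, Matrix.sub_mul, Matrix.sub_mul, Matrix.one_mul,
      Matrix.mul_assoc X.D.h X.D.d X.g, X.dg, Matrix.mul_assoc, Matrix.mul_assoc]
  rw [h, AtOne_sub_eps, AtOne_sub_eps, AtOne_map_eps, AtOne_map_eps (X.D.h * X.g), AtOne_kap_eps, Matrix.mul_zero,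
    sub_zero]

/-- the same for `G = S S' g` -/
theorem y_G (v : Fin n) (k : KI n) :
    X.y v ⬝ᵥ (fun i => eps ((X.D.S * (X.D.S' * X.g)) i k)) = if k = Sum.inr v then 1 else 0 := by
  have h1 : X.y v ⬝ᵥ (fun i => eps ((X.D.S * (X.D.S' * X.g)) i k)) =
      (X.y v ᵥ* (X.D.S * (X.D.S' * X.g)).map eps) k := rfl
  have h2 : X.y v ᵥ* (X.D.d.map eps * (X.D.h * X.g).map eps) = 0 := by
    rw [← Matrix.vecMul_vecMul, ← Matrix.mulVec_transpose (X.D.d.map eps) (X.y v), X.y_cocycle v,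
      Matrix.zero_vecMul]
  rw [h1, X.AtOne_G, Matrix.vecMul_sub, h2, sub_zero]
  exact X.y_g v k

/-- the transpose of `d_T` at one, on `(z, v, 0)` of degree `≥ 1` -/
theorem dT_eps_ext (z : I → R) (hz : ∀ k, z ⬝ᵥ (fun i => eps ((X.D.S * (X.D.S' * X.g)) i k)) = 0)
    (hc : (X.D.d.map eps)ᵀ *ᵥ z = 0) :
    ((X.surg hs).dT.map eps)ᵀ *ᵥ extT n z = 0 := by
  funext j
  change ∑ i, ((X.surg hs).dT.map eps)ᵀ j i * extT n z i = 0
  rw [Fintype.sum_sum_type]
  have h2 : ∀ i, extT n z (Sum.inr i) = 0 := fun i => rfl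
  simp only [h2, mul_zero, Finset.sum_const_zero, add_zero]
  rcases j with j | j | j
  · exact congrFun hc j
  · have := hz j
    rw [dotProduct_comm] at this
    exact this
  · refine Finset.sum_eq_zero fun i _ => ?_
    have h3 : ((X.surg hs).dT.map eps)ᵀ (Sum.inr (Sum.inr j)) (Sum.inl i) = 0 :=
      map_zero (eps : LauR R n →+* R)
    rw [h3, zero_mul]

/-- the transpose of `d_T` at one on `(y_j, 0, 0)` -/
theorem AtOne_dT_y (j : Fin n) :
    ((X.surg hs).dT.map eps)ᵀ *ᵥ extT n (X.y j) = extK I (Pi.single j 1) := by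
  funext k
  change ∑ i, ((X.surg hs).dT.map eps)ᵀ k i * extT n (X.y j) i = _
  rw [Fintype.sum_sum_type]
  have h2 : ∀ i, extT n (X.y j) (Sum.inr i) = 0 := fun i => rfl
  simp only [h2, mul_zero, Finset.sum_const_zero, add_zero]
  rcases k with k | k | k
  · exact congrFun (X.y_cocycle j) k
  · have h := X.y_G j k
    rw [dotProduct_comm] at h
    have h3 : extK I (Pi.single j 1) (Sum.inr (Sum.inl k)) =
        if k = Sum.inr j then (1 : R) else 0 := by
      rcases k with k | k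
      · rw [if_neg (by simp)]
        rfl
      · change (Pi.single j 1 : Fin n → R) k = _
        rw [Pi.single_apply]
        by_cases hk : k = j
        · rw [if_pos hk, if_pos (by rw [hk])]
        · rw [if_neg hk, if_neg (fun h5 => hk (Sum.inr.inj h5))]
    rw [h3]
    exact h
  · change _ = 0
    refine Finset.sum_eq_zero fun i _ => ?_
    have h3 : ((X.surg hs).dT.map eps)ᵀ (Sum.inr (Sum.inr k)) (Sum.inl i) = 0 :=
      map_zero (eps : LauR R n →+* R)
    rw [h3, zero_mul]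

theorem AtOne_hgG (i : I) (k : KI n) (h : (X.D.S * (X.D.S' * X.g)) i k ≠ 0) :
    X.deg i = degK n k := by
  rw [Matrix.mul_apply] at h
  obtain ⟨a, -, ha⟩ := Finset.exists_ne_zero_of_sum_ne_zero h
  have h1 := X.gr.hS i a (left_ne_zero_of_mul ha)
  have h2 := right_ne_zero_of_mul ha
  rw [Matrix.mul_apply] at h2
  obtain ⟨b, -, hb⟩ := Finset.exists_ne_zero_of_sum_ne_zero h2
  have h3 := X.gr.hS' a b (left_ne_zero_of_mul hb)
  have h4 := X.hg b k (right_ne_zero_of_mul hb)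
  dsimp only at h1 h3
  omega

theorem AtOne_c_G (u v : Fin n) (k : KI n) :
    X.c u v ⬝ᵥ (fun i => eps ((X.D.S * (X.D.S' * X.g)) i k)) = 0 := by
  refine Finset.sum_eq_zero fun i _ => ?_
  by_contra hne
  have h1 := X.c_deg u v i (left_ne_zero_of_mul hne)
  have h2 : (X.D.S * (X.D.S' * X.g)) i k ≠ 0 := by
    intro h0
    apply hne
    change X.c u v i * eps ((X.D.S * (X.D.S' * X.g)) i k) = 0
    rw [h0, map_zero, mul_zero]
  have h3 := X.AtOne_hgG i k h2
  rcases k with k | k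
  · have h4 : degK n (Sum.inl k) = 0 := rfl
    omega
  · have h4 : degK n (Sum.inr k) = 1 := rfl
    omega

end PDData

namespace TData

variable {X : PDData R n I} {hs : X.D.Sᴴ = X.D.S} (t : TData X hs)

/-- the first order term -/
noncomputable def b (u v : Fin n) : PDData.J n I → R := (t.e.map eps)ᵀ *ᵥ extT n (X.c u v)

theorem AtOne_e_dT : (t.e.map eps)ᵀ * ((X.surg hs).dT.map eps)ᵀ = 0 := by
  rw [← Matrix.transpose_mul, ← AtOne_map_eps, t.sdr.de, AtOne_zero_eps, Matrix.transpose_zero]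

/-- `e*` kills `(0, v, 0)` at one -/
theorem AtOne_e_single (j : Fin n) :
    (t.e.map eps)ᵀ *ᵥ extK I (Pi.single j 1) = 0 := by
  rw [← X.AtOne_dT_y hs j, Matrix.mulVec_mulVec, t.AtOne_e_dT, Matrix.zero_mulVec]

theorem AtOne_e_extK (v : Fin n → R) : (t.e.map eps)ᵀ *ᵥ extK I v = 0 := by
  have h : extK I v = ∑ j, v j • extK I (Pi.single j (1 : R)) := by
    funext i
    rw [Finset.sum_apply]
    rcases i with i | i | i
    · exact (Finset.sum_eq_zero fun j _ => mul_zero (v j)).symm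
    · rcases i with i | i
      · exact (Finset.sum_eq_zero fun j _ => mul_zero (v j)).symm
      · change v i = ∑ j, v j * (Pi.single j (1 : R) : Fin n → R) i
        simp [Pi.single_apply]
    · exact (Finset.sum_eq_zero fun j _ => mul_zero (v j)).symm
  rw [h, Matrix.mulVec_sum]
  refine Finset.sum_eq_zero fun j _ => ?_
  rw [Matrix.mulVec_smul, t.AtOne_e_single j, smul_zero]

theorem AtOne_e_row {i k : PDData.J n I} (h : X.degT i ≠ 2) : t.e i k = 0 := by
  have h1 := congrFun (congrFun t.he' i) k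
  rw [pr, Matrix.diagonal_mul, if_neg h, zero_mul] at h1
  exact h1.symm

omit [Fintype I] in
theorem AtOne_iot_eps (j : Fin n) :
    (fun i => eps (iot R n I i j)) = extK I (Pi.single j (1 : R)) := by
  funext i
  rcases i with i | i | i
  · simp [iot, extK]
  · rcases i with i | i
    · simp [iot, extK]
    · by_cases h : i = j
      · subst h
        simp [iot, extK]
      · simp [iot, extK, h]
  · simp [iot, extK]

theorem a_eps (i : PDData.J n I) (j : Fin n) : eps (t.a i j) = 0 := by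
  have h : (t.a).map eps = (t.e.map eps)ᵀ * (iot R n I).map eps := by
    rw [a, AtOne_map_eps, AtOne_ct]
  have h2 : ((t.a).map eps) i j = ((t.e.map eps)ᵀ *ᵥ (fun i => eps (iot R n I i j))) i := by
    rw [h]
    rfl
  rw [AtOne_iot_eps, AtOne_e_single] at h2
  exact h2

/-- a constant vector over the Laurent ring -/
noncomputable def AtOne_cst (z : PDData.J n I → R) : Matrix (PDData.J n I) Unit (LauR R n) :=
  Matrix.of fun i _ => AddMonoidAlgebra.single 0 (z i)

omit [Fintype I] [DecidableEq I] in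
theorem AtOne_cst_eps (z : PDData.J n I → R) :
    (AtOne_cst (n := n) z).map eps = Matrix.of fun i _ => z i := by
  ext i j
  exact eps_single _ _

omit [Fintype I] [DecidableEq I] in
theorem AtOne_cst_Dr (u : Fin n) (z : PDData.J n I → R) :
    (AtOne_cst (n := n) z).map (Dr u) = 0 := by
  ext i j
  change Dr u (AddMonoidAlgebra.single 0 (z i)) = 0
  rw [Dr_single]
  simp

theorem a_Dr (u j : Fin n) (i : PDData.J n I) : Dr u (t.a i j) = t.b u j i := by
  -- column `j` of `a`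
  set c1 : Matrix (PDData.J n I) Unit (LauR R n) := Matrix.of fun i _ => iot R n I i j with hc1
  set c2 : Matrix (PDData.J n I) Unit (LauR R n) := AtOne_cst (extT n (X.y j)) with hc2
  have e0 : t.eᴴ * ((X.surg hs).dTᴴ * c2) = 0 := by
    rw [← Matrix.mul_assoc, ← Matrix.conjTranspose_mul, t.sdr.de, Matrix.conjTranspose_zero,
      Matrix.zero_mul]
  have e1 : t.eᴴ * c1 = t.eᴴ * (c1 - (X.surg hs).dTᴴ * c2) := by
    rw [Matrix.mul_sub, e0, sub_zero]
  have e2 : Dr u (t.a i j) = ((t.eᴴ * c1).map (Dr u)) i () := rfl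
  have e3 : (c1 - (X.surg hs).dTᴴ * c2).map eps = 0 := by
    rw [AtOne_sub_eps, AtOne_map_eps, AtOne_ct, hc2, AtOne_cst_eps]
    have h1 : ((X.surg hs).dT.map eps)ᵀ * (Matrix.of fun i (_ : Unit) => extT n (X.y j) i) =
        Matrix.of fun i (_ : Unit) => (((X.surg hs).dT.map eps)ᵀ *ᵥ extT n (X.y j)) i := rfl
    rw [h1, X.AtOne_dT_y hs j, ← AtOne_iot_eps]
    exact sub_self _
  have e4 : (c1 - (X.surg hs).dTᴴ * c2).map (Dr u) =
      Matrix.of fun i (_ : Unit) =>
        (((X.surg hs).dT.map (Dr u))ᵀ *ᵥ extT n (X.y j)) i := by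
    rw [AtOne_sub_Dr, AtOne_map_mul, hc2, AtOne_cst_Dr, Matrix.mul_zero, add_zero, AtOne_ctD,
      AtOne_cst_eps]
    have h1 : c1.map (Dr u) = 0 := by
      ext i k
      change Dr u (iot R n I i j) = 0
      have h3 : Dr u (1 : LauR R n) = 0 := by
        rw [AddMonoidAlgebra.one_def, Dr_single]
        simp
      rw [iot, Matrix.of_apply]
      split_ifs
      · exact h3
      · exact map_zero (Dr u : LauR R n →ₗ[R] R)
    rw [h1, zero_sub, Matrix.neg_mul, neg_neg]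
    rfl
  rw [e2, e1, AtOne_map_mul, e3, Matrix.mul_zero, zero_add, AtOne_ct, e4]
  change ((t.e.map eps)ᵀ *ᵥ (((X.surg hs).dT.map (Dr u))ᵀ *ᵥ extT n (X.y j))) i = _
  -- the vector `D_u(d_T)ᵀ (y_j, 0, 0)`
  set q : KI n → R := fun k => ∑ l, Dr u ((X.D.S * (X.D.S' * X.g)) l k) * X.y j l with hq
  set r0 : PDData.J n I → R :=
    Sum.elim (fun _ => 0) (Sum.elim (Sum.elim (fun k => q (Sum.inl k)) (fun _ => 0))
      (fun _ => 0)) with hr0
  have e5 : ((X.surg hs).dT.map (Dr u))ᵀ *ᵥ extT n (X.y j) =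
      extT n (X.c u j) + (extK I (fun l => q (Sum.inr l)) + r0) := by
    funext k
    change ∑ i, ((X.surg hs).dT.map (Dr u))ᵀ k i * extT n (X.y j) i = _
    rw [Fintype.sum_sum_type]
    have h2 : ∀ i, extT n (X.y j) (Sum.inr i) = 0 := fun i => rfl
    simp only [h2, mul_zero, Finset.sum_const_zero, add_zero]
    rcases k with k | k | k
    · change (X.c u j) k = X.c u j k + (0 + 0)
      rw [add_zero, add_zero]
    · rcases k with k | k
      · change q (Sum.inl k) = 0 + (0 + q (Sum.inl k))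
        rw [zero_add, zero_add]
      · change q (Sum.inr k) = 0 + (q (Sum.inr k) + 0)
        rw [zero_add, add_zero]
    · change _ = 0 + ((0 : R) + 0)
      rw [zero_add, zero_add]
      refine Finset.sum_eq_zero fun i _ => ?_
      have h3 : ((X.surg hs).dT.map (Dr u))ᵀ (Sum.inr (Sum.inr k)) (Sum.inl i) = 0 :=
        map_zero (Dr u : LauR R n →ₗ[R] R)
      rw [h3, zero_mul]
  have e6 : (t.e.map eps)ᵀ *ᵥ r0 = 0 := by
    funext k
    refine Finset.sum_eq_zero fun l _ => ?_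
    rcases l with l | l | l
    · exact mul_zero _
    · rcases l with l | l
      · have h7 : t.e (Sum.inr (Sum.inl (Sum.inl l))) k = 0 := by
          refine t.AtOne_e_row ?_
          change (0 : ℤ) + 1 ≠ 2
          norm_num
        have h8 : (t.e.map eps)ᵀ k (Sum.inr (Sum.inl (Sum.inl l))) = 0 := by
          change eps (t.e (Sum.inr (Sum.inl (Sum.inl l))) k) = 0
          rw [h7, map_zero]
        exact (congrArg (fun w => w * r0 (Sum.inr (Sum.inl (Sum.inl l)))) h8).trans (zero_mul _)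
      · exact mul_zero _
    · exact mul_zero _
  rw [e5, Matrix.mulVec_add, Matrix.mulVec_add, t.AtOne_e_extK, e6, add_zero, add_zero]
  rfl

theorem b_form (i j k l : Fin n) :
    t.b i j ⬝ᵥ ((t.H.map eps) *ᵥ t.b k l) = X.form i j k l := by
  set e0 := t.e.map eps with he0
  set d0 := (X.surg hs).dT.map eps with hd0
  set s0 := t.s.map eps with hs0
  set S0 := (X.surg hs).ST.map eps with hS0
  set z := extT n (X.c i j) with hz
  set z' := extT n (X.c k l) with hz'
  have hmul : ∀ M N : Matrix (PDData.J n I) (PDData.J n I) (LauR R n),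
      (M * N).map eps = M.map eps * N.map eps := fun M N => AtOne_map_eps M N
  have hc : d0ᵀ *ᵥ z = 0 := X.dT_eps_ext hs _ (X.AtOne_c_G i j) (X.c_cocycle i j)
  have hc' : d0ᵀ *ᵥ z' = 0 := X.dT_eps_ext hs _ (X.AtOne_c_G k l) (X.c_cocycle k l)
  have h1 : e0 * t.H.map eps = e0 * S0 * e0ᵀ := by
    rw [he0, ← hmul, t.e_H, hmul, hmul, AtOne_ct]
  have hee : e0 * e0 = e0 := by rw [he0, ← hmul, t.sdr.ee]
  have heeT : e0ᵀ * e0ᵀ = e0ᵀ := by rw [← Matrix.transpose_mul, hee]
  have hdS : d0 * S0 = S0 * d0ᵀ := by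
    rw [hd0, hS0, ← hmul, (X.surg hs).dTST, hmul, AtOne_ct]
  have hdd : d0 * d0 = 0 := by
    rw [hd0, ← hmul, (X.surg hs).dTdT, AtOne_zero_eps]
  have hom : d0 * s0 + s0 * d0 = 1 - e0 := by
    have h := congrArg (fun M : Matrix (PDData.J n I) (PDData.J n I) (LauR R n) => M.map eps)
      t.sdr.hom
    have hadd : ∀ M N : Matrix (PDData.J n I) (PDData.J n I) (LauR R n),
        (M + N).map eps = M.map eps + N.map eps := fun M N => AtOne_add_eps M N
    have hsub : ∀ M N : Matrix (PDData.J n I) (PDData.J n I) (LauR R n),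
        (M - N).map eps = M.map eps - N.map eps := fun M N => AtOne_sub_eps M N
    have hone : (1 : Matrix (PDData.J n I) (PDData.J n I) (LauR R n)).map eps = 1 :=
      Matrix.map_one _ (map_zero _) (map_one _)
    simp only [hadd, hmul, hsub, hone] at h
    exact h
  -- `e0ᵀ z = z - d0ᵀ w`
  have hex : ∀ x : PDData.J n I → R, d0ᵀ *ᵥ x = 0 → e0ᵀ *ᵥ x = x - d0ᵀ *ᵥ (s0ᵀ *ᵥ x) := by
    intro x hx
    have h2 : e0ᵀ = 1 - (s0ᵀ * d0ᵀ + d0ᵀ * s0ᵀ) := by
      have h3 := congrArg Matrix.transpose hom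
      rw [Matrix.transpose_add, Matrix.transpose_mul, Matrix.transpose_mul,
        Matrix.transpose_sub, Matrix.transpose_one] at h3
      rw [h3]
      abel
    rw [h2, Matrix.sub_mulVec, Matrix.one_mulVec, Matrix.add_mulVec, ← Matrix.mulVec_mulVec,
      ← Matrix.mulVec_mulVec, hx, Matrix.mulVec_zero, zero_add]
  have htr : ∀ (x y : PDData.J n I → R) (M : Matrix (PDData.J n I) (PDData.J n I) R),
      (Mᵀ *ᵥ x) ⬝ᵥ y = x ⬝ᵥ (M *ᵥ y) := by
    intro x y M
    rw [Matrix.mulVec_transpose, Matrix.dotProduct_mulVec]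
  have step1 : t.b i j ⬝ᵥ ((t.H.map eps) *ᵥ t.b k l) =
      (e0ᵀ *ᵥ z) ⬝ᵥ (S0 *ᵥ (e0ᵀ *ᵥ z')) := by
    change (e0ᵀ *ᵥ z) ⬝ᵥ ((t.H.map eps) *ᵥ (e0ᵀ *ᵥ z')) = _
    rw [htr, Matrix.mulVec_mulVec, Matrix.mulVec_mulVec, Matrix.mul_assoc e0, ← Matrix.mul_assoc,
      h1, Matrix.mul_assoc (e0 * S0), heeT, htr, Matrix.mulVec_mulVec, Matrix.mulVec_mulVec]
  have step2 : (e0ᵀ *ᵥ z) ⬝ᵥ (S0 *ᵥ (e0ᵀ *ᵥ z')) = z ⬝ᵥ (S0 *ᵥ z') := by
    rw [hex z hc, hex z' hc']
    set w := s0ᵀ *ᵥ z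
    set w' := s0ᵀ *ᵥ z'
    have g1 : S0 *ᵥ (d0ᵀ *ᵥ w') = d0 *ᵥ (S0 *ᵥ w') := by
      rw [Matrix.mulVec_mulVec, ← hdS, ← Matrix.mulVec_mulVec]
    have g2 : z ⬝ᵥ (d0 *ᵥ (S0 *ᵥ w')) = 0 := by
      rw [← htr, hc, zero_dotProduct]
    have g3 : (d0ᵀ *ᵥ w) ⬝ᵥ (S0 *ᵥ z') = 0 := by
      rw [htr, Matrix.mulVec_mulVec, hdS, ← Matrix.mulVec_mulVec, hc', Matrix.mulVec_zero,
        dotProduct_zero]
    have g4 : (d0ᵀ *ᵥ w) ⬝ᵥ (d0 *ᵥ (S0 *ᵥ w')) = 0 := by
      rw [htr, Matrix.mulVec_mulVec, hdd, Matrix.zero_mulVec, dotProduct_zero]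
    rw [Matrix.mulVec_sub, g1, sub_dotProduct, dotProduct_sub, dotProduct_sub, g2, g3, g4]
    ring
  have step3 : z ⬝ᵥ (S0 *ᵥ z') = X.form i j k l := by
    change ∑ a, z a * (S0 *ᵥ z') a = _
    rw [Fintype.sum_sum_type]
    have h2 : ∀ a, z (Sum.inr a) = 0 := fun a => rfl
    simp only [h2, zero_mul, Finset.sum_const_zero, add_zero]
    change _ = ∑ a, X.c i j a * ((X.D.S.map eps) *ᵥ X.c k l) a
    refine Finset.sum_congr rfl fun a _ => ?_
    have h3 : (S0 *ᵥ z') (Sum.inl a) = ((X.D.S.map eps) *ᵥ X.c k l) a := by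
      change ∑ b, S0 (Sum.inl a) b * z' b = _
      rw [Fintype.sum_sum_type]
      have h4 : ∀ b, z' (Sum.inr b) = 0 := fun b => rfl
      simp only [h4, mul_zero, Finset.sum_const_zero, add_zero]
      rfl
    rw [h3]
    rfl
  rw [step1, step2, step3]

end TData

end Pool.Agent.PD4.Alg
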