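import Pool.Agent.PD4.Alg.Contr

/-!
# Project PD (MP_69cf13_gt): gradings of the surgered complex `T`
-/

open Matrix

namespace Pool.Agent.PD4.Alg

/-- product of homogeneous matrices, for arbitrary gradings -/
theorem Hg.mulc {R I J K : Type*} [NonUnitalNonAssocSemiring R] [Fintype J] {degI degI' : I → ℤ}
    {degJ degJ' : J → ℤ} {degK degK' : K → ℤ} {r s t : ℤ} {M : Matrix I J R} {N : Matrix J K R}
    (hM : Hg degI degJ r M) (hN : Hg degJ' degK s N)
    (h : ∀ i j k, degI i = degJ j + r → degJ' j = degK k + s → degI' i = degK' k + t) :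
    Hg degI' degK' t (M * N) := by
  intro i k hik
  rw [Matrix.mul_apply] at hik
  obtain ⟨j, -, hj⟩ := Finset.exists_ne_zero_of_sum_ne_zero hik
  exact h i j k (hM i j (left_ne_zero_of_mul hj)) (hN j k (right_ne_zero_of_mul hj))

section surgery

variable {L : Type*} [CommRing L] [StarRing L]
variable {c κ : Type*} [Fintype c] [DecidableEq c] [Fintype κ] [DecidableEq κ]

/-- homogeneity of the surgery datum -/
structure Surg.Gr (D : Surg L c κ) (deg : c → ℤ) (dg : κ → ℤ) : Prop where
  gr : D.toDual.Graded deg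
  g : Hg deg (fun k => 4 - dg k) 0 D.g
  δ : Hg dg dg (-1) D.δ

/-- the grading of `T = C ⊕ K ⊕ K'` -/
def gradT (deg : c → ℤ) (dg : κ → ℤ) : c ⊕ (κ ⊕ κ) → ℤ :=
  Sum.elim deg (Sum.elim (fun k => dg k + 1) fun k => 3 - dg k)

namespace Surg.Gr

variable {D : Surg L c κ} {deg : c → ℤ} {dg : κ → ℤ} (G : D.Gr deg dg)

include G

lemma dT : Hg (gradT deg dg) (gradT deg dg) (-1) D.dT := by
  rintro (i | i | i) (j | j | j) h
  · exact G.gr.hd i j h
  · have h12 : Hg deg dg 0 (D.S * D.g) := G.gr.hS.mulc G.g fun i j k _ _ => by omega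
    have := h12 i j h
    change deg i = dg j + 1 + -1
    omega
  · exact absurd rfl h
  · exact absurd rfl h
  · have := G.δ.neg i j h
    change dg i + 1 = dg j + 1 + -1
    omega
  · exact absurd rfl h
  · have := G.g.conjTranspose i j h
    change 3 - dg i = deg j + -1
    try dsimp only at this
    omega
  · exact absurd rfl h
  · have := G.δ.conjTranspose.neg i j h
    change 3 - dg i = 3 - dg j + -1
    omega

lemma ST : Hg (gradT deg dg) (fun i => 4 - gradT deg dg i) 0 D.ST := by
  rintro (i | i | i) (j | j | j) h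
  · exact G.gr.hS i j h
  · exact absurd rfl h
  · exact absurd rfl h
  · exact absurd rfl h
  · exact absurd rfl h
  · have h1 : i = j := by
      by_contra h1
      exact h (Matrix.one_apply_ne h1)
    subst h1
    change dg i + 1 = 4 - (3 - dg i) + 0
    ring
  · exact absurd rfl h
  · have h1 : i = j := by
      by_contra h1
      exact h (Matrix.one_apply_ne h1)
    subst h1
    change 3 - dg i = 4 - (dg i + 1) + 0
    ring
  · exact absurd rfl h

lemma ST' : Hg (gradT deg dg) (fun i => 4 - gradT deg dg i) 0 D.ST' := by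
  rintro (i | i | i) (j | j | j) h
  · exact G.gr.hS' i j h
  · have h12 : Hg (fun i => 4 - deg i) (fun k => dg k + 1) 0 (D.k * D.g) :=
      G.gr.hk.mulc G.g fun i j k _ _ => by omega
    have := h12 i j h
    change deg i = 4 - (dg j + 1) + 0
    try dsimp only at this
    omega
  · exact absurd rfl h
  · have h21 : Hg (fun k => dg k + 1) (fun i => 4 - deg i) 0 (D.gᴴ * D.h) :=
      G.g.conjTranspose.mulc G.gr.hh fun i j k _ _ => by omega
    have := h21.neg i j h
    change dg i + 1 = 4 - deg j + 0
    try dsimp only at this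
    omega
  · have h21 : Hg (fun k => dg k + 1) (fun i => deg i - 1) 0 (D.gᴴ * D.m) :=
      G.g.conjTranspose.mulc G.gr.hm fun i j k _ _ => by omega
    have h22 : Hg (fun k => dg k + 1) (fun k => 3 - dg k) 0 (D.gᴴ * D.m * D.g) :=
      h21.mulc G.g fun i j k _ _ => by omega
    have := h22.neg i j h
    change dg i + 1 = 4 - (dg j + 1) + 0
    try dsimp only at this
    omega
  · have h1 : i = j := by
      by_contra h1
      exact h (Matrix.one_apply_ne h1)
    subst h1
    change dg i + 1 = 4 - (3 - dg i) + 0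
    ring
  · exact absurd rfl h
  · have h1 : i = j := by
      by_contra h1
      exact h (Matrix.one_apply_ne h1)
    subst h1
    change 3 - dg i = 4 - (dg i + 1) + 0
    ring
  · exact absurd rfl h

lemma hT : Hg (gradT deg dg) (gradT deg dg) 1 D.hT := by
  rintro (i | i | i) (j | j | j) h
  · exact G.gr.hh i j h
  · have h12 : Hg deg (fun k => dg k + 2) 0 (D.m * D.g) :=
      G.gr.hm.mulc G.g fun i j k _ _ => by omega
    have := h12 i j h
    change deg i = dg j + 1 + 1
    dsimp only at this
    omega
  all_goals exact absurd rfl h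

end Surg.Gr

/-- homotopy keeps the grading -/
lemma Dual.Graded.homot {D : Dual L c} {deg : c → ℤ} (G : D.Graded deg) {V : Matrix c c L}
    (hV : Hg deg (fun i => 5 - deg i) 0 V) : (D.homot V).Graded deg where
  hd := G.hd
  hS := G.hS.sub (Hg.add (G.hd.mulc hV fun i j k _ _ => by omega)
    (hV.mulc G.hd.conjTranspose fun i j k _ _ => by omega))
  hS' := G.hS'
  hh := G.hh.add (hV.mulc G.hS' fun i j k _ _ => by omega)
  hm := by
    have h1 : Hg deg deg (1 : ℤ) (V * D.S') := hV.mulc G.hS' fun i j k _ _ => by omega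
    exact ((G.hm.add (hV.mulc G.hk fun i j k _ _ => by omega)).sub
      (G.hh.mulc hV fun i j k _ _ => by omega)).sub (h1.mulc hV fun i j k _ _ => by omega)
  hk := G.hk.sub (G.hS'.mulc hV fun i j k _ _ => by omega)

end surgery

end Pool.Agent.PD4.Alg
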