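import Pool.Agent.PD4.Lau

/-!
# Project PD4: Laurent polynomials over a commutative ring, involution, augmentation, derivations

`LauR R n = R[ℤⁿ]`, `star (r X^m) = r X^{-m}`, `eps (X^m) = 1`, `Dr u (X^m) = m_u`
(the derivation `t_u ∂/∂t_u` at `1`).  All are abbreviations of the objects of `PD4/Lau.lean`
(the `StarRing` instance is the one of that file).
-/

open scoped Matrix

namespace Pool.Agent.PD4

/-- the group ring `R[ℤⁿ]` -/
abbrev LauR (R : Type*) [Semiring R] (n : ℕ) := AddMonoidAlgebra R (Fin n → ℤ)

namespace LauR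

variable {R : Type*} [CommRing R] {n : ℕ}

/-- the involution `X^m ↦ X^{-m}` as a ring homomorphism -/
noncomputable abbrev inv : LauR R n →+* LauR R n := lbar

theorem inv_single (m : Fin n → ℤ) (r : R) :
    inv (AddMonoidAlgebra.single m r) = AddMonoidAlgebra.single (-m) r := lbar_single m r

theorem inv_inv (x : LauR R n) : inv (inv x) = x := lbar_lbar x

theorem star_def (x : LauR R n) : star x = inv x := rfl

theorem star_single (m : Fin n → ℤ) (r : R) :
    star (AddMonoidAlgebra.single m r : LauR R n) = AddMonoidAlgebra.single (-m) r :=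
  inv_single m r

/-- the augmentation `X^m ↦ 1` -/
noncomputable abbrev eps : LauR R n →+* R := laug

theorem eps_single (m : Fin n → ℤ) (r : R) :
    eps (AddMonoidAlgebra.single m r : LauR R n) = r := laug_single m r

/-- the derivation `X^m ↦ m_u` at the augmentation -/
noncomputable abbrev Dr (u : Fin n) : LauR R n →ₗ[R] R := lder u

theorem Dr_single (u : Fin n) (m : Fin n → ℤ) (r : R) :
    Dr u (AddMonoidAlgebra.single m r : LauR R n) = r * (m u : R) := lder_single u m r

theorem Dr_mul (u : Fin n) (x y : LauR R n) : Dr u (x * y) = Dr u x * eps y + eps x * Dr u y :=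
  lder_mul u x y

theorem Dr_one (u : Fin n) : Dr u (1 : LauR R n) = 0 := lder_one u

theorem eps_star (x : LauR R n) : eps (star x) = eps x := laug_star x

theorem Dr_star (u : Fin n) (x : LauR R n) : Dr u (star x) = - Dr u x := lder_star u x

/-- the variable `t_j` -/
noncomputable abbrev T (R : Type*) [CommRing R] {n : ℕ} (j : Fin n) : LauR R n := lT j

theorem T_def (j : Fin n) : T R j = AddMonoidAlgebra.single (Pi.single j 1) 1 := rfl

theorem eps_T (j : Fin n) : eps (T R j) = 1 := laug_lT j

theorem Dr_T (u j : Fin n) : Dr u (T R j) = if u = j then 1 else 0 := lder_lT u j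

theorem star_T_mul (j : Fin n) : star (T R j) * T R j = 1 := by
  rw [T_def, star_single, AddMonoidAlgebra.single_mul_single, neg_add_cancel, one_mul]
  rfl

/-- base change -/
noncomputable abbrev bc {R' : Type*} [CommRing R'] (f : R →+* R') : LauR R n →+* LauR R' n :=
  lbc f

theorem bc_single {R' : Type*} [CommRing R'] (f : R →+* R') (m : Fin n → ℤ) (r : R) :
    bc f (AddMonoidAlgebra.single m r : LauR R n) = AddMonoidAlgebra.single m (f r) :=
  lbc_single f m r

theorem bc_star {R' : Type*} [CommRing R'] (f : R →+* R') (x : LauR R n) :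
    bc f (star x) = star (bc f x) := lbc_star f x

theorem eps_bc {R' : Type*} [CommRing R'] (f : R →+* R') (x : LauR R n) :
    eps (bc f x) = f (eps x) := laug_lbc f x

theorem Dr_bc {R' : Type*} [CommRing R'] (f : R →+* R') (u : Fin n) (x : LauR R n) :
    Dr u (bc f x) = f (Dr u x) := lder_lbc f u x

theorem bc_T {R' : Type*} [CommRing R'] (f : R →+* R') (j : Fin n) : bc f (T R j) = T R' j := by
  rw [T_def, bc_single, map_one]
  rfl

/-- matrix product rule for the derivation at `1` -/
theorem Dr_matmul {l m k : Type*} [Fintype m] (u : Fin n) (M : Matrix l m (LauR R n))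
    (N : Matrix m k (LauR R n)) :
    (M * N).map (Dr u) = M.map (Dr u) * N.map eps + M.map eps * N.map (Dr u) := by
  ext i j
  simp only [Matrix.map_apply, Matrix.mul_apply, Matrix.add_apply, map_sum, Dr_mul,
    Finset.sum_add_distrib]

theorem eps_matmul {l m k : Type*} [Fintype m] (M : Matrix l m (LauR R n))
    (N : Matrix m k (LauR R n)) : (M * N).map eps = M.map eps * N.map eps :=
  Matrix.map_mul

theorem eps_conjTranspose {l m : Type*} (M : Matrix l m (LauR R n)) :
    Mᴴ.map eps = (M.map eps)ᵀ := by
  ext i j
  simp only [Matrix.map_apply, Matrix.conjTranspose_apply, Matrix.transpose_apply, eps_star]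

theorem Dr_conjTranspose {l m : Type*} (u : Fin n) (M : Matrix l m (LauR R n)) :
    Mᴴ.map (Dr u) = -(M.map (Dr u))ᵀ := by
  ext i j
  simp only [Matrix.map_apply, Matrix.conjTranspose_apply, Matrix.transpose_apply, Dr_star,
    Matrix.neg_apply]

end LauR

end Pool.Agent.PD4
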