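import Mathlib

/-! Project PD, algebra block: the abstract ring lemmas. -/

namespace Pool.Agent.PD4.Alg

section ring
variable {R : Type*} [Ring R]

/-- strong deformation retraction onto the image of the idempotent `e` -/
structure SDR (d s e : R) : Prop where
  dd : d * d = 0
  ss : s * s = 0
  hom : d * s + s * d = 1 - e
  ee : e * e = e
  se : s * e = 0
  es : e * s = 0
  de : d * e = 0
  ed : e * d = 0

/-- from a contraction `x` in the weak sense `d x d = d` to one with all side conditions;
`e = e₀ * e₀` for `e₀ = 1 - d x - x d` -/
theorem sdr_of_contr {d x : R} (hd : d * d = 0) (hx : d * x * d = d) :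
    SDR d ((x - d * x * x) * d * x) ((1 - d * x - x * d) * (1 - d * x - x * d)) := by
  have hd' : ∀ y, d * (d * y) = 0 := fun y => by rw [← mul_assoc, hd, zero_mul]
  have hx' : ∀ y, d * (x * (d * y)) = d * y := fun y => by
    rw [← mul_assoc x, ← mul_assoc, ← mul_assoc, hx]
  have hx'' : d * (x * d) = d := by rw [← mul_assoc, hx]
  constructor
  · exact hd
  all_goals
    simp only [mul_sub, sub_mul, mul_add, add_mul, mul_one, one_mul, mul_assoc, hd, hd', hx',
      hx'', mul_zero, sub_zero, zero_sub]
    try abel

end ring

section star
variable {R : Type*} [Ring R] [StarRing R]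

/-- a symmetric self dual complex with homotopy inverse `S'` of the duality `S` -/
structure SymD (d S S' h : R) : Prop where
  hS : star S = S
  dS : d * S = S * star d
  S'd : S' * d = star d * S'
  inv : S * S' + d * h + h * d = 1

/-- the hermitian matrix -/
def Hm (d s e S p : R) : R :=
  e * S * star e + p * (d + s) * star (d + s) * p + (1 - p)

/-- its inverse -/
def Zm (d s e S' p : R) : R :=
  star e * S' * e + p * star (d + s) * (d + s) * p + (1 - p)

/-- `p` is the projection to the parts of even degree, `e` lives in degree two -/
structure Par (d s e p : R) : Prop where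
  pp : p * p = p
  hp : star p = p
  dp : d * p = d - p * d
  sp : s * p = s - p * s
  ep : e * p = e
  pe : p * e = e

theorem Hm_star {d s e S p : R} (hS : star S = S) (hp : star p = p) :
    star (Hm d s e S p) = Hm d s e S p := by
  simp only [Hm, star_add, star_sub, star_mul, star_star, star_one, hS, hp, mul_assoc]

theorem Hm_mul_Zm {d s e S S' h p : R} (H : SDR d s e) (K : SymD d S S' h) (P : Par d s e p) :
    Hm d s e S p * Zm d s e S' p = 1 := by
  obtain ⟨dd, ss, hom, ee, se, es, de, ed⟩ := H
  obtain ⟨hS, dS, S'd, inv⟩ := K
  obtain ⟨pp, hp, dp, sp, ep, pe⟩ := P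
  set D := d + s with hD
  have hDe : D * e = 0 := by rw [hD, add_mul, de, se, add_zero]
  have heD : e * D = 0 := by rw [hD, mul_add, ed, es, add_zero]
  have hDD : D * D = 1 - e := by
    rw [hD, add_mul, mul_add, mul_add, dd, ss, ← hom]; abel
  have hDp : D * p = D - p * D := by rw [hD, add_mul, dp, sp, mul_add]; abel
  have heS : star e * star D = 0 := by rw [← star_mul, hDe, star_zero]
  have hSe : star D * star e = 0 := by rw [← star_mul, heD, star_zero]
  have hSee : star e * star e = star e := by rw [← star_mul, ee]
  have hep' : star e * p = star e := by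
    have := congrArg star pe; rwa [star_mul, hp] at this
  have hpe' : p * star e = star e := by
    have := congrArg star ep; rwa [star_mul, hp] at this
  have hDDs : star D * star D = 1 - star e := by
    rw [← star_mul, hDD, star_sub, star_one]
  have hDsp : star D * p = star D - p * star D := by
    have := congrArg star hDp
    rw [star_mul, hp, star_sub, star_mul, hp] at this
    -- p * star D = star D - star D * p
    rw [this]; abel
  -- e S star e S' e = e
  have h1 : e * S * star e * S' * e = e := by
    have h2 : star e = 1 - (star s * star d + star d * star s) := by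
      have := congrArg star hom
      rw [star_add, star_mul, star_mul, star_sub, star_one] at this
      rw [this]; abel
    have h3 : e * S * star d = 0 := by rw [mul_assoc, ← dS, ← mul_assoc, ed, zero_mul]
    have h4 : star d * S' * e = 0 := by rw [← S'd, mul_assoc, de, mul_zero]
    have h5 : e * S * S' * e = e := by
      have h6 : S * S' = 1 - d * h - h * d := by rw [← inv]; abel
      rw [mul_assoc e S S', h6, mul_sub, mul_sub, mul_one, sub_mul, sub_mul, ← mul_assoc, ed,
        zero_mul, zero_mul, ← mul_assoc e h d, mul_assoc (e * h) d e, de, mul_zero, ee]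
      abel
    have h7 : e * S * star e * S' * e =
        e * S * S' * e - e * S * star s * (star d * S' * e) -
          (e * S * star d) * star s * S' * e := by
      rw [h2]; noncomm_ring
    rw [h7, h3, h4, h5]; noncomm_ring
  have h2 : e * S * star e * (p * star D * D * p) = 0 := by
    have : star e * (p * star D * D * p) = 0 := by
      rw [← mul_assoc, ← mul_assoc, ← mul_assoc, hep', heS, zero_mul, zero_mul]
    rw [mul_assoc (e * S), this, mul_zero]
  have h3 : e * S * star e * (1 - p) = 0 := by
    rw [mul_sub, mul_one, mul_assoc _ (star e) p, hep', sub_self]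
  have h4 : p * D * star D * p * (star e * S' * e) = 0 := by
    have : p * D * star D * p * (star e * S' * e) =
        p * D * (star D * (p * star e)) * S' * e := by noncomm_ring
    rw [this, hpe', hSe]; noncomm_ring
  have h5 : p * D * star D * p * (p * star D * D * p) = p - e := by
    have e1 : p * D * star D * p * (p * star D * D * p) =
        p * D * (star D * (p * p) * star D) * (D * p) := by noncomm_ring
    have e2 : star D * (p * p) * star D = (1 - star e) - p * (1 - star e) := by
      rw [pp, hDsp, sub_mul, mul_assoc p, hDDs]
    have e3 : D * p = (1 - p) * D := by rw [hDp]; noncomm_ring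
    have e4 : (1 - star e - p * (1 - star e)) = (1 - p) * (1 - star e) := by noncomm_ring
    rw [e1, e2, e4]
    have e5 : (1 - p) * (1 - star e) * (D * p) = D * p := by
      have : star e * (D * p) = 0 := by
        rw [e3, ← mul_assoc, mul_sub, mul_one, hep', sub_self, zero_mul]
      have h9 : (1 - p) * (1 - p) = 1 - p := by
        rw [mul_sub, mul_one, sub_mul, one_mul, pp]; abel
      have e6 : (1 - star e) * (D * p) = D * p := by rw [sub_mul, one_mul, this, sub_zero]
      rw [mul_assoc, e6, e3, ← mul_assoc, h9]
    rw [mul_assoc (p * D), e5, mul_assoc p D, ← mul_assoc D D p, hDD, sub_mul, one_mul, ep,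
      mul_sub, pp, pe]
  have h6 : p * D * star D * p * (1 - p) = 0 := by
    rw [mul_sub, mul_one, mul_assoc _ p p, pp, sub_self]
  have h7 : (1 - p) * (star e * S' * e) = 0 := by
    rw [← mul_assoc, ← mul_assoc, sub_mul, one_mul, hpe', sub_self, zero_mul, zero_mul]
  have h8 : (1 - p) * (p * star D * D * p) = 0 := by
    rw [← mul_assoc, ← mul_assoc, ← mul_assoc, sub_mul, one_mul, pp, sub_self, zero_mul,
      zero_mul, zero_mul]
  have h9 : (1 - p) * (1 - p) = 1 - p := by
    rw [mul_sub, mul_one, sub_mul, one_mul, pp]; abel
  have h10 : e * S * star e * (star e * S' * e) = e := by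
    rw [show e * S * star e * (star e * S' * e) = e * S * (star e * star e) * S' * e by
      noncomm_ring, hSee, h1]
  have h11 : ∀ a b c a' b' c' : R, (a + b + c) * (a' + b' + c') =
      a * a' + a * b' + a * c' + (b * a' + b * b' + b * c') + (c * a' + c * b' + c * c') := by
    intro a b c a' b' c'
    rw [add_mul, add_mul, mul_add, mul_add, mul_add, mul_add, mul_add, mul_add]
  unfold Hm Zm
  rw [← hD, h11, h10, h2, h3, h4, h5, h6, h7, h8, h9]
  abel

theorem Zm_star {d s e S S' h p : R} (H : SDR d s e) (K : SymD d S S' h) (P : Par d s e p) :
    star (Zm d s e S' p) = Zm d s e S' p := by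
  have h1 := Hm_mul_Zm H K P
  have h2 := congrArg star h1
  rw [star_mul, Hm_star K.hS P.hp, star_one] at h2
  calc star (Zm d s e S' p) = star (Zm d s e S' p) * (Hm d s e S p * Zm d s e S' p) := by
        rw [h1, mul_one]
    _ = Zm d s e S' p := by rw [← mul_assoc, h2, one_mul]

theorem Zm_mul_Hm {d s e S S' h p : R} (H : SDR d s e) (K : SymD d S S' h) (P : Par d s e p) :
    Zm d s e S' p * Hm d s e S p = 1 := by
  have h2 := congrArg star (Hm_mul_Zm H K P)
  rwa [star_mul, Hm_star K.hS P.hp, Zm_star H K P, star_one] at h2

/-- `e* t` is isotropic for `t` in the kernel of `d*` with `t* S t = 0` -/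
theorem isotropic {d s e S S' h p t u : R} (H : SDR d s e) (K : SymD d S S' h)
    (P : Par d s e p) (ht : star d * t = 0) (hu : star d * u = 0) :
    star (star e * t) * Hm d s e S p * (star e * u) = star t * S * u := by
  obtain ⟨dd, ss, hom, ee, se, es, de, ed⟩ := H
  obtain ⟨hS, dS, S'd, inv⟩ := K
  obtain ⟨pp, hp, dp, sp, ep, pe⟩ := P
  have ht' : star t * d = 0 := by
    have := congrArg star ht; rwa [star_mul, star_star, star_zero] at this
  have hSt : e * (d + s) = 0 := by rw [mul_add, ed, es, add_zero]
  have hSt' : star (d + s) * star e = 0 := by rw [← star_mul, hSt, star_zero]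
  have hpe' : p * star e = star e := by
    have := congrArg star ep; rwa [star_mul, hp] at this
  have he' : star e = 1 - (star s * star d + star d * star s) := by
    have := congrArg star hom
    rw [star_add, star_mul, star_mul, star_sub, star_one] at this
    rw [this]; abel
  have hSee : star e * star e = star e := by rw [← star_mul, ee]
  have h1 : Hm d s e S p * (star e * u) = e * S * star e * u := by
    unfold Hm
    rw [add_mul, add_mul]
    have h2 : p * (d + s) * star (d + s) * p * (star e * u) = 0 := by
      rw [show p * (d + s) * star (d + s) * p * (star e * u) =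
        p * (d + s) * (star (d + s) * (p * star e)) * u by noncomm_ring, hpe', hSt']
      noncomm_ring
    have h3 : (1 - p) * (star e * u) = 0 := by
      rw [← mul_assoc, sub_mul, one_mul, hpe', sub_self, zero_mul]
    have h4 : e * S * star e * (star e * u) = e * S * star e * u := by
      rw [show e * S * star e * (star e * u) = e * S * (star e * star e) * u by noncomm_ring,
        hSee]
    rw [h2, h3, h4]; abel
  rw [star_mul, star_star, mul_assoc (star t * e), h1]
  have h5 : star t * e * (e * S * star e * u) = star t * e * S * star e * u := by
    rw [show star t * e * (e * S * star e * u) = star t * (e * e) * S * star e * u by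
      noncomm_ring, ee]
  rw [h5]
  have he : e = 1 - (d * s + s * d) := by rw [hom]; abel
  have h6 : star t * e = star t - star t * s * d := by
    rw [he, mul_sub, mul_one, mul_add, ← mul_assoc, ht', zero_mul, zero_add, ← mul_assoc]
  have h7 : star e * u = u - star d * (star s * u) := by
    rw [he', sub_mul, one_mul, add_mul, mul_assoc (star s), hu, mul_zero, zero_add, mul_assoc]
  have h8 : star t * e * S * star e * u = (star t * e) * S * (star e * u) := by noncomm_ring
  rw [h8, h6, h7]
  have h9 : star t * S * star d = 0 := by rw [mul_assoc, ← dS, ← mul_assoc, ht', zero_mul]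
  have h10 : d * S * u = 0 := by rw [dS, mul_assoc, hu, mul_zero]
  have h11 : d * S * star d = 0 := by rw [dS, mul_assoc, ← star_mul, dd, star_zero, mul_zero]
  have h12 : (star t - star t * s * d) * S * (u - star d * (star s * u)) =
      star t * S * u - (star t * S * star d) * (star s * u) - star t * s * (d * S * u) +
        star t * s * (d * S * star d) * (star s * u) := by noncomm_ring
  rw [h12, h9, h10, h11]; noncomm_ring

end star

end Pool.Agent.PD4.Alg
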