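import Pool.Agent.PD4.Alg.Contr
import Pool.Agent.PD4.Alg.Grade
import Pool.Agent.PD4.Alg.LauR
import Pool.Agent.PD4.Alg.Ring

/-!
# Project PD4, algebra block: the algebraic input `PDData` and the surgered complex

`PDData R n I`: a bounded complex of based free modules over `R[ℤⁿ]` (index set `I`), duality,
contraction of the cone of the duality, base point and loops, augmentation cocycle `η`.
All fields are matrix identities, hence stable under base change `R → R'`.
-/

namespace Pool.Agent.PD4.Alg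

open Matrix LauR

/-- index set of `K_{≤1}`: one generator of degree `0`, `n` generators of degree `1` -/
abbrev KI (n : ℕ) := Unit ⊕ Fin n

/-- grading of `K_{≤1}` -/
def degK (n : ℕ) : KI n → ℤ := Sum.elim (fun _ => 0) (fun _ => 1)

/-- differential of `K_{≤1}`: `e_j ↦ (t_j - 1) e` -/
noncomputable def kap (R : Type*) [CommRing R] (n : ℕ) : Matrix (KI n) (KI n) (LauR R n) :=
  fromBlocks 0 (Matrix.of fun _ j => T R j - 1) 0 0

theorem kap_sq (R : Type*) [CommRing R] (n : ℕ) : kap R n * kap R n = 0 := by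
  rw [kap, fromBlocks_multiply]
  simp

theorem hg_kap (R : Type*) [CommRing R] (n : ℕ) : Hg (degK n) (degK n) (-1) (kap R n) := by
  rintro (i | i) (j | j) h
  · exact absurd rfl h
  · rfl
  · exact absurd rfl h
  · exact absurd rfl h

theorem degK_le {n : ℕ} (k : KI n) : degK n k ≤ 1 := by
  rcases k with k | k
  · exact zero_le_one
  · exact le_refl _

theorem degK_nonneg {n : ℕ} (k : KI n) : 0 ≤ degK n k := by
  rcases k with k | k
  · exact le_refl _
  · exact zero_le_one

section
variable {R : Type*} [CommRing R] {n : ℕ} {I : Type*} [Fintype I] [DecidableEq I]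

/-- grading of the cone of `g : K → C` -/
def degG (deg : I → ℤ) (n : ℕ) : I ⊕ KI n → ℤ := Sum.elim deg (fun k => degK n k + 1)

/-- differential of the cone of `g : K → C` -/
noncomputable def coneG (d : Matrix I I (LauR R n)) (g : Matrix I (KI n) (LauR R n)) :
    Matrix (I ⊕ KI n) (I ⊕ KI n) (LauR R n) :=
  fromBlocks d g 0 (-kap R n)
end

/-- The algebraic input. -/
structure PDData (R : Type) [CommRing R] (n : ℕ) (I : Type) [Fintype I] [DecidableEq I] where
  /-- differential, duality and contraction of the cone of the duality -/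
  D : Dual (LauR R n) I
  /-- grading -/
  deg : I → ℤ
  gr : D.Graded deg
  /-- symmetry homotopy of the duality -/
  U : Matrix I I (LauR R n)
  hU : Hg deg (fun i => 5 - deg i) 0 U
  hSU : D.S - D.Sᴴ = D.d * U + U * D.dᴴ
  /-- base point (column `inl ()`) and loops (columns `inr j`) -/
  g : Matrix I (KI n) (LauR R n)
  hg : Hg deg (degK n) 0 g
  dg : D.d * g = g * kap R n
  /-- contraction of the cone of `g` in degrees `≤ 1` -/
  τ : Matrix (I ⊕ KI n) (I ⊕ KI n) (LauR R n)
  hτ : Hg (degG deg n) (degG deg n) 1 τ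
  τlow : (coneG D.d g * τ + τ * coneG D.d g) * pr _ (degG deg n) (· ≤ 1) =
    pr _ (degG deg n) (· ≤ 1)
  /-- the commutators of the loops are boundaries -/
  Y : Fin n → Fin n → I → LauR R n
  hY : ∀ i j, D.d *ᵥ (Y i j) =
    (T R i - 1) • (fun a => g a (Sum.inr j)) - (T R j - 1) • (fun a => g a (Sum.inr i))
  /-- augmentation cocycle -/
  η : I → R
  hη0 : ∀ i, η i ≠ 0 → deg i = 0
  hη : (D.d.map eps)ᵀ *ᵥ η = 0
  hη1 : η ⬝ᵥ (fun i => eps (g i (Sum.inl ()))) = 1

namespace PDData

variable {R : Type} [CommRing R] {n : ℕ} {I : Type} [Fintype I] [DecidableEq I]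

/-- the cocycle `y_v = D_v(δ) η` (for a space: the `v`-th coordinate class in `H¹`) -/
noncomputable def y (X : PDData R n I) (v : Fin n) : I → R := (X.D.d.map (Dr v))ᵀ *ᵥ X.η

/-- the cocycle `c_uv = D_u(δ) D_v(δ) η` (for a space: the cup product `x_u x_v`) -/
noncomputable def c (X : PDData R n I) (u v : Fin n) : I → R :=
  (X.D.d.map (Dr u))ᵀ *ᵥ X.y v

/-- the value of the intersection form on `c_ij, c_kl` -/
noncomputable def form (X : PDData R n I) (i j k l : Fin n) : R :=
  X.c i j ⬝ᵥ ((X.D.S.map eps) *ᵥ X.c k l)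

/-- the classes `c_uv` span `H²` of the complex at `1` -/
def Spans (X : PDData R n I) : Prop :=
  ∀ z : I → R, (∀ i, z i ≠ 0 → X.deg i = 2) → (X.D.d.map eps)ᵀ *ᵥ z = 0 →
    ∃ (α : Fin n → Fin n → R) (x : I → R),
      z = ∑ u, ∑ v, α u v • X.c u v + (X.D.d.map eps)ᵀ *ᵥ x

theorem surg_dg (X : PDData R n I) : X.D.dᴴ * (X.D.S' * X.g) = X.D.S' * X.g * kap R n := by
  rw [← Matrix.mul_assoc, ← X.D.c3, Matrix.mul_assoc, X.dg, ← Matrix.mul_assoc]

theorem hg_Gh (X : PDData R n I) : Hg X.deg (fun k => 4 - degK n k) 0 (X.D.S' * X.g) :=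
  X.gr.hS'.mulc X.hg fun i j k _ _ => by omega

theorem surg_gSg (X : PDData R n I) : (X.D.S' * X.g)ᴴ * X.D.S * (X.D.S' * X.g) = 0 := by
  have h2 : Hg (degK n) X.deg 0 ((X.D.S' * X.g)ᴴ * X.D.S) :=
    X.hg_Gh.conjTranspose.mulc X.gr.hS fun i j k _ _ => by omega
  have h1 : Hg (degK n) (fun j => 8 - degK n j) (-4)
      ((X.D.S' * X.g)ᴴ * X.D.S * (X.D.S' * X.g)) :=
    h2.mulc X.hg_Gh fun i j k _ _ => by omega
  refine Matrix.ext fun i j => ?_
  by_contra h
  have := h1 i j h
  have h3 := degK_le i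
  have h4 := degK_le j
  dsimp only at this
  omega

/-- the surgery datum: `Gh = S' g` -/
noncomputable def surg (X : PDData R n I) (hs : X.D.Sᴴ = X.D.S) :
    Surg (LauR R n) I (KI n) :=
  { X.D with
    Sh := hs
    g := X.D.S' * X.g
    δ := kap R n
    δδ := kap_sq R n
    dg := X.surg_dg
    gSg := X.surg_gSg }

/-- gradings of the surgery datum -/
theorem surg_gr (X : PDData R n I) (hs : X.D.Sᴴ = X.D.S) :
    Surg.Gr (X.surg hs) X.deg (degK n) where
  gr := X.gr
  g := X.hg_Gh
  δ := hg_kap R n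

/-- the index set of `T` -/
abbrev J (n : ℕ) (I : Type) := I ⊕ (KI n ⊕ KI n)

/-- grading of `T` -/
def degT (X : PDData R n I) : J n I → ℤ :=
  Sum.elim X.deg (Sum.elim (fun k => degK n k + 1) (fun k => 3 - degK n k))

end PDData

end Pool.Agent.PD4.Alg
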