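import Pool.Agent.PD4.Alg.Flat
import Pool.Agent.PD4.Alg.Defs

/-!
# Project PD4, algebra block: real spanning from integer data (owner: helper87)

The statements `real_ker_span` and `PDData.spans_of_int` of `Base.lean`, in the namespace `Flat`.
-/

namespace Pool.Agent.PD4.Alg.Flat

open Matrix LauR

variable {n : ℕ} {I : Type} [Fintype I] [DecidableEq I]

/-- integer kernel vectors span the real kernel -/
theorem real_ker_span {I J : Type} [Fintype I] [Fintype J] (M : Matrix I J ℤ) (z : J → ℝ)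
    (hz : (M.map (Int.cast : ℤ → ℝ)) *ᵥ z = 0) :
    ∃ (m : ℕ) (r : Fin m → ℝ) (w : Fin m → J → ℤ), (∀ a, M *ᵥ w a = 0) ∧
      ∀ j, z j = ∑ a, r a * (w a j : ℝ) := by
  classical
  obtain ⟨s, β, w, h1, h2, -⟩ := int_kernel_spans M z hz
  refine ⟨s.card, fun a => β (s.equivFin.symm a : ℕ), fun a => w (s.equivFin.symm a : ℕ),
    fun a => h2 _ (s.equivFin.symm a).2, fun j => ?_⟩
  conv_lhs => rw [h1]
  rw [Finset.sum_apply, ← Finset.sum_coe_sort s, ← Equiv.sum_comp s.equivFin.symm]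
  rfl

/-- `c_uv` after base change along `ℤ → ℝ` -/
theorem c_cast (X : PDData ℤ n I) (X' : PDData ℝ n I)
    (hD : X'.D.d = X.D.d.map (bc (Int.castRingHom ℝ)))
    (hη : X'.η = (fun i => (X.η i : ℝ))) (u v : Fin n) (i : I) :
    X'.c u v i = (X.c u v i : ℝ) := by
  have hy : ∀ i, X'.y v i = (X.y v i : ℝ) := by
    intro i
    simp only [PDData.y, hD, hη, Matrix.mulVec, dotProduct, Matrix.transpose_apply,
      Matrix.map_apply, Dr_bc]
    push_cast
    rfl
  simp only [PDData.c, hD, Matrix.mulVec, dotProduct, Matrix.transpose_apply,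
    Matrix.map_apply, Dr_bc, hy]
  push_cast
  rfl

/-- rational spanning of `H²` over `ℤ` gives `Spans` over `ℝ` -/
theorem spans_of_int (X : PDData ℤ n I) (X' : PDData ℝ n I) (hd : X'.deg = X.deg)
    (hD : X'.D.d = X.D.d.map (bc (Int.castRingHom ℝ)))
    (hη : X'.η = (fun i => (X.η i : ℝ)))
    (h : ∀ z : I → ℤ, (∀ i, z i ≠ 0 → X.deg i = 2) → (X.D.d.map eps)ᵀ *ᵥ z = 0 →
      ∃ (N : ℤ) (α : Fin n → Fin n → ℤ) (x : I → ℤ), N ≠ 0 ∧
        N • z = ∑ u, ∑ v, α u v • X.c u v + (X.D.d.map eps)ᵀ *ᵥ x) :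
    X'.Spans := by
  classical
  intro z hz2 hz
  have hmat : (X'.D.d.map eps)ᵀ = ((X.D.d.map eps)ᵀ).map (Int.cast : ℤ → ℝ) := by
    ext i j
    simp only [Matrix.transpose_apply, Matrix.map_apply, hD, eps_bc]
    rfl
  have key := spans_real (K := Fin n × Fin n) ((X.D.d.map eps)ᵀ) ((X.D.d.map eps)ᵀ)
    (fun i => X.deg i = 2) (fun k => X.c k.1 k.2) (by
      intro w hw hw0
      obtain ⟨N, α, x, hN, hx⟩ := h w hw hw0
      refine ⟨N, hN, fun k => α k.1 k.2, x, ?_⟩
      rw [hx, Fintype.sum_prod_type]) z (by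
      intro i hi
      have := hz2 i hi
      rwa [hd] at this) (by rw [← hmat]; exact hz)
  obtain ⟨α, x, hx⟩ := key
  refine ⟨fun u v => α (u, v), x, ?_⟩
  rw [hx, hmat, Fintype.sum_prod_type]
  congr 1
  refine Finset.sum_congr rfl fun u _ => Finset.sum_congr rfl fun v _ => ?_
  congr 1
  funext i
  exact (c_cast X X' hD hη u v i).symm

end Pool.Agent.PD4.Alg.Flat
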