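import Pool.Agent.PD4.Alg.AtOne
import Pool.Agent.PD4.Alg.BaseInt

/-!
# Project PD4, algebra block: base change and symmetrisation of the input (owner: helper75)
-/

namespace Pool.Agent.PD4.Alg

open Matrix LauR

variable {R R' : Type} [CommRing R] [CommRing R'] {n : ℕ} {I : Type} [Fintype I] [DecidableEq I]

section bc

/-- base change of matrices commutes with the conjugate transpose -/
lemma base_map_star (f : R →+* R') {l m : Type*} (M : Matrix l m (LauR R n)) :
    (M.map (bc f))ᴴ = (Mᴴ).map (bc f) := by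
  ext i j : 2
  simp only [Matrix.conjTranspose_apply, Matrix.map_apply, bc_star]

lemma base_map_eps (f : R →+* R') {l m : Type*} (M : Matrix l m (LauR R n)) :
    (M.map (bc f)).map eps = (M.map eps).map f := by
  ext i j : 2
  simp only [Matrix.map_apply, eps_bc]

lemma base_map_Dr (f : R →+* R') (u : Fin n) {l m : Type*} (M : Matrix l m (LauR R n)) :
    (M.map (bc f)).map (Dr u) = (M.map (Dr u)).map f := by
  ext i j : 2
  simp only [Matrix.map_apply, Dr_bc]

lemma base_kap (f : R →+* R') : (kap R n).map (bc f) = kap R' n := by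
  unfold kap
  rw [Matrix.fromBlocks_map]
  congr 1
  · exact Matrix.map_zero _ (map_zero _)
  · ext i j : 2
    simp only [Matrix.map_apply, Matrix.of_apply, map_sub, map_one, bc_T]
  · exact Matrix.map_zero _ (map_zero _)
  · exact Matrix.map_zero _ (map_zero _)

lemma base_pr (f : R →+* R') {J : Type*} [DecidableEq J] (deg : J → ℤ) (P : ℤ → Prop)
    [DecidablePred P] : (pr (LauR R n) deg P).map (bc f) = pr (LauR R' n) deg P := by
  unfold pr
  rw [Matrix.diagonal_map (map_zero _)]
  congr 1
  funext i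
  split_ifs <;> simp

lemma base_coneG (f : R →+* R') (d : Matrix I I (LauR R n)) (g : Matrix I (KI n) (LauR R n)) :
    (coneG d g).map (bc f) = coneG (d.map (bc f)) (g.map (bc f)) := by
  unfold coneG
  rw [Matrix.fromBlocks_map, ← base_kap f]
  congr 1
  · exact Matrix.map_zero _ (map_zero _)
  · ext i j : 2
    simp only [Matrix.map_apply, Matrix.neg_apply, map_neg]

/-- base change of a duality datum -/
noncomputable def baseDual (f : R →+* R') (D : Dual (LauR R n) I) : Dual (LauR R' n) I where
  d := D.d.map (bc f)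
  S := D.S.map (bc f)
  h := D.h.map (bc f)
  m := D.m.map (bc f)
  S' := D.S'.map (bc f)
  k := D.k.map (bc f)
  dd := by
    have h := congrArg (bc f).mapMatrix D.dd
    simpa only [map_mul, map_zero, RingHom.mapMatrix_apply] using h
  dS := by
    have h := congrArg (bc f).mapMatrix D.dS
    simpa only [map_mul, RingHom.mapMatrix_apply, base_map_star] using h
  c1 := by
    have h := congrArg (bc f).mapMatrix D.c1
    simpa only [map_mul, map_add, map_one, RingHom.mapMatrix_apply] using h
  c2 := by
    have h := congrArg (bc f).mapMatrix D.c2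
    simpa only [map_mul, map_add, map_sub, map_zero, RingHom.mapMatrix_apply,
      base_map_star] using h
  c3 := by
    have h := congrArg (bc f).mapMatrix D.c3
    simpa only [map_mul, RingHom.mapMatrix_apply, base_map_star] using h
  c4 := by
    have h := congrArg (bc f).mapMatrix D.c4
    simpa only [map_mul, map_sub, map_one, RingHom.mapMatrix_apply, base_map_star] using h

/-- base change of the input -/
noncomputable def baseData (f : R →+* R') (X : PDData R n I) : PDData R' n I where
  D := baseDual f X.D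
  deg := X.deg
  gr :=
    { hd := X.gr.hd.map _ (map_zero _)
      hS := X.gr.hS.map _ (map_zero _)
      hh := X.gr.hh.map _ (map_zero _)
      hm := X.gr.hm.map _ (map_zero _)
      hS' := X.gr.hS'.map _ (map_zero _)
      hk := X.gr.hk.map _ (map_zero _) }
  U := X.U.map (bc f)
  hU := X.hU.map _ (map_zero _)
  hSU := by
    change X.D.S.map (bc f) - (X.D.S.map (bc f))ᴴ =
      X.D.d.map (bc f) * X.U.map (bc f) + X.U.map (bc f) * (X.D.d.map (bc f))ᴴ
    have h := congrArg (bc f).mapMatrix X.hSU
    simpa only [map_mul, map_add, map_sub, RingHom.mapMatrix_apply, base_map_star] using h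
  g := X.g.map (bc f)
  hg := X.hg.map _ (map_zero _)
  dg := by
    change X.D.d.map (bc f) * X.g.map (bc f) = X.g.map (bc f) * kap R' n
    rw [← base_kap f, ← Matrix.map_mul, ← Matrix.map_mul, X.dg]
  τ := X.τ.map (bc f)
  hτ := X.hτ.map _ (map_zero _)
  τlow := by
    change (coneG (X.D.d.map (bc f)) (X.g.map (bc f)) * X.τ.map (bc f) +
      X.τ.map (bc f) * coneG (X.D.d.map (bc f)) (X.g.map (bc f))) *
        pr (LauR R' n) (degG X.deg n) (· ≤ 1) = pr (LauR R' n) (degG X.deg n) (· ≤ 1)
    have h := congrArg (bc f).mapMatrix X.τlow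
    simpa only [map_mul, map_add, RingHom.mapMatrix_apply, base_pr, base_coneG] using h
  Y i j a := bc f (X.Y i j a)
  hY := by
    intro i j
    funext a
    have h := congrArg (bc f) (congrFun (X.hY i j) a)
    rw [RingHom.map_mulVec] at h
    refine h.trans ?_
    simp only [Pi.sub_apply, Pi.smul_apply, smul_eq_mul, map_sub, map_mul, map_one, bc_T,
      Matrix.map_apply]
  η i := f (X.η i)
  hη0 := by
    intro i hi
    refine X.hη0 i ?_
    intro h0
    exact hi (by rw [h0, map_zero])
  hη := by
    change (((X.D.d.map (bc f)).map eps)ᵀ *ᵥ fun i => f (X.η i)) = 0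
    rw [base_map_eps, ← Matrix.transpose_map]
    funext a
    have h := congrArg f (congrFun X.hη a)
    rw [RingHom.map_mulVec] at h
    refine h.trans ?_
    simp
  hη1 := by
    have h := congrArg f X.hη1
    rw [RingHom.map_dotProduct, map_one] at h
    rw [← h]
    congr 1
    funext i
    simp only [Matrix.map_apply, eps_bc, Function.comp_apply]

lemma baseData_y (f : R →+* R') (X : PDData R n I) (v : Fin n) (i : I) :
    (baseData f X).y v i = f (X.y v i) := by
  change ((((X.D.d.map (bc f)).map (Dr v))ᵀ *ᵥ fun i => f (X.η i)) i) = _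
  rw [base_map_Dr, ← Matrix.transpose_map]
  exact (RingHom.map_mulVec f _ _ _).symm

lemma baseData_c (f : R →+* R') (X : PDData R n I) (u v : Fin n) (i : I) :
    (baseData f X).c u v i = f (X.c u v i) := by
  have h : (baseData f X).y v = fun i => f (X.y v i) := funext (baseData_y f X v)
  change ((((X.D.d.map (bc f)).map (Dr u))ᵀ *ᵥ (baseData f X).y v) i) = _
  rw [base_map_Dr, ← Matrix.transpose_map, h]
  exact (RingHom.map_mulVec f _ _ _).symm

lemma baseData_form (f : R →+* R') (X : PDData R n I) (i j k l : Fin n) :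
    (baseData f X).form i j k l = f (X.form i j k l) := by
  have h1 : (baseData f X).c i j = fun a => f (X.c i j a) := funext (baseData_c f X i j)
  have h2 : (baseData f X).c k l = fun a => f (X.c k l a) := funext (baseData_c f X k l)
  change (baseData f X).c i j ⬝ᵥ (((X.D.S.map (bc f)).map eps) *ᵥ (baseData f X).c k l) = _
  rw [h1, h2, base_map_eps, PDData.form, RingHom.map_dotProduct]
  congr 1
  funext a
  exact (RingHom.map_mulVec f _ _ _).symm

end bc

/-- base change of the input along `R → R'` -/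
theorem PDData.exists_bc (f : R →+* R') (X : PDData R n I) :
    ∃ X' : PDData R' n I, X'.deg = X.deg ∧ X'.D.d = X.D.d.map (bc f) ∧
      X'.D.S = X.D.S.map (bc f) ∧ X'.η = (fun i => f (X.η i)) ∧
      (∀ u v i, X'.c u v i = f (X.c u v i)) ∧
      (∀ i j k l, X'.form i j k l = f (X.form i j k l)) :=
  ⟨baseData f X, rfl, rfl, rfl, rfl, baseData_c f X, baseData_form f X⟩

section symm

lemma base_eps_mul {l m k : Type*} [Fintype m] (M : Matrix l m (LauR R n))
    (N : Matrix m k (LauR R n)) : (M * N).map eps = M.map eps * N.map eps :=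
  Matrix.map_mul

lemma base_eps_star {l m : Type*} (M : Matrix l m (LauR R n)) :
    Mᴴ.map eps = (M.map eps)ᵀ := by
  ext i j
  simp only [Matrix.map_apply, Matrix.conjTranspose_apply, Matrix.transpose_apply, eps_star]

/-- gradings of a homotopic duality datum -/
lemma base_homot_graded {L : Type*} [CommRing L] [StarRing L] {deg : I → ℤ} (D : Dual L I)
    (gr : D.Graded deg) (V : Matrix I I L) (hV : Hg deg (fun i => 5 - deg i) 0 V) :
    (D.homot V).Graded deg := by
  have hds : Hg deg deg 1 (D.dᴴ) := gr.hd.conjTranspose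
  have hVS : Hg deg deg 1 (V * D.S') := by
    have h : Hg (fun i => 5 - deg i) deg 1 D.S' :=
      gr.hS'.congr fun i j h => by omega
    exact (hV.mul h).congr fun i j h => by omega
  have hVS' : Hg deg deg (-1) (D.S' * V) := by
    have h : Hg (fun i => 4 - deg i) deg (-1) V :=
      hV.congr fun i j h => by omega
    exact (gr.hS'.mul h).congr fun i j h => by omega
  have hVSV : Hg deg (fun i => 6 - deg i) 0 (V * D.S' * V) :=
    (hVS.mul hV).congr fun i j h => by omega
  refine ⟨gr.hd, ?_, ?_, ?_, gr.hS', ?_⟩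
  · change Hg deg (fun i => 4 - deg i) 0 (D.S - (D.d * V + V * D.dᴴ))
    refine gr.hS.sub (Hg.add ?_ ?_)
    · exact (gr.hd.mul hV).congr fun i j h => by omega
    · have h : Hg (fun i => 5 - deg i) (fun i => 4 - deg i) 0 D.dᴴ :=
        hds.congr fun i j h => by omega
      exact (hV.mul h).congr fun i j h => by omega
  · change Hg deg deg 1 (D.h + V * D.S')
    exact gr.hh.add hVS
  · change Hg deg (fun i => 6 - deg i) 0 (D.m + V * D.k - D.h * V - V * D.S' * V)
    refine ((gr.hm.add ?_).sub ?_).sub hVSV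
    · have h : Hg (fun i => 5 - deg i) (fun i => 6 - deg i) 0 D.k :=
        gr.hk.congr fun i j h => by omega
      exact (hV.mul h).congr fun i j h => by omega
    · exact (gr.hh.mul hV).congr fun i j h => by omega
  · change Hg deg deg (-1) (D.k - D.S' * V)
    exact gr.hk.sub hVS'

end symm

/-- symmetrisation, `t = 1/2` (`Dual.homot_symm` of `TCx.lean`; `c_uvᵀ S(1)ᵀ c_kl = c_uvᵀ S(1) c_kl`
because the `c_uv` are cocycles: `c_cocycle`) -/
theorem PDData.exists_symm (t : R) (ht : t + t = 1) (X : PDData R n I) :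
    ∃ X' : PDData R n I, X'.D.Sᴴ = X'.D.S ∧ X'.deg = X.deg ∧ X'.D.d = X.D.d ∧ X'.η = X.η ∧
      (∀ i j k l, X'.form i j k l = X.form i j k l) := by
  have ht2 : (algebraMap R (LauR R n) t) * 2 = 1 := by
    rw [mul_two, ← map_add, ht, map_one]
  let _ : Invertible (2 : LauR R n) :=
    { invOf := algebraMap R (LauR R n) t
      invOf_mul_self := ht2
      mul_invOf_self := by rw [mul_comm]; exact ht2 }
  set V : Matrix I I (LauR R n) := (⅟2 : LauR R n) • X.U with hVdef
  have hV : Hg X.deg (fun i => 5 - X.deg i) 0 V := by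
    intro i j hij
    refine X.hU i j ?_
    intro h0
    exact hij (by rw [hVdef, Matrix.smul_apply, h0, smul_zero])
  obtain ⟨-, hsym⟩ := Dual.homot_symm X.D X.U X.hSU
  refine ⟨{ X with
    D := X.D.homot V
    gr := base_homot_graded X.D X.gr V hV
    U := 0
    hU := Hg.zero
    hSU := by rw [hsym, sub_self, Matrix.mul_zero, Matrix.zero_mul, add_zero]
    dg := X.dg
    τlow := X.τlow
    hY := X.hY
    hη := X.hη }, hsym, rfl, rfl, rfl, ?_⟩
  intro i j k l
  change X.c i j ⬝ᵥ (((X.D.S - (X.D.d * V + V * X.D.dᴴ)).map eps) *ᵥ X.c k l) = _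
  have e : ((X.D.S - (X.D.d * V + V * X.D.dᴴ)).map eps) =
      X.D.S.map eps - ((X.D.d.map eps) * (V.map eps) + (V.map eps) * (X.D.d.map eps)ᵀ) := by
    rw [← base_eps_star, ← base_eps_mul, ← base_eps_mul, ← Matrix.map_add _ (map_add eps),
      ← Matrix.map_sub _ (map_sub eps)]
  have h1 : X.c i j ⬝ᵥ (((X.D.d.map eps) * (V.map eps)) *ᵥ X.c k l) = 0 := by
    rw [← Matrix.mulVec_mulVec, Matrix.dotProduct_mulVec, ← Matrix.mulVec_transpose,
      X.c_cocycle, zero_dotProduct]
  have h2 : (((V.map eps) * (X.D.d.map eps)ᵀ) *ᵥ X.c k l) = 0 := by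
    rw [← Matrix.mulVec_mulVec, X.c_cocycle, Matrix.mulVec_zero]
  rw [e, Matrix.sub_mulVec, Matrix.add_mulVec, dotProduct_sub, dotProduct_add, h1, h2,
    dotProduct_zero, add_zero, sub_zero]
  rfl

/-- integer kernel vectors span the real kernel (owner: helper87) -/
theorem real_ker_span {I J : Type} [Fintype I] [Fintype J] (M : Matrix I J ℤ) (z : J → ℝ)
    (hz : (M.map (Int.cast : ℤ → ℝ)) *ᵥ z = 0) :
    ∃ (m : ℕ) (r : Fin m → ℝ) (w : Fin m → J → ℤ), (∀ a, M *ᵥ w a = 0) ∧
      ∀ j, z j = ∑ a, r a * (w a j : ℝ) :=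
  Flat.real_ker_span M z hz

/-- rational spanning of `H²` over `ℤ` gives `Spans` over `ℝ` (owner: helper87) -/
theorem PDData.spans_of_int (X : PDData ℤ n I) (X' : PDData ℝ n I) (hd : X'.deg = X.deg)
    (hD : X'.D.d = X.D.d.map (bc (Int.castRingHom ℝ)))
    (hη : X'.η = (fun i => (X.η i : ℝ)))
    (h : ∀ z : I → ℤ, (∀ i, z i ≠ 0 → X.deg i = 2) → (X.D.d.map eps)ᵀ *ᵥ z = 0 →
      ∃ (N : ℤ) (α : Fin n → Fin n → ℤ) (x : I → ℤ), N ≠ 0 ∧
        N • z = ∑ u, ∑ v, α u v • X.c u v + (X.D.d.map eps)ᵀ *ᵥ x) :
    X'.Spans :=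
  Flat.spans_of_int X X' hd hD hη h

end Pool.Agent.PD4.Alg
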