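import Mathlib

/-!
# Project PD (MP_69cf13_gt): symmetrisation and the surgered complex `T`

All matrices over a commutative star ring `L`.  A *self-dual datum* on the index set `c` is
`d` with `d² = 0`, `S` with `d S = S d*`, and a contraction `[[h,m],[S',k]]` of the cone
`[[d,S],[0,-d*]]` of `S`:

* `d h + S S' + h d = 1`
* `d m + S k + h S - m d* = 0`
* `S' d = d* S'`
* `S' S - d* k - k d* = 1`.
-/

open Matrix

namespace Pool.Agent.PD4.Alg

variable {L : Type*} [CommRing L] [StarRing L]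

/-- duality datum: `d`, `S` and a contraction of the cone of `S` -/
structure Dual (L c : Type*) [CommRing L] [StarRing L] [Fintype c] [DecidableEq c] where
  d : Matrix c c L
  S : Matrix c c L
  h : Matrix c c L
  m : Matrix c c L
  S' : Matrix c c L
  k : Matrix c c L
  dd : d * d = 0
  dS : d * S = S * dᴴ
  c1 : d * h + S * S' + h * d = 1
  c2 : d * m + S * k + h * S - m * dᴴ = 0
  c3 : S' * d = dᴴ * S'
  c4 : S' * S - dᴴ * k - k * dᴴ = 1

section sym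

variable {c : Type*} [Fintype c] [DecidableEq c]

/-- replacing `S` by a chain homotopic map `S - (d V + V d*)` -/
def Dual.homot (D : Dual L c) (V : Matrix c c L) : Dual L c where
  d := D.d
  S := D.S - (D.d * V + V * D.dᴴ)
  h := D.h + V * D.S'
  m := D.m + V * D.k - D.h * V - V * D.S' * V
  S' := D.S'
  k := D.k - D.S' * V
  dd := D.dd
  dS := by
    have h1 : D.d * (D.d * V) = 0 := by rw [← Matrix.mul_assoc, D.dd, Matrix.zero_mul]
    have h2 : V * D.dᴴ * D.dᴴ = 0 := by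
      rw [Matrix.mul_assoc, ← conjTranspose_mul, D.dd, conjTranspose_zero, Matrix.mul_zero]
    rw [Matrix.mul_sub, Matrix.sub_mul, Matrix.mul_add, Matrix.add_mul, D.dS, h1, h2,
      Matrix.mul_assoc]
    abel
  c1 := by
    have h := D.c1
    have e : D.d * (D.h + V * D.S') + (D.S - (D.d * V + V * D.dᴴ)) * D.S'
        + (D.h + V * D.S') * D.d
        = (D.d * D.h + D.S * D.S' + D.h * D.d) + V * (D.S' * D.d - D.dᴴ * D.S') := by
      noncomm_ring
    rw [e, h, D.c3, sub_self, Matrix.mul_zero, add_zero]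
  c2 := by
    have e : D.d * (D.m + V * D.k - D.h * V - V * D.S' * V)
        + (D.S - (D.d * V + V * D.dᴴ)) * (D.k - D.S' * V)
        + (D.h + V * D.S') * (D.S - (D.d * V + V * D.dᴴ))
        - (D.m + V * D.k - D.h * V - V * D.S' * V) * D.dᴴ
        = (D.d * D.m + D.S * D.k + D.h * D.S - D.m * D.dᴴ)
          - (D.d * D.h + D.S * D.S' + D.h * D.d) * V
          + V * (D.S' * D.S - D.dᴴ * D.k - D.k * D.dᴴ)
          - V * (D.S' * D.d - D.dᴴ * D.S') * V := by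
      noncomm_ring
    rw [e, D.c2, D.c1, D.c4, D.c3, sub_self, Matrix.mul_zero, Matrix.zero_mul, Matrix.mul_one,
      Matrix.one_mul]
    abel
  c3 := D.c3
  c4 := by
    have e : D.S' * (D.S - (D.d * V + V * D.dᴴ)) - D.dᴴ * (D.k - D.S' * V)
        - (D.k - D.S' * V) * D.dᴴ
        = (D.S' * D.S - D.dᴴ * D.k - D.k * D.dᴴ) - (D.S' * D.d - D.dᴴ * D.S') * V := by
      noncomm_ring
    rw [e, D.c4, D.c3, sub_self, Matrix.zero_mul, sub_zero]

/-- the symmetrisation: if `S - S* = d U + U d*` then `S` may be replaced by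
`(S + S*)/2 = S - (d V + V d*)`, `V = U/2`. -/
theorem Dual.homot_symm [Invertible (2 : L)] (D : Dual L c) (U : Matrix c c L)
    (hU : D.S - D.Sᴴ = D.d * U + U * D.dᴴ) :
    (D.homot ((⅟2 : L) • U)).S = (⅟2 : L) • (D.S + D.Sᴴ) ∧
      ((D.homot ((⅟2 : L) • U)).S)ᴴ = (D.homot ((⅟2 : L) • U)).S := by
  have hs : star (⅟2 : L) = ⅟2 := by
    have h : star (⅟2 : L) * 2 = 1 := by
      have := congrArg star (invOf_mul_self (2 : L))
      rwa [star_mul', star_ofNat, star_one] at this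
    calc star (⅟2 : L) = star (⅟2 : L) * (2 * ⅟2) := by rw [mul_invOf_self, mul_one]
      _ = ⅟2 := by rw [← mul_assoc, h, one_mul]
  have h1 : (D.homot ((⅟2 : L) • U)).S = (⅟2 : L) • (D.S + D.Sᴴ) := by
    change D.S - (D.d * ((⅟2 : L) • U) + ((⅟2 : L) • U) * D.dᴴ) = _
    rw [Matrix.mul_smul, Matrix.smul_mul, ← smul_add, ← hU, smul_sub, smul_add]
    have h2 : (⅟2 : L) • D.S + (⅟2 : L) • D.S = D.S := by
      rw [← add_smul, ← two_mul, mul_invOf_self, one_smul]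
    calc D.S - ((⅟2 : L) • D.S - (⅟2 : L) • D.Sᴴ)
        = ((⅟2 : L) • D.S + (⅟2 : L) • D.S) - ((⅟2 : L) • D.S - (⅟2 : L) • D.Sᴴ) := by rw [h2]
      _ = _ := by abel
  refine ⟨h1, ?_⟩
  rw [h1, conjTranspose_smul, conjTranspose_add, conjTranspose_conjTranspose, hs, add_comm]

end sym

section blocks

variable {c κ : Type*} [Fintype c] [Fintype κ]

/-- `3 × 3` block matrices on `c ⊕ (κ ⊕ κ)` -/
def b3 (a11 : Matrix c c L) (a12 a13 : Matrix c κ L) (a21 : Matrix κ c L) (a22 a23 : Matrix κ κ L)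
    (a31 : Matrix κ c L) (a32 a33 : Matrix κ κ L) : Matrix (c ⊕ (κ ⊕ κ)) (c ⊕ (κ ⊕ κ)) L :=
  fromBlocks a11 (fromCols a12 a13) (fromRows a21 a31) (fromBlocks a22 a23 a32 a33)

lemma b3_mul (a11 : Matrix c c L) (a12 a13 : Matrix c κ L) (a21 : Matrix κ c L)
    (a22 a23 : Matrix κ κ L) (a31 : Matrix κ c L) (a32 a33 : Matrix κ κ L)
    (b11 : Matrix c c L) (b12 b13 : Matrix c κ L) (b21 : Matrix κ c L)
    (b22 b23 : Matrix κ κ L) (b31 : Matrix κ c L) (b32 b33 : Matrix κ κ L) :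
    b3 a11 a12 a13 a21 a22 a23 a31 a32 a33 * b3 b11 b12 b13 b21 b22 b23 b31 b32 b33 =
      b3 (a11 * b11 + a12 * b21 + a13 * b31) (a11 * b12 + a12 * b22 + a13 * b32)
        (a11 * b13 + a12 * b23 + a13 * b33)
        (a21 * b11 + a22 * b21 + a23 * b31) (a21 * b12 + a22 * b22 + a23 * b32)
        (a21 * b13 + a22 * b23 + a23 * b33)
        (a31 * b11 + a32 * b21 + a33 * b31) (a31 * b12 + a32 * b22 + a33 * b32)
        (a31 * b13 + a32 * b23 + a33 * b33) := by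
  unfold b3
  rw [fromBlocks_multiply, fromCols_mul_fromRows, mul_fromCols, fromCols_mul_fromBlocks,
    fromRows_mul, fromBlocks_mul_fromRows, fromRows_mul_fromCols, fromBlocks_multiply,
    fromBlocks_add]
  congr 1
  · rw [add_assoc]
  · ext i j
    rcases j with j | j <;> simp [add_assoc]
  · ext i j
    rcases i with i | i <;> simp [add_assoc]
  · congr 1 <;> rw [add_assoc]

lemma b3_add (a11 : Matrix c c L) (a12 a13 : Matrix c κ L) (a21 : Matrix κ c L)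
    (a22 a23 : Matrix κ κ L) (a31 : Matrix κ c L) (a32 a33 : Matrix κ κ L)
    (b11 : Matrix c c L) (b12 b13 : Matrix c κ L) (b21 : Matrix κ c L)
    (b22 b23 : Matrix κ κ L) (b31 : Matrix κ c L) (b32 b33 : Matrix κ κ L) :
    b3 a11 a12 a13 a21 a22 a23 a31 a32 a33 + b3 b11 b12 b13 b21 b22 b23 b31 b32 b33 =
      b3 (a11 + b11) (a12 + b12) (a13 + b13) (a21 + b21) (a22 + b22) (a23 + b23)
        (a31 + b31) (a32 + b32) (a33 + b33) := by
  unfold b3
  rw [fromBlocks_add, fromBlocks_add]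
  congr 1
  · ext i j
    rcases j with j | j <;> simp
  · ext i j
    rcases i with i | i <;> simp

lemma b3_star (a11 : Matrix c c L) (a12 a13 : Matrix c κ L) (a21 : Matrix κ c L)
    (a22 a23 : Matrix κ κ L) (a31 : Matrix κ c L) (a32 a33 : Matrix κ κ L) :
    (b3 a11 a12 a13 a21 a22 a23 a31 a32 a33)ᴴ =
      b3 a11ᴴ a21ᴴ a31ᴴ a12ᴴ a22ᴴ a32ᴴ a13ᴴ a23ᴴ a33ᴴ := by
  unfold b3
  rw [fromBlocks_conjTranspose, fromBlocks_conjTranspose,
    conjTranspose_fromCols_eq_fromRows_conjTranspose,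
    conjTranspose_fromRows_eq_fromCols_conjTranspose]

lemma b3_zero : b3 (0 : Matrix c c L) (0 : Matrix c κ L) 0 0 0 0 0 0 0 = 0 := by
  unfold b3
  simp

lemma b3_one [DecidableEq c] [DecidableEq κ] :
    b3 (1 : Matrix c c L) (0 : Matrix c κ L) 0 0 1 0 0 0 1 = 1 := by
  unfold b3
  simp

end blocks

section surgery

variable {c κ : Type*} [Fintype c] [DecidableEq c] [Fintype κ] [DecidableEq κ]

/-- input of the surgery: a symmetric duality datum on `c` and `g : κ → c` with `d* g = g δ`,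
`δ² = 0`, `g* S g = 0`. -/
structure Surg (L c κ : Type*) [CommRing L] [StarRing L] [Fintype c] [DecidableEq c]
    [Fintype κ] [DecidableEq κ] extends Dual L c where
  Sh : Sᴴ = S
  g : Matrix c κ L
  δ : Matrix κ κ L
  δδ : δ * δ = 0
  dg : dᴴ * g = g * δ
  gSg : gᴴ * S * g = 0

namespace Surg

variable (D : Surg L c κ)

lemma gd : D.gᴴ * D.d = D.δᴴ * D.gᴴ := by
  have := congrArg conjTranspose D.dg
  rwa [conjTranspose_mul, conjTranspose_mul, conjTranspose_conjTranspose] at this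

/-- the differential of `T = C ⊕ K ⊕ K'` -/
def dT : Matrix (c ⊕ (κ ⊕ κ)) (c ⊕ (κ ⊕ κ)) L :=
  b3 D.d (D.S * D.g) 0 0 (-D.δ) 0 D.gᴴ 0 (-D.δᴴ)

/-- the symmetric duality map of `T` -/
def ST : Matrix (c ⊕ (κ ⊕ κ)) (c ⊕ (κ ⊕ κ)) L :=
  b3 D.S 0 0 0 0 1 0 1 0

/-- homotopy inverse of `S_T` -/
def ST' : Matrix (c ⊕ (κ ⊕ κ)) (c ⊕ (κ ⊕ κ)) L :=
  b3 D.S' (D.k * D.g) 0 (-(D.gᴴ * D.h)) (-(D.gᴴ * D.m * D.g)) 1 0 1 0

/-- the homotopy `S_T S'_T ≃ 1` -/
def hT : Matrix (c ⊕ (κ ⊕ κ)) (c ⊕ (κ ⊕ κ)) L :=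
  b3 D.h (D.m * D.g) 0 0 0 0 0 0 0

lemma dTh : D.dTᴴ = b3 D.dᴴ 0 D.g (D.gᴴ * D.S) (-D.δᴴ) 0 0 0 (-D.δ) := by
  rw [dT, b3_star]
  simp [D.Sh]

/-- `S_T` is hermitian -/
lemma STh : D.STᴴ = D.ST := by
  rw [ST, b3_star]
  simp [D.Sh]

/-- `d_T² = 0` -/
lemma dTdT : D.dT * D.dT = 0 := by
  have h1 : D.d * (D.S * D.g) = D.S * D.g * D.δ := by
    rw [← Matrix.mul_assoc, D.dS, Matrix.mul_assoc, D.dg, ← Matrix.mul_assoc]
  have h3 : D.δᴴ * D.δᴴ = 0 := by rw [← conjTranspose_mul, D.δδ, conjTranspose_zero]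
  have h4 : D.gᴴ * (D.S * D.g) = 0 := by rw [← Matrix.mul_assoc, D.gSg]
  rw [dT, b3_mul, ← b3_zero]
  congr 1 <;> simp [D.dd, D.δδ, h1, h3, h4, D.gd]

/-- `d_T S_T = S_T d_T*` -/
lemma dTST : D.dT * D.ST = D.ST * D.dTᴴ := by
  rw [D.dTh, dT, ST, b3_mul, b3_mul]
  congr 1 <;> simp [D.dS]

/-- `S_T S'_T + d_T h_T + h_T d_T = 1` -/
lemma cT1 : D.dT * D.hT + D.ST * D.ST' + D.hT * D.dT = 1 := by
  have h12 : D.d * (D.m * D.g) + D.S * (D.k * D.g) + (D.h * (D.S * D.g) + -(D.m * D.g * D.δ))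
      = 0 := by
    have e : D.d * (D.m * D.g) + D.S * (D.k * D.g) + (D.h * (D.S * D.g) + -(D.m * D.g * D.δ))
        = (D.d * D.m + D.S * D.k + D.h * D.S - D.m * D.dᴴ) * D.g := by
      rw [Matrix.mul_assoc D.m, ← D.dg]
      simp only [Matrix.sub_mul, Matrix.add_mul, Matrix.mul_assoc]
      abel
    rw [e, D.c2, Matrix.zero_mul]
  rw [dT, hT, ST, ST', b3_mul, b3_mul, b3_mul, b3_add, b3_add, ← b3_one]
  congr 1
  · simpa using D.c1
  · simpa [Matrix.mul_neg] using h12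
  all_goals simp [Matrix.mul_assoc]

/-- `S'_T d_T = d_T* S'_T` -/
lemma cT3 : D.ST' * D.dT = D.dTᴴ * D.ST' := by
  have e12 : D.S' * (D.S * D.g) - D.k * D.g * D.δ = D.dᴴ * (D.k * D.g) + D.g := by
    have e : D.S' * (D.S * D.g) - D.k * D.g * D.δ - D.dᴴ * (D.k * D.g)
        = (D.S' * D.S - D.dᴴ * D.k - D.k * D.dᴴ) * D.g := by
      rw [Matrix.mul_assoc D.k, ← D.dg]
      simp only [Matrix.sub_mul, Matrix.mul_assoc]
      abel
    rw [D.c4, Matrix.one_mul, sub_eq_iff_eq_add] at e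
    rw [e, add_comm]
  have e21 : -(D.gᴴ * D.h * D.d) + D.gᴴ = D.gᴴ * D.S * D.S' + D.δᴴ * (D.gᴴ * D.h) := by
    have e : D.gᴴ * D.S * D.S' + D.δᴴ * (D.gᴴ * D.h) + D.gᴴ * D.h * D.d
        = D.gᴴ * (D.d * D.h + D.S * D.S' + D.h * D.d) := by
      rw [← Matrix.mul_assoc D.δᴴ, ← D.gd]
      simp only [Matrix.mul_add, Matrix.mul_assoc]
      abel
    rw [D.c1, Matrix.mul_one, ← eq_sub_iff_add_eq] at e
    rw [e]; abel
  have e22 : -(D.gᴴ * D.h * (D.S * D.g)) + D.gᴴ * D.m * D.g * D.δ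
      = D.gᴴ * D.S * (D.k * D.g) + D.δᴴ * (D.gᴴ * D.m * D.g) := by
    have e : D.gᴴ * D.S * (D.k * D.g) + D.δᴴ * (D.gᴴ * D.m * D.g)
        + D.gᴴ * D.h * (D.S * D.g) - D.gᴴ * D.m * D.g * D.δ
        = D.gᴴ * (D.d * D.m + D.S * D.k + D.h * D.S - D.m * D.dᴴ) * D.g := by
      rw [Matrix.mul_assoc D.gᴴ D.m D.g, ← Matrix.mul_assoc D.δᴴ, ← D.gd,
        Matrix.mul_assoc D.gᴴ (D.m * D.g), Matrix.mul_assoc D.m D.g D.δ, ← D.dg]
      simp only [Matrix.mul_add, Matrix.add_mul, Matrix.mul_sub, Matrix.sub_mul,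
        Matrix.mul_assoc]
      abel
    rw [D.c2, Matrix.mul_zero, Matrix.zero_mul, sub_eq_zero, ← eq_sub_iff_add_eq] at e
    rw [e]; abel
  rw [D.dTh, dT, ST', b3_mul, b3_mul]
  congr 1
  · simpa using D.c3
  · simpa [Matrix.mul_neg, sub_eq_add_neg] using e12
  · simp
  · simpa using e21
  · simpa [Matrix.mul_neg, Matrix.neg_mul] using e22
  all_goals simp

end Surg

end surgery

end Pool.Agent.PD4.Alg
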