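import Pool.Agent.PD4.Alg.Hg
import Pool.Agent.PD4.Alg.TCx

/-!
# Project PD4, algebra block: contractions from exactness (owner: helper5)
-/

namespace Pool.Agent.PD4.Alg

open Matrix

section contr

variable {L c : Type*} [CommRing L] [Fintype c] [DecidableEq c]

/-- the part of degree `k` of a vector -/
def hpart (r : c → ℤ) (k : ℤ) (x : c → L) : c → L := fun i => if r i = k then x i else 0

omit [Fintype c] [DecidableEq c] in
lemma hpart_eq {r : c → ℤ} {k : ℤ} {x : c → L} (h : ∀ i, x i ≠ 0 → r i = k) :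
    hpart r k x = x := by
  funext i
  unfold hpart
  split_ifs with hi
  · rfl
  · by_contra h1
    exact hi (h i (Ne.symm h1))

omit [Fintype c] [DecidableEq c] in
lemma hpart_ne {r : c → ℤ} {k : ℤ} {x : c → L} (i : c) (h : hpart r k x i ≠ 0) : r i = k := by
  by_contra h1
  exact h (if_neg h1)

omit [DecidableEq c] in
lemma mulVec_hpart {r : c → ℤ} {k l : ℤ} {d : Matrix c c L} (hd : Hg r r l d) (x : c → L) :
    d *ᵥ hpart r k x = hpart r (k + l) (d *ᵥ x) := by
  funext i
  by_cases hi : r i = k + l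
  · rw [hpart, if_pos hi]
    change ∑ j, d i j * hpart r k x j = ∑ j, d i j * x j
    refine Finset.sum_congr rfl fun j _ => ?_
    by_cases hj : r j = k
    · rw [hpart, if_pos hj]
    · have : d i j = 0 := hd.zero' fun h => hj (by linarith)
      rw [this, zero_mul, zero_mul]
  · rw [hpart, if_neg hi]
    change ∑ j, d i j * hpart r k x j = 0
    refine Finset.sum_eq_zero fun j _ => ?_
    by_cases hj : r j = k
    · have : d i j = 0 := hd.zero' fun h => hi (by rw [h, hj])
      rw [this, zero_mul]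
    · rw [hpart, if_neg hj, mul_zero]

/-- **Graded contraction.**  A graded based complex which is exact in all degrees `≤ n` has a
contraction in degrees `≤ n`. -/
theorem exists_contraction_core (r : c → ℤ) (n : ℤ) (d : Matrix c c L) (hd : Hg r r (-1) d)
    (dd : d * d = 0)
    (ex : ∀ k ≤ n, ∀ x : c → L, (∀ i, x i ≠ 0 → r i = k) → d *ᵥ x = 0 → ∃ y : c → L, d *ᵥ y = x) :
    ∃ s : Matrix c c L, Hg r r 1 s ∧ (∀ i j, s i j ≠ 0 → r j ≤ n) ∧
      ∀ i j, r j ≤ n → (d * s + s * d) i j = (1 : Matrix c c L) i j := by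
  classical
  -- lower bound for the degrees
  obtain ⟨m, hm⟩ : ∃ m : ℤ, ∀ i, m < r i := by
    obtain ⟨B, hB⟩ := (Set.finite_range r).bddBelow
    exact ⟨B - 1, fun i => by have := hB ⟨i, rfl⟩; linarith⟩
  -- the induction
  have key : ∀ t : ℕ, m + t ≤ n → ∃ s : Matrix c c L, Hg r r 1 s ∧
      (∀ i j, s i j ≠ 0 → r j ≤ m + t) ∧
      ∀ i j, r j ≤ m + t → (d * s + s * d) i j = (1 : Matrix c c L) i j := by
    intro t
    induction t with
    | zero =>
      intro _
      refine ⟨0, Hg.zero, fun _ _ h => absurd rfl h, fun i j hj => ?_⟩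
      have := hm j
      exact absurd hj (by push_cast; linarith)
    | succ t ih =>
      intro ht
      push_cast at ht
      obtain ⟨s, hs1, hs2, hs3⟩ := ih (by linarith)
      -- columns of `d`, `s`
      have hds : ∀ j, r j = m + t + 1 →
          ∃ y : c → L, (∀ i, y i ≠ 0 → r i = m + t + 1 + 1) ∧
            d *ᵥ y = fun i => (1 : Matrix c c L) i j - (s * d) i j := by
        intro j hj
        have hx : ∀ i, (fun i => (1 : Matrix c c L) i j - (s * d) i j) i ≠ 0 →
            r i = m + t + 1 := by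
          intro i hi
          have h2 : Hg r r 0 ((1 : Matrix c c L) - s * d) :=
            Hg.one.sub ((hs1.mul hd).congr (fun _ _ h => by omega))
          have := h2 i j hi
          rw [this, hj]
          ring
        have hz : d *ᵥ (fun i => (1 : Matrix c c L) i j - (s * d) i j) = 0 := by
          have e : ∀ i, (d *ᵥ (fun i => (1 : Matrix c c L) i j - (s * d) i j)) i
              = (d * (1 - s * d)) i j := fun i => rfl
          funext i
          rw [e i]
          have e2 : d * (1 - s * d) = d - (d * s + s * d) * d := by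
            have : s * d * d = 0 := by rw [Matrix.mul_assoc, dd, Matrix.mul_zero]
            rw [Matrix.add_mul, this, Matrix.mul_sub, Matrix.mul_one, Matrix.mul_assoc]
            abel
          rw [e2, Matrix.sub_apply, Matrix.mul_apply]
          have e3 : ∑ a, (d * s + s * d) i a * d a j = ∑ a, (1 : Matrix c c L) i a * d a j := by
            refine Finset.sum_congr rfl fun a _ => ?_
            by_cases ha : r a ≤ m + t
            · rw [hs3 i a ha]
            · have : d a j = 0 := hd.zero' fun h => ha (by linarith)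
              rw [this, mul_zero, mul_zero]
          rw [e3, ← Matrix.mul_apply, Matrix.one_mul, sub_self]
          rfl
        obtain ⟨y, hy⟩ := ex (m + t + 1) (by linarith) _ hx hz
        refine ⟨hpart r (m + t + 1 + 1) y, fun i hi => hpart_ne i hi, ?_⟩
        rw [mulVec_hpart hd, hy]
        exact hpart_eq (fun i hi => by rw [hx i hi]; ring)
      choose! Y hY1 hY2 using hds
      obtain ⟨s', hs'⟩ : ∃ s' : Matrix c c L,
          ∀ i j, s' i j = if r j = m + t + 1 then Y j i else s i j :=
        ⟨Matrix.of fun i j => if r j = m + t + 1 then Y j i else s i j, fun _ _ => rfl⟩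
      refine ⟨s', ?_, ?_, ?_⟩
      · intro i j h
        rw [hs'] at h
        by_cases hj : r j = m + t + 1
        · rw [if_pos hj] at h
          rw [hY1 j hj i h, hj]
        · rw [if_neg hj] at h
          exact hs1 i j h
      · intro i j h
        rw [hs'] at h
        push_cast
        by_cases hj : r j = m + t + 1
        · linarith
        · rw [if_neg hj] at h
          have := hs2 i j h
          linarith
      · intro i j hj
        push_cast at hj
        have e1 : (s' * d) i j = (s * d) i j := by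
          rw [Matrix.mul_apply, Matrix.mul_apply]
          refine Finset.sum_congr rfl fun a _ => ?_
          by_cases ha : r a = m + t + 1
          · have : d a j = 0 := hd.zero' fun h => by linarith
            rw [this, mul_zero, mul_zero]
          · rw [hs', if_neg ha]
        rw [Matrix.add_apply, e1]
        by_cases hj2 : r j = m + t + 1
        · have e2 : (d * s') i j = (d *ᵥ Y j) i := by
            rw [Matrix.mul_apply]
            change _ = ∑ a, d i a * Y j a
            refine Finset.sum_congr rfl fun a _ => ?_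
            rw [hs', if_pos hj2]
          rw [e2, hY2 j hj2]
          ring
        · have e2 : (d * s') i j = (d * s) i j := by
            rw [Matrix.mul_apply, Matrix.mul_apply]
            refine Finset.sum_congr rfl fun a _ => ?_
            rw [hs', if_neg hj2]
          have hj3 : r j ≤ m + t := by
            have : r j < m + t + 1 := lt_of_le_of_ne (by linarith) hj2
            exact Int.lt_add_one_iff.mp this
          rw [e2, ← Matrix.add_apply, hs3 i j hj3]
  -- conclusion
  by_cases hmn : m ≤ n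
  · obtain ⟨t, ht⟩ := Int.eq_ofNat_of_zero_le (sub_nonneg.mpr hmn)
    have ht' : m + (t : ℤ) = n := by
      have : n - m = (t : ℤ) := ht
      linarith
    obtain ⟨s, h1, h2, h3⟩ := key t (le_of_eq ht')
    rw [ht'] at h2 h3
    exact ⟨s, h1, h2, h3⟩
  · refine ⟨0, Hg.zero, fun _ _ h => absurd rfl h, fun i j hj => ?_⟩
    have := hm j
    exact absurd hj (by linarith [not_le.mp hmn])

/-- an exact bounded graded based complex is contractible -/
theorem exists_contraction_all (r : c → ℤ) (d : Matrix c c L) (hd : Hg r r (-1) d)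
    (dd : d * d = 0) (ex : ∀ x : c → L, d *ᵥ x = 0 → ∃ y : c → L, d *ᵥ y = x) :
    ∃ s : Matrix c c L, Hg r r 1 s ∧ d * s + s * d = 1 := by
  obtain ⟨m, hm⟩ : ∃ m : ℤ, ∀ i, r i ≤ m := by
    obtain ⟨B, hB⟩ := (Set.finite_range r).bddAbove
    exact ⟨B, fun i => hB ⟨i, rfl⟩⟩
  obtain ⟨s, h1, -, h3⟩ := exists_contraction_core r m d hd dd (fun k _ x _ => ex x)
  exact ⟨s, h1, by ext i j; exact h3 i j (hm j)⟩

/-- A bounded complex of f.g. free modules which is exact in degrees `≤ N` has a contraction in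
degrees `≤ N`. -/
theorem exists_contraction' (deg : c → ℤ) (d : Matrix c c L) (hd : Hg deg deg (-1) d)
    (dd : d * d = 0) (N : ℤ)
    (hex : ∀ n ≤ N, ∀ x : c → L, (∀ j, x j ≠ 0 → deg j = n) → d.mulVec x = 0 →
      ∃ y : c → L, d.mulVec y = x) :
    ∃ σ : Matrix c c L, Hg deg deg 1 σ ∧ σ * pr L deg (· ≤ N) = σ ∧
      (d * σ + σ * d) * pr L deg (· ≤ N) = pr L deg (· ≤ N) ∧
      pr L deg (· ≤ N) * (d * σ + σ * d) = pr L deg (· ≤ N) := by
  obtain ⟨s, h1, h2, h3⟩ := exists_contraction_core deg N d hd dd hex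
  have hh : Hg deg deg 0 (d * s + s * d) :=
    ((hd.mul h1).congr (fun _ _ h => by omega)).add ((h1.mul hd).congr (fun _ _ h => by omega))
  have h4 : (d * s + s * d) * pr L deg (· ≤ N) = pr L deg (· ≤ N) := by
    ext i j
    rw [pr, Matrix.mul_diagonal]
    split_ifs with hj
    · rw [mul_one, h3 i j hj, Matrix.diagonal_apply, Matrix.one_apply]
      by_cases hij : i = j
      · rw [if_pos hij, if_pos hij, if_pos (hij ▸ hj)]
      · rw [if_neg hij, if_neg hij]
    · rw [mul_zero, Matrix.diagonal_apply]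
      by_cases hij : i = j
      · rw [if_pos hij, if_neg (hij ▸ hj)]
      · rw [if_neg hij]
  refine ⟨s, h1, ?_, h4, ?_⟩
  · ext i j
    rw [pr, Matrix.mul_diagonal]
    split_ifs with hj
    · rw [mul_one]
    · rw [mul_zero]
      by_contra h0
      exact hj (h2 i j (Ne.symm h0))
  · rw [hh.pr_mul (· ≤ N) (· ≤ N) (fun n => by rw [add_zero]), h4]

/-- A bounded complex of f.g. free modules which is exact in degrees `≤ N` has a contraction in
degrees `≤ N`.  (Induction on the degree; choose the columns of `σ` one degree at a time, then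
project to the homogeneous part.) -/
theorem exists_contraction (deg : c → ℤ) (d : Matrix c c L) (hd : Hg deg deg (-1) d)
    (dd : d * d = 0) (N : ℤ)
    (hex : ∀ n ≤ N, ∀ x : c → L, (∀ j, x j ≠ 0 → deg j = n) → d.mulVec x = 0 →
      ∃ y : c → L, d.mulVec y = x) :
    ∃ σ : Matrix c c L, Hg deg deg 1 σ ∧
      (d * σ + σ * d) * pr L deg (· ≤ N) = pr L deg (· ≤ N) := by
  obtain ⟨σ, h1, -, h2, -⟩ := exists_contraction' deg d hd dd N hex
  exact ⟨σ, h1, h2⟩

end contr

section cone

variable {L c c' : Type*} [CommRing L] [Fintype c] [DecidableEq c] [Fintype c'] [DecidableEq c']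

omit [DecidableEq c] [DecidableEq c'] in
/-- **the cone of a homology isomorphism is exact**: `f : (c', d') → (c, d)`, `d f = f d'`,
surjective and injective on homology; cone differential `[[d, f], [0, -d']]`. -/
theorem cone_exact (d : Matrix c c L) (d' : Matrix c' c' L) (f : Matrix c c' L)
    (hf : d * f = f * d')
    (sur : ∀ x : c → L, d *ᵥ x = 0 → ∃ y z, d' *ᵥ y = 0 ∧ f *ᵥ y + d *ᵥ z = x)
    (inj : ∀ y : c' → L, d' *ᵥ y = 0 → ∀ z, f *ᵥ y = d *ᵥ z → ∃ w, d' *ᵥ w = y)
    (x : c ⊕ c' → L) (hx : fromBlocks d f 0 (-d') *ᵥ x = 0) :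
    ∃ y, fromBlocks d f 0 (-d') *ᵥ y = x := by
  obtain ⟨x1, x2, rfl⟩ : ∃ x1 x2, x = Sum.elim x1 x2 := ⟨x ∘ Sum.inl, x ∘ Sum.inr, by simp⟩
  rw [fromBlocks_mulVec, Sum.elim_comp_inl, Sum.elim_comp_inr] at hx
  have h1 : d *ᵥ x1 + f *ᵥ x2 = 0 := by
    funext i
    have := congrFun hx (Sum.inl i)
    simpa using this
  have h2 : d' *ᵥ x2 = 0 := by
    funext i
    have := congrFun hx (Sum.inr i)
    simpa [Matrix.neg_mulVec] using this
  obtain ⟨w, hw⟩ := inj x2 h2 (-x1) (by
    rw [Matrix.mulVec_neg]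
    exact eq_neg_of_add_eq_zero_right h1)
  have h3 : d *ᵥ (x1 + f *ᵥ w) = 0 := by
    rw [Matrix.mulVec_add, Matrix.mulVec_mulVec, hf, ← Matrix.mulVec_mulVec, hw, h1]
  obtain ⟨y, z, hy, hz⟩ := sur _ h3
  refine ⟨Sum.elim z (y - w), ?_⟩
  rw [fromBlocks_mulVec, Sum.elim_comp_inl, Sum.elim_comp_inr]
  have e1 : d *ᵥ z + f *ᵥ (y - w) = x1 := by
    rw [Matrix.mulVec_sub]
    have : d *ᵥ z = x1 + f *ᵥ w - f *ᵥ y := by rw [← hz]; abel
    rw [this]
    abel
  have e2 : (0 : Matrix c' c L) *ᵥ z + (-d') *ᵥ (y - w) = x2 := by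
    rw [Matrix.zero_mulVec, zero_add, Matrix.neg_mulVec, Matrix.mulVec_sub, hy, hw]
    abel
  rw [e1, e2]

end cone

section dual

variable {R J : Type*} [CommRing R] [Fintype J] [DecidableEq J]

/-- gradings of a duality datum -/
structure Dual.Graded [StarRing R] (D : Dual R J) (deg : J → ℤ) : Prop where
  hd : Hg deg deg (-1) D.d
  hS : Hg deg (fun i => 4 - deg i) 0 D.S
  hh : Hg deg deg 1 D.h
  hm : Hg deg (fun i => 6 - deg i) 0 D.m
  hS' : Hg deg (fun i => 4 - deg i) 0 D.S'
  hk : Hg deg deg (-1) D.k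

/-- degrees of the cone of the duality map: `C_n ⊕ C^(5-n)` -/
def coneDeg (r : J → ℤ) : J ⊕ J → ℤ := Sum.elim r fun i => 5 - r i

omit [Fintype J] [DecidableEq J] in
lemma hg_cone [StarRing R] {r : J → ℤ} {d S : Matrix J J R} (hd : Hg r r (-1) d)
    (hS : Hg r (fun i => 4 - r i) 0 S) :
    Hg (coneDeg r) (coneDeg r) (-1) (fromBlocks d S 0 (-dᴴ)) := by
  intro i j h
  rcases i with i | i <;> rcases j with j | j
  · exact hd i j h
  · have := hS i j h
    simp only [coneDeg, Sum.elim_inl, Sum.elim_inr] at *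
    omega
  · exact absurd rfl h
  · have := (hd.neg.conjTranspose) i j (by simpa using h)
    simp only [coneDeg, Sum.elim_inr] at *
    omega

/-- Poincare duality (the duality map `S : (C*, dᴴ) → (C, d)` induces isomorphisms in homology)
gives a contraction of the cone, i.e. a `Dual` datum.  (The cone is `[[d, S], [0, -dᴴ]]` on
`J ⊕ J`, graded by `deg j`, `5 - deg j`; it is exact by `hsurj`, `hinj`.) -/
theorem exists_dual [StarRing R] (deg : J → ℤ) (d S : Matrix J J R)
    (hd : Hg deg deg (-1) d) (hS : Hg deg (fun i => 4 - deg i) 0 S)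
    (dd : d * d = 0) (hdS : d * S = S * dᴴ)
    (hsurj : ∀ y : J → R, d.mulVec y = 0 → ∃ c x : J → R, dᴴ.mulVec c = 0 ∧
      y = S.mulVec c + d.mulVec x)
    (hinj : ∀ c x : J → R, dᴴ.mulVec c = 0 → S.mulVec c = d.mulVec x →
      ∃ b : J → R, c = dᴴ.mulVec b) :
    ∃ D : Dual R J, D.d = d ∧ D.S = S ∧ D.Graded deg := by
  have dd' : dᴴ * dᴴ = 0 := by rw [← conjTranspose_mul, dd, conjTranspose_zero]
  have h0 : fromBlocks d S 0 (-dᴴ) * fromBlocks d S 0 (-dᴴ) = 0 := by
    rw [fromBlocks_multiply]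
    simp [dd, dd', hdS]
  obtain ⟨s, hs1, hs2⟩ := exists_contraction_all (coneDeg deg) (fromBlocks d S 0 (-dᴴ))
    (hg_cone hd hS) h0 (cone_exact d dᴴ S hdS
      (fun x hx => by
        obtain ⟨c, z, h1, h2⟩ := hsurj x hx
        exact ⟨c, z, h1, h2.symm⟩)
      (fun y hy z hz => by
        obtain ⟨b, hb⟩ := hinj y z hy hz
        exact ⟨b, hb.symm⟩))
  have hb : s = fromBlocks s.toBlocks₁₁ s.toBlocks₁₂ s.toBlocks₂₁ s.toBlocks₂₂ :=
    (fromBlocks_toBlocks s).symm
  rw [hb, fromBlocks_multiply, fromBlocks_multiply, fromBlocks_add, ← fromBlocks_one,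
    fromBlocks_inj] at hs2
  obtain ⟨a1, a2, a3, a4⟩ := hs2
  refine ⟨⟨d, S, s.toBlocks₁₁, s.toBlocks₁₂, s.toBlocks₂₁, s.toBlocks₂₂, dd, hdS, ?_, ?_, ?_, ?_⟩,
    rfl, rfl, ⟨hd, hS, ?_, ?_, ?_, ?_⟩⟩
  · rw [← a1]
    simp
  · rw [← a2]
    simp [sub_eq_add_neg, add_assoc]
  · have : -(dᴴ * s.toBlocks₂₁) + s.toBlocks₂₁ * d = 0 := by simpa using a3
    exact (neg_add_eq_zero.mp this).symm
  · rw [← a4]
    simp [sub_eq_add_neg]
    abel
  · intro i j h
    exact hs1 (Sum.inl i) (Sum.inl j) h
  · intro i j h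
    have := hs1 (Sum.inl i) (Sum.inr j) h
    simp only [coneDeg, Sum.elim_inl, Sum.elim_inr] at *
    omega
  · intro i j h
    have := hs1 (Sum.inr i) (Sum.inl j) h
    simp only [coneDeg, Sum.elim_inl, Sum.elim_inr] at *
    omega
  · intro i j h
    have := hs1 (Sum.inr i) (Sum.inr j) h
    simp only [coneDeg, Sum.elim_inr] at *
    omega

end dual

end Pool.Agent.PD4.Alg
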