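import Mathlib

/-!
# Project PD4, algebra block: the real kernel of an integer matrix is spanned by integer kernel
vectors (owner: helper87)

`int_kernel_spans` is the statement itself, `spans_real` the form used for `PDData.Spans`: if every
integer cocycle supported on `P` has a nonzero multiple which is a combination of the `c k` and a
coboundary, then every real cocycle supported on `P` is a combination of the `c k` and a
coboundary.
-/

namespace Pool.Agent.PD4.Alg

open Matrix

/-- Every real vector is a real combination of finitely many integer vectors which satisfy all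
the integer linear relations of the vector. -/
theorem exists_int_decomp {I : Type*} [Fintype I] (z : I → ℝ) :
    ∃ (s : Finset ℕ) (β : ℕ → ℝ) (w : ℕ → I → ℤ),
      (z = ∑ j ∈ s, β j • fun i => ((w j i : ℤ) : ℝ)) ∧
      ∀ a : I → ℤ, ∑ i, (a i : ℝ) * z i = 0 → ∀ j ∈ s, ∑ i, a i * w j i = 0 := by
  classical
  let b := Module.Basis.ofVectorSpace ℚ ℝ
  let t : Finset (Module.Basis.ofVectorSpaceIndex ℚ ℝ) :=
    Finset.univ.biUnion fun i => (b.repr (z i)).support
  -- the rational coordinate vectors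
  let q : Module.Basis.ofVectorSpaceIndex ℚ ℝ → I → ℚ := fun j i => b.repr (z i) j
  have hz : ∀ i, z i = ∑ j ∈ t, ((q j i : ℚ) : ℝ) * b j := by
    intro i
    have h1 := b.linearCombination_repr (z i)
    rw [Finsupp.linearCombination_apply, Finsupp.sum] at h1
    rw [← h1]
    rw [Finset.sum_subset (s₂ := t)]
    · refine Finset.sum_congr rfl fun j _ => ?_
      rw [Rat.smul_def]
    · intro j hj
      exact Finset.mem_biUnion.mpr ⟨i, Finset.mem_univ _, hj⟩
    · intro j _ hj
      rw [Finsupp.notMem_support_iff] at hj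
      rw [hj, zero_smul]
  have hrel : ∀ a : I → ℤ, ∑ i, (a i : ℝ) * z i = 0 → ∀ j, ∑ i, (a i : ℚ) * q j i = 0 := by
    intro a ha j
    have h1 : b.repr (∑ i, (a i : ℝ) * z i) = 0 := by rw [ha, map_zero]
    have h2 : (∑ i, (a i : ℝ) * z i) = ∑ i, (a i : ℚ) • z i := by
      refine Finset.sum_congr rfl fun i _ => ?_
      rw [Rat.smul_def]
      push_cast
      ring
    rw [h2, map_sum] at h1
    have h3 := DFunLike.congr_fun h1 j
    simpa [Finsupp.finsetSum_apply, map_smul, smul_eq_mul] using h3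
  -- common denominators
  have hden : ∀ j, ∃ (D : ℤ) (w : I → ℤ), D ≠ 0 ∧ ∀ i, (w i : ℚ) = D * q j i := by
    intro j
    refine ⟨∏ i, ((q j i).den : ℤ), fun i => (∏ k ∈ Finset.univ.erase i, ((q j k).den : ℤ)) *
      (q j i).num, ?_, ?_⟩
    · exact Finset.prod_ne_zero_iff.mpr fun i _ => by exact_mod_cast (q j i).den_nz
    · intro i
      rw [← Finset.mul_prod_erase Finset.univ _ (Finset.mem_univ i)]
      push_cast
      have h := Rat.mul_den_eq_num (q j i)
      rw [← h]
      ring
  choose D w hD hw using hden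
  -- re-index by natural numbers
  let e := t.equivFin
  let f : ℕ → Module.Basis.ofVectorSpaceIndex ℚ ℝ := fun n =>
    if h : n < t.card then (e.symm ⟨n, h⟩ : _) else
      if h' : t.Nonempty then h'.choose else Classical.choice (by
        exact ⟨(b.index_nonempty).some⟩)
  refine ⟨Finset.range t.card, fun n => b (f n) / D (f n), fun n => w (f n), ?_, ?_⟩
  · funext i
    rw [Finset.sum_apply]
    simp only [Pi.smul_apply, smul_eq_mul]
    rw [hz i]
    have key : ∀ j, b j / (D j : ℝ) * ((w j i : ℤ) : ℝ) = ((q j i : ℚ) : ℝ) * b j := by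
      intro j
      have h1 : ((w j i : ℤ) : ℝ) = (D j : ℝ) * ((q j i : ℚ) : ℝ) := by
        have := hw j i
        exact_mod_cast congrArg (fun x : ℚ => (x : ℝ)) this
      have h2 : (D j : ℝ) ≠ 0 := by exact_mod_cast hD j
      rw [h1]
      field_simp
    simp only [key]
    rw [Finset.sum_range]
    rw [← Finset.sum_coe_sort t]
    rw [← Equiv.sum_comp e.symm]
    refine Finset.sum_congr rfl fun n _ => ?_
    have : f n = (e.symm n : _) := by
      simp only [f, n.2, dif_pos]
    rw [this]
  · intro a ha j _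
    have h1 := hrel a ha (f j)
    have h2 : ((∑ i, a i * w (f j) i : ℤ) : ℚ) = 0 := by
      push_cast
      calc ∑ i, (a i : ℚ) * (w (f j) i : ℚ) = (D (f j) : ℚ) * ∑ i, (a i : ℚ) * q (f j) i := by
            rw [Finset.mul_sum]
            refine Finset.sum_congr rfl fun i _ => ?_
            rw [hw]
            ring
        _ = 0 := by rw [h1, mul_zero]
    exact_mod_cast h2

/-- **The real kernel of an integer matrix is spanned by integer kernel vectors.** -/
theorem int_kernel_spans {I K : Type*} [Fintype I] (A : Matrix K I ℤ) (z : I → ℝ)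
    (hz : (A.map (Int.cast : ℤ → ℝ)) *ᵥ z = 0) :
    ∃ (s : Finset ℕ) (β : ℕ → ℝ) (w : ℕ → I → ℤ),
      (z = ∑ j ∈ s, β j • fun i => ((w j i : ℤ) : ℝ)) ∧
      (∀ j ∈ s, A *ᵥ w j = 0) ∧ ∀ i, z i = 0 → ∀ j ∈ s, w j i = 0 := by
  classical
  obtain ⟨s, β, w, h1, h2⟩ := exists_int_decomp z
  refine ⟨s, β, w, h1, ?_, ?_⟩
  · intro j hj
    funext k
    have := h2 (A k) (by
      have := congrFun hz k
      simpa [Matrix.mulVec, dotProduct] using this) j hj
    simpa [Matrix.mulVec, dotProduct] using this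
  · intro i hi j hj
    have := h2 (Pi.single i 1) (by
      rw [Finset.sum_eq_single i]
      · simp [hi]
      · intro k _ hk; simp [Pi.single_eq_of_ne hk]
      · intro h; exact absurd (Finset.mem_univ _) h) j hj
    rw [Finset.sum_eq_single i] at this
    · simpa using this
    · intro k _ hk; simp [Pi.single_eq_of_ne hk]
    · intro h; exact absurd (Finset.mem_univ _) h

/-- Rational spanning by the classes `c k` and coboundaries for integer cocycles supported on `P`
implies real spanning for real cocycles supported on `P`. -/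
theorem spans_real {I K : Type*} [Fintype I] [Fintype K] (A B : Matrix I I ℤ)
    (P : I → Prop) (c : K → I → ℤ)
    (h : ∀ z : I → ℤ, (∀ i, z i ≠ 0 → P i) → A *ᵥ z = 0 →
      ∃ m : ℤ, m ≠ 0 ∧ ∃ (α : K → ℤ) (x : I → ℤ), m • z = ∑ k, α k • c k + B *ᵥ x)
    (z : I → ℝ) (hP : ∀ i, z i ≠ 0 → P i) (hz : (A.map (Int.cast : ℤ → ℝ)) *ᵥ z = 0) :
    ∃ (α : K → ℝ) (x : I → ℝ),
      z = ∑ k, α k • (fun i => ((c k i : ℤ) : ℝ)) + (B.map (Int.cast : ℤ → ℝ)) *ᵥ x := by
  classical
  obtain ⟨s, β, w, h1, h2, h3⟩ := int_kernel_spans A z hz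
  have h4 : ∀ j ∈ s, ∃ m : ℤ, m ≠ 0 ∧ ∃ (α : K → ℤ) (x : I → ℤ),
      m • w j = ∑ k, α k • c k + B *ᵥ x := by
    intro j hj
    refine h (w j) ?_ (h2 j hj)
    intro i hi
    by_contra hPi
    have : z i = 0 := by
      by_contra hzi
      exact hPi (hP i hzi)
    exact hi (h3 i this j hj)
  choose! m hm α x hx using h4
  refine ⟨fun k => ∑ j ∈ s, β j / m j * (α j k : ℝ),
    fun i => ∑ j ∈ s, β j / m j * (x j i : ℝ), ?_⟩
  funext i
  have h5 : ∀ j ∈ s, ((w j i : ℤ) : ℝ) =
      (1 / (m j : ℝ)) * (∑ k, (α j k : ℝ) * (c k i : ℝ) + ∑ l, (B i l : ℝ) * (x j l : ℝ)) := by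
    intro j hj
    have h6 := congrFun (hx j hj) i
    simp only [Pi.smul_apply, smul_eq_mul, Pi.add_apply, Finset.sum_apply, Matrix.mulVec,
      dotProduct] at h6
    have h7 : (m j : ℝ) * ((w j i : ℤ) : ℝ) =
        ∑ k, (α j k : ℝ) * (c k i : ℝ) + ∑ l, (B i l : ℝ) * (x j l : ℝ) := by
      exact_mod_cast h6
    have h8 : (m j : ℝ) ≠ 0 := by exact_mod_cast hm j hj
    rw [← h7]
    field_simp
  conv_lhs => rw [h1]
  simp only [Finset.sum_apply, Pi.smul_apply, smul_eq_mul, Pi.add_apply, Matrix.mulVec,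
    dotProduct, Matrix.map_apply]
  rw [Finset.sum_congr rfl fun j hj => by rw [h5 j hj]]
  simp only [Finset.sum_mul, Finset.mul_sum]
  rw [Finset.sum_comm (s := Finset.univ) (t := s), Finset.sum_comm (s := Finset.univ) (t := s),
    ← Finset.sum_add_distrib]
  refine Finset.sum_congr rfl fun j _ => ?_
  rw [mul_add, mul_add, Finset.mul_sum, Finset.mul_sum, Finset.mul_sum, Finset.mul_sum]
  congr 1
  · refine Finset.sum_congr rfl fun k _ => ?_
    ring
  · refine Finset.sum_congr rfl fun k _ => ?_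
    ring

end Pool.Agent.PD4.Alg
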