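import Pool.Agent.PD4.Cert2

/-!
# The Gram matrix of the 28 classes `x_i x_j`, `i < j`, is nondegenerate (owner: helper87)
-/

namespace Pool.Agent.PD4

open Pool.Agent.H74

/-- the 28 pairs `i < j` -/
noncomputable def prE : Fin 28 ≃ {p : Fin 8 × Fin 8 // p.1 < p.2} :=
  Equiv.ofBijective (fun p => ⟨TorusE8.prs p, TorusE8.prs_lt p⟩)
    ⟨fun p q h => prs_inj p q (congrArg Subtype.val h), fun ⟨(i, j), h⟩ => by
      obtain ⟨p, hp⟩ := prs_surj i j h
      exact ⟨p, Subtype.ext hp⟩⟩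

theorem card_pairs : Fintype.card {p : Fin 8 × Fin 8 // p.1 < p.2} = 28 := by
  rw [← Fintype.card_congr prE, Fintype.card_fin]

theorem omC_gram_det : (Matrix.of fun k l : {p : Fin 8 × Fin 8 // p.1 < p.2} =>
    omC k.1.1 k.1.2 l.1.1 l.1.2).det ≠ 0 := by
  have h1 : (Matrix.of fun k l : {p : Fin 8 × Fin 8 // p.1 < p.2} =>
      omC k.1.1 k.1.2 l.1.1 l.1.2).submatrix prE prE =
      (Matrix.of fun p q => TorusE8.G p q : Matrix (Fin 28) (Fin 28) ℤ) := by
    ext p q
    exact omC_prs p q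
  rw [← Matrix.det_submatrix_equiv_self prE, h1]
  have h2 : (Matrix.of fun p q => TorusE8.G p q : Matrix (Fin 28) (Fin 28) ℤ) *
      Matrix.of (fun p q => GI p q) = 1 := by
    ext p q
    rw [Matrix.mul_apply, Matrix.one_apply]
    exact cG p q
  intro h0
  have h3 := congrArg Matrix.det h2
  rw [Matrix.det_mul, h0, zero_mul, Matrix.det_one] at h3
  exact absurd h3 (by norm_num)

end Pool.Agent.PD4
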