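import Pool.Agent.PD4.Alg.Contr
import Pool.Agent.PD4.Alg.Ring

/-!
# Project PD4, algebra block: the deformation retraction onto degree two (owner: helper4)

`C` graded by `deg`, duality `S : C^(4-k) → C_k` with homotopy inverse `S'`, `τ` a contraction in
degrees `≤ 1`.  Then `σ = S τ* S' + h` is a contraction in degrees `≥ 3`; together they give
a strong deformation retraction onto a part `e` of degree `2`.
-/

namespace Pool.Agent.PD4.Alg

open Matrix

variable {L J : Type*} [CommRing L] [StarRing L] [Fintype J] [DecidableEq J]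

theorem pr_mul_pr (deg : J → ℤ) (P Q : ℤ → Prop) [DecidablePred P] [DecidablePred Q]
    (h : ∀ n, P n → Q n) : pr L deg P * pr L deg Q = pr L deg P := by
  simp only [pr, Matrix.diagonal_mul_diagonal]
  congr 1
  funext i
  by_cases h1 : P (deg i)
  · rw [if_pos h1, if_pos (h _ h1), one_mul]
  · rw [if_neg h1, zero_mul]

theorem pr_mul_pr' (deg : J → ℤ) (P Q : ℤ → Prop) [DecidablePred P] [DecidablePred Q]
    (h : ∀ n, Q n → P n) : pr L deg P * pr L deg Q = pr L deg Q := by
  simp only [pr, Matrix.diagonal_mul_diagonal]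
  congr 1
  funext i
  by_cases h1 : Q (deg i)
  · rw [if_pos h1, if_pos (h _ h1), one_mul]
  · rw [if_neg h1, mul_zero]

theorem pr_mul_pr_disj (deg : J → ℤ) (P Q : ℤ → Prop) [DecidablePred P] [DecidablePred Q]
    (h : ∀ n, P n → ¬ Q n) : pr L deg P * pr L deg Q = 0 := by
  simp only [pr, Matrix.diagonal_mul_diagonal]
  rw [← Matrix.diagonal_zero]
  congr 1
  funext i
  by_cases h1 : P (deg i)
  · rw [if_pos h1, if_neg (h _ h1), mul_zero]
  · rw [if_neg h1, zero_mul]

/-- a matrix homogeneous of degree `0` which vanishes on the degrees `≠ 2` is concentrated in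
degree `2` -/
theorem Hg.eq_pr_two {deg : J → ℤ} {M : Matrix J J L} (hM : Hg deg deg 0 M)
    (h1 : M * pr L deg (· ≤ 1) = 0) (h3 : M * pr L deg (3 ≤ ·) = 0) :
    M * pr L deg (· = 2) = M ∧ pr L deg (· = 2) * M = M := by
  have h2 : M * pr L deg (· = 2) = M := by
    have e : pr L deg (· ≤ 1) + pr L deg (3 ≤ ·) + pr L deg (· = 2) = 1 := by
      ext i j
      simp only [pr, Matrix.add_apply, Matrix.diagonal_apply, Matrix.one_apply]
      by_cases h : i = j
      · simp only [h, if_true]
        rcases lt_trichotomy (deg j) 2 with h4 | h4 | h4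
        · rw [if_pos (by omega), if_neg (by omega), if_neg (by omega)]; ring
        · rw [if_neg (by omega), if_neg (by omega), if_pos (by omega)]; ring
        · rw [if_neg (by omega), if_pos (by omega), if_neg (by omega)]; ring
      · simp only [h, if_false]; ring
    calc M * pr L deg (· = 2) = M * (pr L deg (· ≤ 1) + pr L deg (3 ≤ ·) + pr L deg (· = 2)) := by
          rw [Matrix.mul_add, Matrix.mul_add, h1, h3, zero_add, zero_add]
      _ = M := by rw [e, Matrix.mul_one]
  refine ⟨h2, ?_⟩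
  have h4 := hM.pr_mul (· = 2) (· = 2) (fun n => by constructor <;> intro h <;> omega)
  rw [h4, h2]

/-- the strong deformation retraction -/
theorem exists_sdr (deg : J → ℤ) {d S S' h τ : Matrix J J L}
    (hd : Hg deg deg (-1) d) (dd : d * d = 0)
    (hS : Hg deg (fun i => 4 - deg i) 0 S) (hS' : Hg deg (fun i => 4 - deg i) 0 S')
    (hh : Hg deg deg 1 h) (hτ : Hg deg deg 1 τ)
    (dS : d * S = S * dᴴ) (S'd : S' * d = dᴴ * S') (inv : d * h + S * S' + h * d = 1)
    (low : (d * τ + τ * d) * pr L deg (· ≤ 1) = pr L deg (· ≤ 1)) :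
    ∃ s e : Matrix J J L, SDR d s e ∧ Hg deg deg 1 s ∧ Hg deg deg 0 e ∧
      e * pr L deg (· = 2) = e ∧ pr L deg (· = 2) * e = e := by
  set x : Matrix J J L := τ * pr L deg (· ≤ 1) + (S * τᴴ * S' + h) * pr L deg (2 ≤ ·) with hx
  -- homogeneity of `x`
  have hpr : ∀ (P : ℤ → Prop) [DecidablePred P], Hg deg deg 0 (pr L deg P) := by
    intro P _ i j hij
    by_contra hne
    apply hij
    rw [pr, Matrix.diagonal_apply_ne]
    rintro rfl
    exact hne (by omega)
  have hστ : Hg deg deg 1 (S * τᴴ * S') := by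
    have h1 := (hτ.conjTranspose.congr (degI' := fun i => 4 - deg i) (degJ' := fun i => 4 - deg i)
      (r' := 1) (fun i j hij => by omega))
    have h2 := hS.mul h1
    have h3 := h2.mul (hS'.congr (degI' := fun i => 4 - deg i) (degJ' := deg) (r' := 0)
      (fun i j hij => by omega))
    exact h3.congr (fun i j hij => by omega)
  have hxg : Hg deg deg 1 x := by
    rw [hx]
    exact ((hτ.mul (hpr _)).congr (fun i j hij => by omega)).add
      (((hστ.add hh).mul (hpr _)).congr (fun i j hij => by omega))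
  -- the defect
  set e₀ : Matrix J J L := 1 - d * x - x * d with he₀
  have he₀g : Hg deg deg 0 e₀ := by
    rw [he₀]
    exact (Hg.one.sub ((hd.mul hxg).congr (fun i j hij => by omega))).sub
      ((hxg.mul hd).congr (fun i j hij => by omega))
  have hlow : e₀ * pr L deg (· ≤ 1) = 0 := by
    have h1 : x * pr L deg (· ≤ 1) = τ * pr L deg (· ≤ 1) := by
      rw [hx, Matrix.add_mul, Matrix.mul_assoc, pr_mul_self, Matrix.mul_assoc,
        pr_mul_pr_disj deg (2 ≤ ·) (· ≤ 1) (fun n h1 h2 => by omega), Matrix.mul_zero, add_zero]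
    have h2 : x * d * pr L deg (· ≤ 1) = τ * d * pr L deg (· ≤ 1) := by
      have h3 := hd.pr_mul (R := L) (· ≤ 0) (· ≤ 1)
        (fun n => by constructor <;> intro h <;> omega)
      have h4 : x * pr L deg (· ≤ 0) = τ * pr L deg (· ≤ 0) := by
        rw [← pr_mul_pr' (L := L) deg (· ≤ 1) (· ≤ 0) (fun n h => by omega), ← Matrix.mul_assoc,
          h1, Matrix.mul_assoc]
      rw [Matrix.mul_assoc, ← h3, ← Matrix.mul_assoc, h4, Matrix.mul_assoc, h3,
        ← Matrix.mul_assoc]
    have h5 : e₀ * pr L deg (· ≤ 1) =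
        pr L deg (· ≤ 1) - (d * τ + τ * d) * pr L deg (· ≤ 1) := by
      rw [he₀, Matrix.sub_mul, Matrix.sub_mul, Matrix.one_mul, Matrix.mul_assoc d x, h1, h2,
        Matrix.add_mul, Matrix.mul_assoc d τ]
      abel
    rw [h5, low, sub_self]
  have hhigh : e₀ * pr L deg (3 ≤ ·) = 0 := by
    set σ : Matrix J J L := S * τᴴ * S' + h with hσ
    have h1 : ∀ (P : ℤ → Prop) [DecidablePred P], (∀ n, P n → 2 ≤ n) →
        x * pr L deg P = σ * pr L deg P := by
      intro P _ hP
      rw [hx, Matrix.add_mul, Matrix.mul_assoc,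
        pr_mul_pr_disj deg (· ≤ 1) P (fun n h1 h2 => by have := hP n h2; omega),
        Matrix.mul_zero, zero_add, Matrix.mul_assoc, pr_mul_pr' deg (2 ≤ ·) P hP]
    have h2 : x * d * pr L deg (3 ≤ ·) = σ * d * pr L deg (3 ≤ ·) := by
      have h3 := hd.pr_mul (R := L) (2 ≤ ·) (3 ≤ ·)
        (fun n => by constructor <;> intro h <;> omega)
      rw [Matrix.mul_assoc, ← h3, ← Matrix.mul_assoc, h1 (2 ≤ ·) (fun n h => h),
        Matrix.mul_assoc, h3, ← Matrix.mul_assoc]
    have low' : (dᴴ * τᴴ + τᴴ * dᴴ) * pr L deg (· ≤ 1) = pr L deg (· ≤ 1) := by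
      have h3 : Hg deg deg 0 (d * τ + τ * d) :=
        ((hd.mul hτ).congr (fun i j hij => by omega)).add
          ((hτ.mul hd).congr (fun i j hij => by omega))
      have h4 := h3.pr_mul (R := L) (· ≤ 1) (· ≤ 1)
        (fun n => by constructor <;> intro h <;> omega)
      rw [low] at h4
      have h5 := congrArg conjTranspose h4
      rw [conjTranspose_mul, pr_conjTranspose, conjTranspose_add, conjTranspose_mul,
        conjTranspose_mul] at h5
      rw [add_comm, h5]
    have h4 : (d * σ + σ * d) * pr L deg (3 ≤ ·) = pr L deg (3 ≤ ·) := by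
      have h5 := hS'.pr_mul (R := L) (· ≤ 1) (· ≤ 1)
        (fun n => by constructor <;> intro h <;> omega)
      have h6 : pr L (fun i => 4 - deg i) (· ≤ 1) = pr L deg (3 ≤ ·) := by
        unfold pr
        congr 1
        funext i
        by_cases h7 : (3 : ℤ) ≤ deg i
        · rw [if_pos (show 4 - deg i ≤ 1 by omega), if_pos h7]
        · rw [if_neg (show ¬ (4 - deg i ≤ 1) by omega), if_neg h7]
      rw [h6] at h5
      have h7 : d * σ + σ * d = S * (dᴴ * τᴴ + τᴴ * dᴴ) * S' + (1 - S * S') := by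
        have h8 : 1 - S * S' = d * h + h * d := by rw [← inv]; abel
        rw [h8, hσ]
        have h9 : d * (S * τᴴ * S' + h) = S * (dᴴ * τᴴ) * S' + d * h := by
          rw [Matrix.mul_add, ← Matrix.mul_assoc, ← Matrix.mul_assoc, dS]
          simp only [Matrix.mul_assoc]
        have h10 : (S * τᴴ * S' + h) * d = S * (τᴴ * dᴴ) * S' + h * d := by
          rw [Matrix.add_mul, Matrix.mul_assoc (S * τᴴ), S'd]
          simp only [Matrix.mul_assoc]
        rw [h9, h10, Matrix.mul_add S, Matrix.add_mul]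
        abel
      rw [h7, Matrix.add_mul, Matrix.mul_assoc (S * (dᴴ * τᴴ + τᴴ * dᴴ)), ← h5,
        ← Matrix.mul_assoc, Matrix.mul_assoc S, low', Matrix.sub_mul, Matrix.one_mul,
        Matrix.mul_assoc S (pr L deg (· ≤ 1)), h5, ← Matrix.mul_assoc]
      abel
    have h5 : e₀ * pr L deg (3 ≤ ·) =
        pr L deg (3 ≤ ·) - (d * σ + σ * d) * pr L deg (3 ≤ ·) := by
      rw [he₀, Matrix.sub_mul, Matrix.sub_mul, Matrix.one_mul, Matrix.mul_assoc d x,
        h1 (3 ≤ ·) (fun n h => by omega), h2, Matrix.add_mul (d * σ), Matrix.mul_assoc d σ]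
      abel
    rw [h5, h4, sub_self]
  obtain ⟨hr, hl⟩ := he₀g.eq_pr_two hlow hhigh
  -- `d e₀ = e₀ d = 0`
  have hde : d * e₀ = e₀ * d := by
    rw [he₀, Matrix.mul_sub, Matrix.mul_sub, Matrix.sub_mul, Matrix.sub_mul, Matrix.mul_one,
      Matrix.one_mul, ← Matrix.mul_assoc, dd, Matrix.zero_mul, Matrix.mul_assoc x d d, dd,
      Matrix.mul_zero, Matrix.mul_assoc]
    abel
  have hde0 : d * e₀ = 0 := by
    have h1 := hd.pr_mul (R := L) (· = 1) (· = 2)
      (fun n => by constructor <;> intro h <;> omega)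
    have h2 : d * e₀ = pr L deg (· = 1) * (d * e₀) := by
      rw [← Matrix.mul_assoc, h1, Matrix.mul_assoc, hl]
    have h3 : pr L deg (· = 1) * (e₀ * d) = 0 := by
      rw [← hl, Matrix.mul_assoc, ← Matrix.mul_assoc,
        pr_mul_pr_disj deg (· = 1) (· = 2) (fun n h1 h2 => by omega), Matrix.zero_mul]
    rw [h2, hde, h3]
  have hdxd : d * x * d = d := by
    have h1 : d * e₀ = d - d * x * d := by
      rw [he₀, Matrix.mul_sub, Matrix.mul_sub, Matrix.mul_one, ← Matrix.mul_assoc, dd,
        Matrix.zero_mul, Matrix.mul_assoc]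
      abel
    rw [hde0] at h1
    exact (sub_eq_zero.1 h1.symm).symm
  refine ⟨_, _, sdr_of_contr dd hdxd, ?_, ?_, ?_, ?_⟩
  · have h1 : Hg deg deg 1 (x - d * x * x) :=
      hxg.sub (((hd.mul hxg).mul hxg).congr (fun i j hij => by omega))
    exact ((h1.mul hd).mul hxg).congr (fun i j hij => by omega)
  · exact (he₀g.mul he₀g).congr (fun i j hij => by omega)
  · rw [← he₀, Matrix.mul_assoc, hr]
  · rw [← he₀, ← Matrix.mul_assoc, hl]

/-- A symmetric self-dual complex over a commutative star ring, exact in degrees `≤ 1`, has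
homology only in degree `2`: there are `s, e` with all side conditions, `e` in degree `2`.
(`τ` from `exists_contraction` with `N = 1`; `x = τ pr(≤1) + (S τ* S' + h) pr(≥2)`,
`d x d = d`; `sdr_of_contr`.) -/
theorem exists_split {R : Type*} [CommRing R] [StarRing R] {J : Type*} [Fintype J]
    [DecidableEq J] (deg : J → ℤ) (d S S' h : Matrix J J R)
    (hgd : Hg deg deg (-1) d) (hgS : Hg deg (fun j => 4 - deg j) 0 S)
    (hgS' : Hg deg (fun j => 4 - deg j) 0 S') (hgh : Hg deg deg 1 h)
    (dd : d * d = 0) (hS : Sᴴ = S) (hdS : d * S = S * dᴴ) (hS' : S' * d = dᴴ * S')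
    (hinv : S * S' + d * h + h * d = 1)
    (hlow : ∀ m ≤ 1, ∀ x : J → R, (∀ j, x j ≠ 0 → deg j = m) → d *ᵥ x = 0 →
      ∃ y : J → R, d *ᵥ y = x) :
    ∃ s e : Matrix J J R, SDR d s e ∧ Hg deg deg 1 s ∧ Hg deg deg 0 e ∧
      e * pr R deg (· = 2) = e ∧ pr R deg (· = 2) * e = e := by
  obtain ⟨τ, hτ, low⟩ := exists_contraction deg d hgd dd 1 hlow
  refine exists_sdr deg hgd dd hgS hgS' hgh hτ hdS hS' ?_ low
  rw [← hinv]
  abel

/-- the projection to even degrees satisfies the conditions `Par` -/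
theorem par_even {R : Type*} [CommRing R] [StarRing R] {J : Type*} [Fintype J]
    [DecidableEq J] (deg : J → ℤ) (d s e : Matrix J J R)
    (hgd : Hg deg deg (-1) d) (hgs : Hg deg deg 1 s)
    (he : e * pr R deg (· = 2) = e) (he' : pr R deg (· = 2) * e = e) :
    Par d s e (pr R deg Even) := by
  have hodd : pr R deg Even + pr R deg Odd = 1 :=
    pr_add_compl deg _ _ (fun n => (Int.not_even_iff_odd).symm)
  have h2 : pr R deg Odd = 1 - pr R deg Even := by rw [← hodd]; abel
  constructor
  · exact pr_mul_self _ _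
  · rw [star_eq_conjTranspose, pr_conjTranspose]
  · have h1 := hgd.pr_mul (R := R) Odd Even
      (fun n => by rw [← Int.not_even_iff_odd]; constructor <;> intro h <;> grind)
    rw [← h1, h2, Matrix.sub_mul, Matrix.one_mul]
  · have h1 := hgs.pr_mul (R := R) Odd Even
      (fun n => by rw [← Int.not_even_iff_odd]; constructor <;> intro h <;> grind)
    rw [← h1, h2, Matrix.sub_mul, Matrix.one_mul]
  · rw [← he, Matrix.mul_assoc, pr_mul_pr deg (· = 2) Even
      (fun n h => by subst h; exact even_two)]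
  · rw [← he', ← Matrix.mul_assoc, pr_mul_pr' deg Even (· = 2)
      (fun n h => by subst h; exact even_two)]

end Pool.Agent.PD4.Alg
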