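import Pool.Agent.PD4.Alg.Surg
import Pool.Agent.PD4.Alg.Split

/-!
# Project PD4, algebra block: the hermitian matrix `H` and the matrix `a` (owner: helper11)
-/

namespace Pool.Agent.PD4.Alg

open Matrix LauR

variable {R : Type} [CommRing R] {n : ℕ} {I : Type} [Fintype I] [DecidableEq I]

/-- the surgered complex with its retraction onto degree two -/
structure TData (X : PDData R n I) (hs : X.D.Sᴴ = X.D.S) where
  s : Matrix (PDData.J n I) (PDData.J n I) (LauR R n)
  e : Matrix (PDData.J n I) (PDData.J n I) (LauR R n)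
  sdr : SDR (X.surg hs).dT s e
  hgs : Hg X.degT X.degT 1 s
  hge : Hg X.degT X.degT 0 e
  he : e * pr (LauR R n) X.degT (· = 2) = e
  he' : pr (LauR R n) X.degT (· = 2) * e = e

theorem exists_TData (X : PDData R n I) (hs : X.D.Sᴴ = X.D.S) : Nonempty (TData X hs) := by
  obtain ⟨s, e, h1, h2, h3, h4, h5⟩ := exists_split X.degT (X.surg hs).dT (X.surg hs).ST
    (X.surg hs).ST' (X.surg hs).hT (X.hg_dT hs) (X.hg_ST hs) (X.hg_ST' hs) (X.hg_hT hs)
    (X.surg hs).dTdT (X.surg hs).STh (X.surg hs).dTST (X.surg hs).cT3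
    (by rw [← (X.surg hs).cT1]; abel) (fun m hm x hx h0 => X.T_low hs m hm x hx h0)
  exact ⟨⟨s, e, h1, h2, h3, h4, h5⟩⟩

/-- inclusion of the dual of `K_1` (degree two, second summand) -/
noncomputable def iot (R : Type) [CommRing R] (n : ℕ) (I : Type) [DecidableEq I] :
    Matrix (PDData.J n I) (Fin n) (LauR R n) :=
  Matrix.of fun i j => if i = Sum.inr (Sum.inl (Sum.inr j)) then 1 else 0

/-- `w_j = t_j⁻¹ - 1` -/
noncomputable def wv (R : Type) [CommRing R] (n : ℕ) : Fin n → LauR R n :=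
  fun j => star (T R j) - 1

namespace TData

variable {X : PDData R n I} {hs : X.D.Sᴴ = X.D.S} (t : TData X hs)

/-- the hermitian unimodular matrix -/
noncomputable def H : Matrix (PDData.J n I) (PDData.J n I) (LauR R n) :=
  Hm (X.surg hs).dT t.s t.e (X.surg hs).ST (pr (LauR R n) X.degT Even)

/-- its inverse -/
noncomputable def Z : Matrix (PDData.J n I) (PDData.J n I) (LauR R n) :=
  Zm (X.surg hs).dT t.s t.e (X.surg hs).ST' (pr (LauR R n) X.degT Even)

/-- the isotropic columns -/
noncomputable def a : Matrix (PDData.J n I) (Fin n) (LauR R n) := t.eᴴ * iot R n I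

theorem symD : SymD (X.surg hs).dT (X.surg hs).ST (X.surg hs).ST' (X.surg hs).hT :=
  ⟨(X.surg hs).STh, (X.surg hs).dTST, (X.surg hs).cT3, by rw [← (X.surg hs).cT1]; abel⟩

theorem par : Par (X.surg hs).dT t.s t.e (pr (LauR R n) X.degT Even) :=
  par_even X.degT _ _ _ (X.hg_dT hs) t.hgs t.he t.he'

theorem H_herm : t.Hᴴ = t.H := Hm_star (X.surg hs).STh t.par.hp

theorem H_mul_Z : t.H * t.Z = 1 := Hm_mul_Zm t.sdr symD t.par

theorem Z_mul_H : t.Z * t.H = 1 := Zm_mul_Hm t.sdr symD t.par

/-- cocycles of `T` -/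
theorem iot_cocycle : (X.surg hs).dTᴴ * iot R n I = 0 := by
  ext i j
  rw [Matrix.mul_apply, Finset.sum_eq_single (Sum.inr (Sum.inl (Sum.inr j)))]
  · rw [Matrix.conjTranspose_apply]
    have h1 : (X.surg hs).dT (Sum.inr (Sum.inl (Sum.inr j))) i = 0 := by
      rcases i with i | i | i
      · rfl
      · change (-kap R n) (Sum.inr j) i = 0
        rcases i with i | i <;> simp [kap]
      · rfl
    rw [h1, star_zero, zero_mul, Matrix.zero_apply]
  · intro b _ hb
    have : iot R n I b j = 0 := by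
      unfold iot
      rw [Matrix.of_apply, if_neg hb]
    rw [this, mul_zero]
  · intro h
    exact absurd (Finset.mem_univ _) h

/-- `H = e S_T e* + (1 - e) H (1 - e*)` and `e H = e S_T e*` -/
theorem e_H : t.e * t.H = t.e * (X.surg hs).ST * t.eᴴ := by
  have hep := t.par.ep
  have hee := t.sdr.ee
  have heD : t.e * ((X.surg hs).dT + t.s) = 0 := by
    rw [Matrix.mul_add, t.sdr.ed, t.sdr.es, add_zero]
  have h1 : t.e * (pr (LauR R n) X.degT Even * ((X.surg hs).dT + t.s) *
      star ((X.surg hs).dT + t.s) * pr (LauR R n) X.degT Even) = 0 := by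
    rw [← Matrix.mul_assoc, ← Matrix.mul_assoc, ← Matrix.mul_assoc, hep, heD, Matrix.zero_mul,
      Matrix.zero_mul]
  have h2 : t.e * (1 - pr (LauR R n) X.degT Even) = 0 := by
    rw [Matrix.mul_sub, Matrix.mul_one, hep, sub_self]
  have h3 : t.e * (t.e * (X.surg hs).ST * star t.e) = t.e * (X.surg hs).ST * star t.e := by
    rw [← Matrix.mul_assoc, ← Matrix.mul_assoc, hee]
  unfold H Hm
  rw [Matrix.mul_add, Matrix.mul_add, h1, h2, h3, add_zero, add_zero, star_eq_conjTranspose]

theorem e_star : t.eᴴ = 1 - ((t.s)ᴴ * (X.surg hs).dTᴴ + (X.surg hs).dTᴴ * (t.s)ᴴ) := by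
  have h1 := congrArg conjTranspose t.sdr.hom
  rw [conjTranspose_add, conjTranspose_mul, conjTranspose_mul, conjTranspose_sub,
    conjTranspose_one] at h1
  rw [h1]
  abel

/-- the matrix `a` in the form `iot - d_T* s* iot` -/
theorem a_eq : t.a = iot R n I - (X.surg hs).dTᴴ * ((t.s)ᴴ * iot R n I) := by
  unfold a
  rw [t.e_star, Matrix.sub_mul, Matrix.one_mul, Matrix.add_mul, Matrix.mul_assoc,
    iot_cocycle (hs := hs), Matrix.mul_zero, zero_add, Matrix.mul_assoc]

theorem iot_ST : (iot R n I)ᴴ * (X.surg hs).ST * iot R n I = 0 := by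
  ext i j
  rw [Matrix.mul_apply, Finset.sum_eq_single (Sum.inr (Sum.inl (Sum.inr j)))]
  · rw [Matrix.mul_apply, Finset.sum_eq_zero]
    · rw [zero_mul, Matrix.zero_apply]
    · intro k _
      by_cases hk : k = Sum.inr (Sum.inl (Sum.inr i))
      · subst hk
        have : (X.surg hs).ST (Sum.inr (Sum.inl (Sum.inr i))) (Sum.inr (Sum.inl (Sum.inr j))) = 0 :=
          rfl
        rw [this, mul_zero]
      · have : (iot R n I)ᴴ i k = 0 := by
          rw [Matrix.conjTranspose_apply]
          unfold iot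
          rw [Matrix.of_apply, if_neg hk, star_zero]
        rw [this, zero_mul]
  · intro b _ hb
    have : iot R n I b j = 0 := by
      unfold iot
      rw [Matrix.of_apply, if_neg hb]
    rw [this, mul_zero]
  · intro h
    exact absurd (Finset.mem_univ _) h

theorem a_isotropic : t.aᴴ * t.H * t.a = 0 := by
  have h1 : t.aᴴ * t.H * t.a = t.aᴴ * (X.surg hs).ST * t.a := by
    have h2 : t.aᴴ = (iot R n I)ᴴ * t.e := by
      unfold a
      rw [conjTranspose_mul, conjTranspose_conjTranspose]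
    have h3 : t.eᴴ * t.a = t.a := by
      unfold a
      rw [← Matrix.mul_assoc, ← conjTranspose_mul, t.sdr.ee]
    rw [h2, Matrix.mul_assoc _ t.e t.H, t.e_H, Matrix.mul_assoc, Matrix.mul_assoc,
      h3, ← Matrix.mul_assoc, ← Matrix.mul_assoc]
  have h4 : t.aᴴ = (iot R n I)ᴴ - (iot R n I)ᴴ * t.s * (X.surg hs).dT := by
    rw [t.a_eq, conjTranspose_sub, conjTranspose_mul, conjTranspose_mul,
      conjTranspose_conjTranspose, conjTranspose_conjTranspose]
  have h5 : (iot R n I)ᴴ * (X.surg hs).dT = 0 := by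
    have := congrArg conjTranspose (iot_cocycle (X := X) (hs := hs))
    rwa [conjTranspose_mul, conjTranspose_conjTranspose, conjTranspose_zero] at this
  have h6 : (X.surg hs).dT * (X.surg hs).ST * t.a = 0 := by
    rw [(X.surg hs).dTST, Matrix.mul_assoc, t.a_eq, Matrix.mul_sub, iot_cocycle (hs := hs),
      ← Matrix.mul_assoc, ← conjTranspose_mul, (X.surg hs).dTdT, conjTranspose_zero,
      Matrix.zero_mul, sub_self, Matrix.mul_zero]
  have h7 : (iot R n I)ᴴ * (X.surg hs).ST * (X.surg hs).dTᴴ = 0 := by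
    rw [Matrix.mul_assoc, ← (X.surg hs).dTST, ← Matrix.mul_assoc, h5, Matrix.zero_mul]
  rw [h1, h4, Matrix.sub_mul, Matrix.sub_mul]
  have h8 : (iot R n I)ᴴ * t.s * (X.surg hs).dT * (X.surg hs).ST * t.a = 0 := by
    rw [Matrix.mul_assoc _ (X.surg hs).dT, Matrix.mul_assoc _ ((X.surg hs).dT * _), h6,
      Matrix.mul_zero]
  rw [h8, sub_zero, t.a_eq, Matrix.mul_sub, iot_ST, ← Matrix.mul_assoc, h7, Matrix.zero_mul,
    sub_self]

theorem a_w : t.a *ᵥ wv R n = 0 := by
  have h1 : iot R n I *ᵥ wv R n =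
      -((X.surg hs).dTᴴ *ᵥ Pi.single (Sum.inr (Sum.inl (Sum.inl ()))) 1) := by
    funext i
    rw [Pi.neg_apply, Matrix.mulVec_single_one, Matrix.col_apply, Matrix.conjTranspose_apply]
    have h2 : (iot R n I *ᵥ wv R n) i =
        ∑ j, (if i = Sum.inr (Sum.inl (Sum.inr j)) then (1 : LauR R n) else 0) * wv R n j := rfl
    rw [h2]
    rcases i with i | (i | i) | i
    · have h3 : (X.surg hs).dT (Sum.inr (Sum.inl (Sum.inl ()))) (Sum.inl i) = 0 := rfl
      rw [h3, star_zero, neg_zero]
      exact Finset.sum_eq_zero (fun j _ => by rw [if_neg (by simp), zero_mul])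
    · have h3 : (X.surg hs).dT (Sum.inr (Sum.inl (Sum.inl ()))) (Sum.inr (Sum.inl (Sum.inl i))) =
          0 := by
        change (-kap R n) (Sum.inl ()) (Sum.inl i) = 0
        simp [kap]
      rw [h3, star_zero, neg_zero]
      exact Finset.sum_eq_zero (fun j _ => by rw [if_neg (by simp), zero_mul])
    · have h3 : (X.surg hs).dT (Sum.inr (Sum.inl (Sum.inl ()))) (Sum.inr (Sum.inl (Sum.inr i))) =
          -(T R i - 1) := by
        change (-kap R n) (Sum.inl ()) (Sum.inr i) = -(T R i - 1)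
        simp [kap]
      rw [h3, star_neg, neg_neg, star_sub, star_one]
      rw [Finset.sum_eq_single i]
      · rw [if_pos rfl, one_mul]
        rfl
      · intro j _ hj
        rw [if_neg (by simpa using fun h => hj h.symm), zero_mul]
      · intro h
        exact absurd (Finset.mem_univ _) h
    · have h3 : (X.surg hs).dT (Sum.inr (Sum.inl (Sum.inl ()))) (Sum.inr (Sum.inr i)) = 0 := rfl
      rw [h3, star_zero, neg_zero]
      exact Finset.sum_eq_zero (fun j _ => by rw [if_neg (by simp), zero_mul])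
  unfold a
  rw [← Matrix.mulVec_mulVec, h1, Matrix.mulVec_neg, Matrix.mulVec_mulVec, ← conjTranspose_mul,
    t.sdr.de, conjTranspose_zero, Matrix.zero_mulVec, neg_zero]

theorem H_split : t.H = t.e * (X.surg hs).ST * t.eᴴ +
    (pr (LauR R n) X.degT Even * ((X.surg hs).dT + t.s) * ((X.surg hs).dT + t.s)ᴴ *
      pr (LauR R n) X.degT Even + (1 - pr (LauR R n) X.degT Even)) := by
  unfold H Hm
  rw [star_eq_conjTranspose, star_eq_conjTranspose, add_assoc]

end TData

end Pool.Agent.PD4.Alg
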