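import Mathlib

/-!
# Project PD4, algebra block: graded matrices

`Hg deg deg' r M`: the matrix `M` (rows graded by `deg`, columns by `deg'`) is homogeneous of
degree `r`.  Duality maps `S` (`deg i + deg j = 4`) are homogeneous with respect to
`deg` on rows and `4 - deg` ... i.e. `Hg deg (fun j => 4 - deg j) 0 S`.
-/

namespace Pool.Agent.PD4.Alg

open Matrix

variable {R : Type*} {I J K : Type*}

/-- `M` is homogeneous of degree `r` -/
def Hg [Zero R] (degI : I → ℤ) (degJ : J → ℤ) (r : ℤ) (M : Matrix I J R) : Prop :=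
  ∀ i j, M i j ≠ 0 → degI i = degJ j + r

theorem Hg.zero' [Zero R] {degI : I → ℤ} {degJ : J → ℤ} {r : ℤ} {M : Matrix I J R}
    (h : Hg degI degJ r M) {i : I} {j : J} (hij : degI i ≠ degJ j + r) : M i j = 0 := by
  by_contra hne
  exact hij (h i j hne)

theorem Hg.add [AddMonoid R] {degI : I → ℤ} {degJ : J → ℤ} {r : ℤ} {M N : Matrix I J R}
    (hM : Hg degI degJ r M) (hN : Hg degI degJ r N) : Hg degI degJ r (M + N) := by
  intro i j hij
  by_contra hne
  exact hij (by rw [Matrix.add_apply, hM.zero' hne, hN.zero' hne, add_zero])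

theorem Hg.neg [AddGroup R] {degI : I → ℤ} {degJ : J → ℤ} {r : ℤ} {M : Matrix I J R}
    (hM : Hg degI degJ r M) : Hg degI degJ r (-M) := by
  intro i j hij
  exact hM i j (by simpa using hij)

theorem Hg.sub [AddGroup R] {degI : I → ℤ} {degJ : J → ℤ} {r : ℤ} {M N : Matrix I J R}
    (hM : Hg degI degJ r M) (hN : Hg degI degJ r N) : Hg degI degJ r (M - N) := by
  rw [sub_eq_add_neg]
  exact hM.add hN.neg

theorem Hg.zero [Zero R] {degI : I → ℤ} {degJ : J → ℤ} {r : ℤ} :
    Hg degI degJ r (0 : Matrix I J R) := by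
  intro i j hij
  exact absurd rfl hij

theorem Hg.one [Zero R] [One R] [DecidableEq I] {degI : I → ℤ} :
    Hg degI degI 0 (1 : Matrix I I R) := by
  intro i j hij
  by_cases h : i = j
  · rw [h, add_zero]
  · exact absurd (Matrix.one_apply_ne h) hij

theorem Hg.mul [NonUnitalNonAssocSemiring R] [Fintype J] {degI : I → ℤ} {degJ : J → ℤ}
    {degK : K → ℤ} {r s : ℤ} {M : Matrix I J R} {N : Matrix J K R}
    (hM : Hg degI degJ r M) (hN : Hg degJ degK s N) : Hg degI degK (r + s) (M * N) := by
  intro i k hik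
  rw [Matrix.mul_apply] at hik
  obtain ⟨j, -, hj⟩ := Finset.exists_ne_zero_of_sum_ne_zero hik
  have h1 := hM i j (left_ne_zero_of_mul hj)
  have h2 := hN j k (right_ne_zero_of_mul hj)
  omega

theorem Hg.congr [Zero R] {degI degI' : I → ℤ} {degJ degJ' : J → ℤ} {r r' : ℤ}
    {M : Matrix I J R} (hM : Hg degI degJ r M)
    (h : ∀ i j, degI i = degJ j + r → degI' i = degJ' j + r') : Hg degI' degJ' r' M :=
  fun i j hij => h i j (hM i j hij)

theorem Hg.conjTranspose [AddMonoid R] [StarAddMonoid R] {degI : I → ℤ} {degJ : J → ℤ} {r : ℤ}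
    {M : Matrix I J R} (hM : Hg degI degJ r M) : Hg degJ degI (-r) Mᴴ := by
  intro i j hij
  have h1 : M j i ≠ 0 := by
    intro h0
    exact hij (by rw [Matrix.conjTranspose_apply, h0, star_zero])
  have h2 := hM j i h1
  omega

theorem Hg.map {R' : Type*} [Zero R] [Zero R'] {degI : I → ℤ} {degJ : J → ℤ} {r : ℤ}
    {M : Matrix I J R} (hM : Hg degI degJ r M) (f : R → R') (hf : f 0 = 0) :
    Hg degI degJ r (M.map f) := by
  intro i j hij
  refine hM i j ?_
  intro h0
  exact hij (by rw [Matrix.map_apply, h0, hf])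

/-- the projection to the degrees satisfying `P` -/
def pr (R : Type*) [Zero R] [One R] {I : Type*} [DecidableEq I] (degI : I → ℤ) (P : ℤ → Prop)
    [DecidablePred P] : Matrix I I R :=
  Matrix.diagonal fun i => if P (degI i) then 1 else 0

theorem Hg.pr_mul [Semiring R] [Fintype I] [Fintype J] [DecidableEq I] [DecidableEq J]
    {degI : I → ℤ} {degJ : J → ℤ} {r : ℤ}
    {M : Matrix I J R} (hM : Hg degI degJ r M) (P Q : ℤ → Prop) [DecidablePred P]
    [DecidablePred Q] (hPQ : ∀ n, P (n + r) ↔ Q n) : pr R degI P * M = M * pr R degJ Q := by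
  ext i j
  simp only [pr, Matrix.diagonal_mul, Matrix.mul_diagonal]
  by_cases h : M i j = 0
  · rw [h, mul_zero, zero_mul]
  · have h1 := hM i j h
    have h2 : P (degI i) ↔ Q (degJ j) := by rw [h1]; exact hPQ _
    by_cases h3 : P (degI i)
    · rw [if_pos h3, if_pos (h2.1 h3), one_mul, mul_one]
    · rw [if_neg h3, if_neg (fun h4 => h3 (h2.2 h4)), zero_mul, mul_zero]

theorem pr_conjTranspose [CommRing R] [StarRing R] [DecidableEq I] (degI : I → ℤ)
    (P : ℤ → Prop) [DecidablePred P] : (pr R degI P)ᴴ = pr R degI P := by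
  simp only [pr, Matrix.diagonal_conjTranspose]
  congr 1
  funext i
  simp only [Pi.star_apply]
  split_ifs <;> simp

theorem pr_mul_self [Semiring R] [Fintype I] [DecidableEq I] (degI : I → ℤ)
    (P : ℤ → Prop) [DecidablePred P] :
    pr R degI P * pr R degI P = pr R degI P := by
  simp only [pr, Matrix.diagonal_mul_diagonal]
  congr 1
  funext i
  split_ifs <;> simp

theorem pr_add_compl [Semiring R] [DecidableEq I] (degI : I → ℤ)
    (P Q : ℤ → Prop) [DecidablePred P] [DecidablePred Q] (hPQ : ∀ n, Q n ↔ ¬ P n) :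
    pr R degI P + pr R degI Q = 1 := by
  ext i j
  simp only [pr, Matrix.add_apply, Matrix.diagonal_apply, Matrix.one_apply]
  by_cases h : i = j
  · simp only [h, if_true]
    by_cases h1 : P (degI j)
    · rw [if_pos h1, if_neg (fun h2 => (hPQ _).1 h2 h1), add_zero]
    · rw [if_neg h1, if_pos ((hPQ _).2 h1), zero_add]
  · simp only [h, if_false, add_zero]

end Pool.Agent.PD4.Alg
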