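import Pool.Agent.PD4.Alg.Herm

/-!
# Project PD4, algebra block: the kernel of `a` away from `1` (owner: helper90)
-/

namespace Pool.Agent.PD4.Alg

open Matrix LauR

variable {R : Type} [CommRing R] {n : ℕ} {I : Type} [Fintype I] [DecidableEq I]
variable {X : PDData R n I} {hs : X.D.Sᴴ = X.D.S} (t : TData X hs)

theorem hg_iot (X : PDData R n I) : Hg X.degT (fun _ : Fin n => (2 : ℤ)) 0 (iot R n I) := by
  intro i j h
  have h1 : i = Sum.inr (Sum.inl (Sum.inr j)) := by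
    by_contra h1
    exact h (if_neg h1)
  subst h1
  rfl

/-- `iot = a + d_Tᴴ (sᴴ iot)` -/
theorem iot_eq : iot R n I = t.a + (X.surg hs).dTᴴ * (t.sᴴ * iot R n I) := by
  have h1 : t.sᴴ * (X.surg hs).dTᴴ + (X.surg hs).dTᴴ * t.sᴴ = 1 - t.eᴴ := by
    have h2 := congrArg conjTranspose t.sdr.hom
    rw [conjTranspose_add, conjTranspose_mul, conjTranspose_mul, conjTranspose_sub,
      conjTranspose_one] at h2
    exact h2
  have h3 : (t.sᴴ * (X.surg hs).dTᴴ + (X.surg hs).dTᴴ * t.sᴴ) * iot R n I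
      = iot R n I - t.a := by
    rw [h1, Matrix.sub_mul, Matrix.one_mul]
    rfl
  rw [Matrix.add_mul, Matrix.mul_assoc, TData.iot_cocycle, Matrix.mul_zero, zero_add,
    Matrix.mul_assoc] at h3
  rw [h3]
  abel

/-- `Ĝᴴ S = gᴴ - gᴴ hᴴ dᴴ - κᴴ gᴴ hᴴ` -/
theorem GhS_eq (X : PDData R n I) (hs : X.D.Sᴴ = X.D.S) :
    (X.D.S' * X.g)ᴴ * X.D.S = X.gᴴ - (X.gᴴ * X.D.hᴴ) * X.D.dᴴ -
      (kap R n)ᴴ * (X.gᴴ * X.D.hᴴ) := by
  have h1 : X.D.S * (X.D.S' * X.g) = X.g - X.D.d * (X.D.h * X.g) - X.D.h * X.g * kap R n := by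
    have h2 : X.D.S * X.D.S' = 1 - X.D.d * X.D.h - X.D.h * X.D.d := by
      rw [← X.D.c1]; abel
    rw [← Matrix.mul_assoc, h2, Matrix.sub_mul, Matrix.sub_mul, Matrix.one_mul,
      Matrix.mul_assoc X.D.h X.D.d, X.dg, ← Matrix.mul_assoc X.D.h X.g, Matrix.mul_assoc X.D.d]
  have h3 := congrArg conjTranspose h1
  simpa only [conjTranspose_sub, conjTranspose_mul, hs, Matrix.mul_assoc] using h3

/-- For a `⋆`-homomorphism `φ` to a field with `φ(t_j) ≠ 1` for some `j`, the kernel of `φ(a)` is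
spanned by `φ(w)`.

Proof: `φ(a) v = 0` gives `(0,v,0) = φ(d_T)ᴴ z` (`z = φ(s)ᴴ (0,v,0)`), in degree one
`z = (z₁, k⁰)`, so `δ z₁ = 0` and `v = G₁ᴴ z₁ - δ_K k⁰`.  From `X.hY` and `X.dg`:
`φ(w_i) (G₁ᴴ z₁)_j = φ(w_j) (G₁ᴴ z₁)_i` (`G = g - d h g - h g κ`, `δ z₁ = 0`), so
`G₁ᴴ z₁ = λ φ(w)`; and `δ_K k⁰` is a multiple of `φ(w)`. -/
theorem a_ker {F : Type} [Field F] [StarRing F] (φ : LauR R n →+* F)
    (hφ : ∀ x, φ (star x) = star (φ x)) (hne : ∃ j, φ (T R j) ≠ 1) (v : Fin n → F)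
    (hv : (t.a.map φ) *ᵥ v = 0) : ∃ c : F, v = c • (fun j => φ (wv R n j)) := by
  classical
  set Zm : Matrix (PDData.J n I) (Fin n) (LauR R n) := t.sᴴ * iot R n I with hZm
  set z : PDData.J n I → F := (Zm.map φ) *ᵥ v with hz
  have hZdeg : Hg X.degT (fun _ : Fin n => (1 : ℤ)) 0 Zm :=
    t.hgs.conjTranspose.mulc (hg_iot X) fun i j k _ _ => by omega
  have hdeg : ∀ j, z j ≠ 0 → X.degT j = 1 := by
    intro j hj
    rw [hz, Matrix.mulVec, dotProduct] at hj
    obtain ⟨k, -, hk⟩ := Finset.exists_ne_zero_of_sum_ne_zero hj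
    have h1 : Zm j k ≠ 0 := by
      intro h0
      exact left_ne_zero_of_mul hk (by rw [Matrix.map_apply, h0, map_zero])
    exact hZdeg j k h1
  have hz3 : ∀ k, z (Sum.inr (Sum.inr k)) = 0 := by
    intro k
    by_contra h
    have h1 : 3 - degK n k = 1 := hdeg _ h
    have h2 := degK_le k
    omega
  have hz2 : ∀ j, z (Sum.inr (Sum.inl (Sum.inr j))) = 0 := by
    intro j
    by_contra h
    have h1 : (1 : ℤ) + 1 = 1 := hdeg _ h
    omega
  -- the equation
  have heq : ((X.surg hs).dTᴴ.map φ) *ᵥ z = ((iot R n I).map φ) *ᵥ v := by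
    have h1 : (iot R n I).map φ = t.a.map φ + (X.surg hs).dTᴴ.map φ * Zm.map φ := by
      conv_lhs => rw [iot_eq t]
      rw [Matrix.map_add φ (map_add φ), Matrix.map_mul]
    rw [h1, Matrix.add_mulVec, hv, zero_add, ← Matrix.mulVec_mulVec]
  rw [(X.surg hs).dTh] at heq
  set x : I → F := fun i => z (Sum.inl i) with hx
  set k0 : F := z (Sum.inr (Sum.inl (Sum.inl ()))) with hk0
  have E1 : (X.D.dᴴ.map φ) *ᵥ x = 0 := by
    funext i
    have h1 := congrFun heq (Sum.inl i)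
    simp only [Matrix.mulVec, dotProduct, Fintype.sum_sum_type, Matrix.map_apply, hz2, hz3,
      mul_zero, Finset.sum_const_zero, add_zero] at h1
    have h2 : ∀ k : Fin n, φ (iot R n I (Sum.inl i) k) = 0 := fun k => by
      rw [iot, Matrix.of_apply, if_neg (by simp), map_zero]
    have h3 : ∀ k : Unit, φ (b3 (X.surg hs).dᴴ 0 (X.surg hs).g ((X.surg hs).gᴴ * (X.surg hs).S)
        (-(X.surg hs).δᴴ) 0 0 0 (-(X.surg hs).δ) (Sum.inl i) (Sum.inr (Sum.inl (Sum.inl k)))) = 0 :=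
      fun k => map_zero φ
    simp only [h2, h3, zero_mul, Finset.sum_const_zero, add_zero] at h1
    exact h1
  have E2 : ∀ j : Fin n, ((((X.D.S' * X.g)ᴴ * X.D.S).map φ) *ᵥ x) (Sum.inr j) -
      φ (wv R n j) * k0 = v j := by
    intro j
    have h1 := congrFun heq (Sum.inr (Sum.inl (Sum.inr j)))
    simp only [Matrix.mulVec, dotProduct, Fintype.sum_sum_type, Matrix.map_apply, hz2, hz3,
      mul_zero, Finset.sum_const_zero, add_zero] at h1
    have h2 : ∀ k : Fin n, φ (iot R n I (Sum.inr (Sum.inl (Sum.inr j))) k) * v k =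
        if k = j then v k else 0 := fun k => by
      rw [iot, Matrix.of_apply]
      by_cases hk : k = j
      · subst hk
        rw [if_pos rfl, if_pos rfl, map_one, one_mul]
      · rw [if_neg (by simpa using fun h => hk h.symm), if_neg hk, map_zero, zero_mul]
    have h3 : ∀ k : Unit, φ (b3 (X.surg hs).dᴴ 0 (X.surg hs).g ((X.surg hs).gᴴ * (X.surg hs).S)
        (-(X.surg hs).δᴴ) 0 0 0 (-(X.surg hs).δ) (Sum.inr (Sum.inl (Sum.inr j)))
          (Sum.inr (Sum.inl (Sum.inl k)))) = - φ (wv R n j) := by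
      intro k
      change φ (-(star (T R j - 1))) = _
      rw [map_neg, star_sub, star_one]
      rfl
    simp only [h2, h3, Finset.sum_ite_eq', Finset.mem_univ, if_true, Finset.univ_unique,
      Finset.sum_singleton] at h1
    rw [← h1, sub_eq_add_neg, neg_mul]
    rfl
  have E3 : ((((X.D.S' * X.g)ᴴ * X.D.S).map φ) *ᵥ x) = (X.gᴴ.map φ) *ᵥ x -
      ((kap R n)ᴴ.map φ) *ᵥ (((X.gᴴ * X.D.hᴴ).map φ) *ᵥ x) := by
    rw [GhS_eq X hs, Matrix.map_sub φ (map_sub φ), Matrix.map_sub φ (map_sub φ), Matrix.map_mul,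
      Matrix.map_mul (L := (kap R n)ᴴ), Matrix.sub_mulVec, Matrix.sub_mulVec,
      ← Matrix.mulVec_mulVec, E1, Matrix.mulVec_zero, sub_zero, Matrix.mulVec_mulVec]
  set y : Fin n → F := fun j => ((X.gᴴ.map φ) *ᵥ x) (Sum.inr j) with hy
  set q : F := (((X.gᴴ * X.D.hᴴ).map φ) *ᵥ x) (Sum.inl ()) with hq
  have E4 : ∀ j : Fin n, (((kap R n)ᴴ.map φ) *ᵥ (((X.gᴴ * X.D.hᴴ).map φ) *ᵥ x)) (Sum.inr j) =
      φ (wv R n j) * q := by
    intro j
    rw [Matrix.mulVec, dotProduct, Fintype.sum_sum_type]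
    have h1 : ∀ k : Fin n, (kap R n)ᴴ.map φ (Sum.inr j) (Sum.inr k) = 0 := fun k => by
      change φ (star 0) = 0
      rw [star_zero, map_zero]
    have h2 : (kap R n)ᴴ.map φ (Sum.inr j) (Sum.inl ()) = φ (wv R n j) := by
      change φ (star (T R j - 1)) = _
      rw [star_sub, star_one]
      rfl
    simp only [h1, zero_mul, Finset.sum_const_zero, add_zero, Finset.univ_unique,
      Finset.sum_singleton]
    rw [← h2]
  have E5 : ∀ i j : Fin n, φ (wv R n i) * y j = φ (wv R n j) * y i := by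
    intro i j
    have h1 : (fun a => φ (star ((X.D.d *ᵥ X.Y i j) a))) ⬝ᵥ x = 0 := by
      have h2 : (fun a => φ (star ((X.D.d *ᵥ X.Y i j) a))) =
          (fun b => φ (star (X.Y i j b))) ᵥ* (X.D.dᴴ.map φ) := by
        funext a
        simp only [Matrix.mulVec, Matrix.vecMul, dotProduct, star_sum, map_sum, Matrix.map_apply,
          Matrix.conjTranspose_apply, star_mul', map_mul]
        exact Finset.sum_congr rfl fun b _ => mul_comm _ _
      rw [h2, ← Matrix.dotProduct_mulVec, E1, dotProduct_zero]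
    rw [X.hY i j] at h1
    have h2 : ∀ k : Fin n, y k = ∑ a, φ (star (X.g a (Sum.inr k))) * x a := fun k => rfl
    have h3 : ∀ k : Fin n, φ (wv R n k) = φ (star (T R k - 1)) := fun k => by
      rw [star_sub, star_one]; rfl
    rw [← sub_eq_zero, ← h1, h2, h2, h3, h3, Finset.mul_sum, Finset.mul_sum,
      ← Finset.sum_sub_distrib, dotProduct]
    refine Finset.sum_congr rfl fun a _ => ?_
    simp only [Pi.sub_apply, Pi.smul_apply, smul_eq_mul, star_sub, star_mul', map_sub, map_mul]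
    ring
  obtain ⟨i₀, hi₀⟩ := hne
  have hw : φ (wv R n i₀) ≠ 0 := by
    intro h
    apply hi₀
    have h1 : φ (wv R n i₀) = star (φ (T R i₀)) - 1 := by
      rw [← hφ]
      exact (map_sub φ _ _).trans (by rw [map_one])
    rw [h1, sub_eq_zero] at h
    have h2 := congrArg star h
    rwa [star_star, star_one] at h2
  refine ⟨y i₀ / φ (wv R n i₀) - q - k0, ?_⟩
  funext j
  rw [← E2 j, E3, Pi.sub_apply, E4 j]
  change y j - _ - _ = _
  have h5 : y j = y i₀ / φ (wv R n i₀) * φ (wv R n j) := by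
    rw [div_mul_eq_mul_div, eq_div_iff hw, mul_comm, E5 i₀ j, mul_comm]
  rw [h5, Pi.smul_apply, smul_eq_mul]
  ring

end Pool.Agent.PD4.Alg
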