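import Pool.Agent.PD4.Alg.AtOne

/-!
# Project PD4, algebra block: positivity of `H(1)` off the image of `b` (owner: helper4)
-/

namespace Pool.Agent.PD4.Alg

open Matrix LauR

section blocks
variable {A c κ : Type*} [CommRing A] [Fintype c] [Fintype κ]

/-- the transpose of a block matrix of the shape of `d_T` at one -/
theorem Pos_b3T (a : Matrix c c A) (b : Matrix c κ A) (g : Matrix κ c A) (y : c ⊕ (κ ⊕ κ) → A) :
    (b3 a b 0 0 0 0 g 0 0)ᵀ *ᵥ y =
      Sum.elim (aᵀ *ᵥ (fun i => y (Sum.inl i)) + gᵀ *ᵥ (fun k => y (Sum.inr (Sum.inr k))))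
        (Sum.elim (bᵀ *ᵥ (fun i => y (Sum.inl i))) 0) := by
  funext i
  rcases i with i | i | i
  · simp [b3, mulVec, dotProduct, Fintype.sum_sum_type, Matrix.transpose_apply, fromBlocks]
  · simp [b3, mulVec, dotProduct, Fintype.sum_sum_type, Matrix.transpose_apply, fromBlocks]
  · simp [b3, mulVec, dotProduct, Fintype.sum_sum_type, Matrix.transpose_apply, fromBlocks]

end blocks

section ringR
variable {R : Type} [CommRing R] {n : ℕ} {I : Type} [Fintype I] [DecidableEq I]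
variable (X : PDData R n I) (hs : X.D.Sᴴ = X.D.S)

theorem Pos_kap_eps : (kap R n).map eps = 0 := by
  ext i j
  rcases i with i | i <;> rcases j with j | j <;>
    simp [kap, eps_T]

theorem Pos_dT_eps : (X.surg hs).dT.map eps =
    b3 (X.D.d.map eps) ((X.D.S * (X.D.S' * X.g)).map eps) 0 0 0 0
      ((X.D.S' * X.g).map eps)ᵀ 0 0 := by
  have h1 : ∀ i j, eps (kap R n i j) = 0 := fun i j => by
    have := congrFun (congrFun (Pos_kap_eps (R := R) (n := n)) i) j
    simpa using this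
  ext i j
  rcases i with i | i | i <;> rcases j with j | j | j
  · rfl
  · rfl
  · exact map_zero (eps : LauR R n →+* R)
  · exact map_zero (eps : LauR R n →+* R)
  · change eps ((-kap R n) i j) = 0
    rw [Matrix.neg_apply, map_neg, h1, neg_zero]
  · exact map_zero (eps : LauR R n →+* R)
  · change eps (((X.D.S' * X.g)ᴴ) i j) = eps ((X.D.S' * X.g) j i)
    rw [Matrix.conjTranspose_apply, eps_star]
  · exact map_zero (eps : LauR R n →+* R)
  · change eps ((-(kap R n)ᴴ) i j) = 0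
    rw [Matrix.neg_apply, Matrix.conjTranspose_apply, map_neg, eps_star, h1, neg_zero]

end ringR

variable {n : ℕ} {I : Type} [Fintype I] [DecidableEq I]
variable {X : PDData ℝ n I} {hs : X.D.Sᴴ = X.D.S} (t : TData X hs)

theorem Pos_DE : (X.surg hs).dT.map eps * t.e.map eps = 0 := by
  rw [← eps_matmul, t.sdr.de, Matrix.map_zero _ (map_zero _)]

theorem Pos_ED : t.e.map eps * (X.surg hs).dT.map eps = 0 := by
  rw [← eps_matmul, t.sdr.ed, Matrix.map_zero _ (map_zero _)]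

theorem Pos_EE : t.e.map eps * t.e.map eps = t.e.map eps := by
  rw [← eps_matmul, t.sdr.ee]

theorem Pos_e_deg (i j : PDData.J n I) (h : t.e i j ≠ 0) : X.degT j = 2 := by
  by_contra hne
  apply h
  have h1 := congrFun (congrFun t.he i) j
  rw [pr, Matrix.mul_diagonal, if_neg hne, mul_zero] at h1
  exact h1.symm

/-- `e(1)ᵀ` only sees degree two -/
theorem Pos_ET_deg (z : PDData.J n I → ℝ) (hz : ∀ i, z i ≠ 0 → X.degT i ≠ 2) :
    (t.e.map eps)ᵀ *ᵥ z = 0 := by
  have h0 : ∀ i j, t.e i j ≠ 0 → X.degT i = 2 := by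
    intro i j h
    by_contra hne
    apply h
    have h1 := congrFun (congrFun t.he' i) j
    rw [pr, Matrix.diagonal_mul, if_neg hne, zero_mul] at h1
    exact h1.symm
  funext i
  rw [Matrix.mulVec, dotProduct, Pi.zero_apply]
  apply Finset.sum_eq_zero
  intro j _
  by_cases h1 : z j = 0
  · rw [h1, mul_zero]
  · rw [Matrix.transpose_apply, Matrix.map_apply]
    by_cases h2 : t.e j i = 0
    · rw [h2, map_zero, zero_mul]
    · exact absurd (h0 j i h2) (hz j h1)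

/-- `e(1)ᵀ` kills the coboundaries -/
theorem Pos_ET_cob (z : PDData.J n I → ℝ) :
    (t.e.map eps)ᵀ *ᵥ (((X.surg hs).dT.map eps)ᵀ *ᵥ z) = 0 := by
  rw [Matrix.mulVec_mulVec, ← Matrix.transpose_mul, Pos_DE, Matrix.transpose_zero,
    Matrix.zero_mulVec]

/-- `e(1)ᵀ` kills `K` -/
theorem Pos_ET_K (v : KI n → ℝ) :
    (t.e.map eps)ᵀ *ᵥ (Sum.elim 0 (Sum.elim v 0) : PDData.J n I → ℝ) = 0 := by
  have h1 : (Sum.elim 0 (Sum.elim v 0) : PDData.J n I → ℝ) =
      ∑ k, v k • (Pi.single (Sum.inr (Sum.inl k)) 1 : PDData.J n I → ℝ) := by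
    funext i
    rw [Finset.sum_apply]
    rcases i with i | i | i
    · simp [Pi.single_apply]
    · simp [Pi.single_apply]
    · simp [Pi.single_apply]
  rw [h1, Matrix.mulVec_sum]
  apply Finset.sum_eq_zero
  intro k _
  rw [Matrix.mulVec_smul]
  rcases k with k | k
  · rw [Pos_ET_deg, smul_zero]
    intro i hi
    by_cases h2 : i = Sum.inr (Sum.inl (Sum.inl k))
    · subst h2
      change (0 : ℤ) + 1 ≠ 2
      norm_num
    · exact absurd (Pi.single_eq_of_ne h2 _) hi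
  · have h2 : (Pi.single (Sum.inr (Sum.inl (Sum.inr k))) 1 : PDData.J n I → ℝ) =
        ((X.surg hs).dT.map eps)ᵀ *ᵥ extT n (X.y k) := by
      rw [Pos_dT_eps, Pos_b3T]
      funext i
      rcases i with i | i | i
      · have h3 := congrFun (X.y_cocycle k) i
        simp only [Sum.elim_inl, Pi.add_apply]
        rw [Pi.single_eq_of_ne (by simp)]
        have h4 : (fun i => extT n (X.y k) (Sum.inl i)) = X.y k := rfl
        have h5 : (fun k' => extT n (X.y k) (Sum.inr (Sum.inr k'))) = (0 : KI n → ℝ) := rfl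
        rw [h4, h5, h3, Matrix.mulVec_zero]
        simp
      · have h3 := X.y_G k i
        simp only [Sum.elim_inr, Sum.elim_inl]
        have h4 : (((X.D.S * (X.D.S' * X.g)).map eps)ᵀ *ᵥ
            fun i => extT n (X.y k) (Sum.inl i)) i =
            X.y k ⬝ᵥ (fun i' => eps ((X.D.S * (X.D.S' * X.g)) i' i)) := by
          rw [Matrix.mulVec, dotProduct_comm]
          rfl
        rw [h4, h3]
        by_cases h5 : i = Sum.inr k
        · subst h5
          simp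
        · rw [if_neg h5, Pi.single_eq_of_ne (by simpa using h5)]
      · simp only [Sum.elim_inr]
        rw [Pi.single_eq_of_ne (by simp)]
        rfl
    rw [h2, Pos_ET_cob, smul_zero]

/-- every vector in the image of `e(1)ᵀ` is a combination of the `b u v`
(a cocycle `(c, v, k)` of `T` at `1` in degree two: `k = 0` by pairing `G k` with `y_v`;
`c` is a combination of the `c_uv` plus a coboundary; `(0, v, 0)` is a coboundary) -/
theorem e_span (hsp : X.Spans) (z : PDData.J n I → ℝ) :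
    ∃ α : Fin n → Fin n → ℝ, (t.e.map eps)ᵀ *ᵥ z = ∑ u, ∑ v, α u v • t.b u v := by
  set y := (t.e.map eps)ᵀ *ᵥ z with hy
  have hyE : (t.e.map eps)ᵀ *ᵥ y = y := by
    rw [hy, Matrix.mulVec_mulVec, ← Matrix.transpose_mul, Pos_EE]
  have hyD : ((X.surg hs).dT.map eps)ᵀ *ᵥ y = 0 := by
    rw [hy, Matrix.mulVec_mulVec, ← Matrix.transpose_mul, Pos_ED, Matrix.transpose_zero,
      Matrix.zero_mulVec]
  have hydeg : ∀ i, y i ≠ 0 → X.degT i = 2 := by
    intro i hi
    rw [hy, Matrix.mulVec, dotProduct] at hi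
    obtain ⟨j, -, hj⟩ := Finset.exists_ne_zero_of_sum_ne_zero hi
    have h1 := left_ne_zero_of_mul hj
    rw [Matrix.transpose_apply, Matrix.map_apply] at h1
    exact Pos_e_deg t j i (fun h => h1 (by rw [h, map_zero]))
  rw [Pos_dT_eps, Pos_b3T] at hyD
  set c : I → ℝ := fun i => y (Sum.inl i) with hc
  set k : KI n → ℝ := fun k => y (Sum.inr (Sum.inr k)) with hk
  have h1 : (X.D.d.map eps)ᵀ *ᵥ c + (((X.D.S' * X.g).map eps)ᵀ)ᵀ *ᵥ k = 0 := by
    funext i
    exact congrFun hyD (Sum.inl i)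
  rw [Matrix.transpose_transpose] at h1
  -- `k = 0`
  have hS1 : (X.D.S.map eps) * (X.D.d.map eps)ᵀ = (X.D.d.map eps) * (X.D.S.map eps) := by
    rw [← eps_conjTranspose, ← eps_matmul, ← eps_matmul, X.D.dS]
  have h2 : (X.D.d.map eps) *ᵥ ((X.D.S.map eps) *ᵥ c) +
      ((X.D.S * (X.D.S' * X.g)).map eps) *ᵥ k = 0 := by
    have e1 : (X.D.S.map eps) *ᵥ ((X.D.d.map eps)ᵀ *ᵥ c) =
        (X.D.d.map eps) *ᵥ ((X.D.S.map eps) *ᵥ c) := by
      rw [Matrix.mulVec_mulVec, hS1, ← Matrix.mulVec_mulVec]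
    have e2 : (X.D.S.map eps) *ᵥ (((X.D.S' * X.g).map eps) *ᵥ k) =
        ((X.D.S * (X.D.S' * X.g)).map eps) *ᵥ k := by
      rw [Matrix.mulVec_mulVec, ← eps_matmul]
    have h3 := congrArg (fun w => (X.D.S.map eps) *ᵥ w) h1
    simp only [Matrix.mulVec_add, Matrix.mulVec_zero] at h3
    rw [e1, e2] at h3
    exact h3
  have hk0 : k = 0 := by
    funext j
    rcases j with j | j
    · by_contra hne
      have h3 := hydeg (Sum.inr (Sum.inr (Sum.inl j))) hne
      change (3 : ℤ) - 0 = 2 at h3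
      norm_num at h3
    · have h3 := congrArg (fun w => X.y j ⬝ᵥ w) h2
      simp only [dotProduct_add, dotProduct_zero] at h3
      have h4 : X.y j ⬝ᵥ ((X.D.d.map eps) *ᵥ ((X.D.S.map eps) *ᵥ c)) = 0 := by
        rw [Matrix.dotProduct_mulVec, ← Matrix.mulVec_transpose, X.y_cocycle j,
          zero_dotProduct]
      have h5 : X.y j ⬝ᵥ (((X.D.S * (X.D.S' * X.g)).map eps) *ᵥ k) = k (Sum.inr j) := by
        rw [Matrix.dotProduct_mulVec, ← Matrix.mulVec_transpose]
        have h6 : (((X.D.S * (X.D.S' * X.g)).map eps)ᵀ *ᵥ X.y j) =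
            fun k' => if k' = Sum.inr j then (1 : ℝ) else 0 := by
          funext k'
          rw [← X.y_G j k', Matrix.mulVec, dotProduct_comm]
          rfl
        rw [h6, dotProduct]
        simp
      rw [h4, h5, zero_add] at h3
      exact h3
  rw [hk0, Matrix.mulVec_zero, add_zero] at h1
  obtain ⟨α, x, hα⟩ := hsp c (fun i hi => hydeg (Sum.inl i) hi) h1
  refine ⟨α, ?_⟩
  -- decomposition of `y`
  have hdec : y = ∑ u, ∑ v, α u v • extT n (X.c u v) +
      (((X.surg hs).dT.map eps)ᵀ *ᵥ extT n x +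
        (Sum.elim 0 (Sum.elim ((fun k => y (Sum.inr (Sum.inl k))) -
          ((X.D.S * (X.D.S' * X.g)).map eps)ᵀ *ᵥ x) 0) : PDData.J n I → ℝ)) := by
    rw [Pos_dT_eps, Pos_b3T]
    funext i
    rw [Pi.add_apply, Finset.sum_apply]
    simp only [Finset.sum_apply, Pi.smul_apply, smul_eq_mul]
    have e1 : (fun i => extT n x (Sum.inl i)) = x := rfl
    have e2 : (fun k' => extT n x (Sum.inr (Sum.inr k'))) = (0 : KI n → ℝ) := rfl
    rw [e1, e2, Matrix.mulVec_zero, add_zero]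
    rcases i with i | i | i
    · have h3 := congrFun hα i
      rw [Pi.add_apply, Finset.sum_apply] at h3
      simp only [Finset.sum_apply, Pi.smul_apply, smul_eq_mul] at h3
      simp only [Pi.add_apply, Sum.elim_inl, extT, Pi.zero_apply, add_zero]
      exact h3
    · simp [extT]
    · have h3 := congrFun hk0 i
      simp only [Pi.add_apply, Sum.elim_inr, extT, Pi.zero_apply, mul_zero,
        Finset.sum_const_zero, add_zero]
      exact h3
  rw [← hyE]
  conv_lhs => rw [hdec]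
  rw [Matrix.mulVec_add, Matrix.mulVec_add, Pos_ET_cob, Pos_ET_K, add_zero, add_zero,
    Matrix.mulVec_sum]
  refine Finset.sum_congr rfl (fun u _ => ?_)
  rw [Matrix.mulVec_sum]
  refine Finset.sum_congr rfl (fun v _ => ?_)
  rw [Matrix.mulVec_smul]
  rfl

/-- positivity -/
theorem H_pos (hsp : X.Spans)
    (hnd : ∀ α : Fin n → Fin n → ℝ,
      (∀ i j, ∑ u, ∑ v, α u v * X.form i j u v = 0) → ∀ k l, ∑ u, ∑ v, α u v * X.form u v k l = 0)
    (z : PDData.J n I → ℝ) (hz : ∀ u v, t.b u v ⬝ᵥ ((t.H.map eps) *ᵥ z) = 0) (hz0 : z ≠ 0) :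
    0 < z ⬝ᵥ ((t.H.map eps) *ᵥ z) := by
  set E := t.e.map eps with hE
  set Sg := (X.surg hs).ST.map eps with hSg
  set H₁ := t.H.map eps with hH
  set P := (pr (LauR ℝ n) X.degT Even).map (eps : LauR ℝ n →+* ℝ) with hP
  set F := ((X.surg hs).dT + t.s).map eps with hF
  have hHt : H₁ᵀ = H₁ := by
    rw [hH, ← eps_conjTranspose, t.H_herm]
  have hPt : Pᵀ = P := by
    rw [hP, ← eps_conjTranspose, pr_conjTranspose]
  have hPP : P * P = P := by rw [hP, ← eps_matmul, pr_mul_self]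
  have hEH : E * H₁ = E * Sg * Eᵀ := by
    rw [hE, hH, hSg, ← eps_matmul, t.e_H, eps_matmul, eps_matmul, eps_conjTranspose]
  have hEE : E * E = E := Pos_EE t
  have hsplit : H₁ = E * Sg * Eᵀ + (P * F * Fᵀ * P + (1 - P)) := by
    have h1 : H₁ = (t.H).map eps := rfl
    rw [h1, t.H_split, Matrix.map_add _ (map_add _), Matrix.map_add _ (map_add _),
      Matrix.map_sub _ (map_sub _), Matrix.map_one _ (map_zero _) (map_one _)]
    simp only [eps_matmul, eps_conjTranspose]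
    rfl
  have hFF : F * F = 1 - E := by
    have h1 : ((X.surg hs).dT + t.s) * ((X.surg hs).dT + t.s) = 1 - t.e := by
      rw [Matrix.add_mul, Matrix.mul_add, Matrix.mul_add, t.sdr.dd, t.sdr.ss, ← t.sdr.hom]
      abel
    rw [hF, ← eps_matmul, h1, Matrix.map_sub _ (map_sub _), Matrix.map_one _ (map_zero _)
      (map_one _)]
  -- `w · E H z = 0` for every `w`
  have hEHz : E *ᵥ (H₁ *ᵥ z) = 0 := by
    have h1 : ∀ w : PDData.J n I → ℝ, w ⬝ᵥ (E *ᵥ (H₁ *ᵥ z)) = 0 := by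
      intro w
      obtain ⟨α, hα⟩ := e_span t hsp w
      rw [Matrix.dotProduct_mulVec, ← Matrix.mulVec_transpose, hα, sum_dotProduct]
      apply Finset.sum_eq_zero
      intro u _
      rw [sum_dotProduct]
      apply Finset.sum_eq_zero
      intro v _
      rw [smul_dotProduct, hz u v, smul_zero]
    exact dotProduct_self_eq_zero.1 (h1 _)
  -- the value
  have hval : z ⬝ᵥ (H₁ *ᵥ z) = (Fᵀ *ᵥ (P *ᵥ z)) ⬝ᵥ (Fᵀ *ᵥ (P *ᵥ z)) +
      ((1 - P) *ᵥ z) ⬝ᵥ ((1 - P) *ᵥ z) := by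
    have h1 : z ⬝ᵥ ((E * Sg * Eᵀ) *ᵥ z) = 0 := by
      rw [← hEH, ← Matrix.mulVec_mulVec, hEHz, dotProduct_zero]
    have h2 : z ⬝ᵥ ((P * F * Fᵀ * P) *ᵥ z) = (Fᵀ *ᵥ (P *ᵥ z)) ⬝ᵥ (Fᵀ *ᵥ (P *ᵥ z)) := by
      have h3 : (P * F * Fᵀ * P) *ᵥ z = (P * F) *ᵥ (Fᵀ *ᵥ (P *ᵥ z)) := by
        simp only [Matrix.mulVec_mulVec, Matrix.mul_assoc]
      rw [h3, Matrix.dotProduct_mulVec, ← Matrix.mulVec_transpose, Matrix.transpose_mul, hPt,
        Matrix.mulVec_mulVec]
    have h3 : z ⬝ᵥ ((1 - P) *ᵥ z) = ((1 - P) *ᵥ z) ⬝ᵥ ((1 - P) *ᵥ z) := by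
      have h4 : (1 - P) * (1 - P) = 1 - P := by
        rw [Matrix.mul_sub, Matrix.mul_one, Matrix.sub_mul, Matrix.one_mul, hPP]
        abel
      have h5 : (1 - P)ᵀ = 1 - P := by
        rw [Matrix.transpose_sub, Matrix.transpose_one, hPt]
      conv_lhs => rw [← h4, ← Matrix.mulVec_mulVec]
      rw [Matrix.dotProduct_mulVec, ← Matrix.mulVec_transpose, h5]
    conv_lhs => rw [hsplit]
    rw [Matrix.add_mulVec, Matrix.add_mulVec, dotProduct_add, dotProduct_add, h1, h2, h3,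
      zero_add]
  have hnn1 : 0 ≤ (Fᵀ *ᵥ (P *ᵥ z)) ⬝ᵥ (Fᵀ *ᵥ (P *ᵥ z)) :=
    Finset.sum_nonneg (fun i _ => mul_self_nonneg _)
  have hnn2 : 0 ≤ ((1 - P) *ᵥ z) ⬝ᵥ ((1 - P) *ᵥ z) :=
    Finset.sum_nonneg (fun i _ => mul_self_nonneg _)
  rw [hval]
  by_contra hc
  push Not at hc
  have h1 : (Fᵀ *ᵥ (P *ᵥ z)) ⬝ᵥ (Fᵀ *ᵥ (P *ᵥ z)) = 0 := by linarith
  have h2 : ((1 - P) *ᵥ z) ⬝ᵥ ((1 - P) *ᵥ z) = 0 := by linarith
  have h3 := dotProduct_self_eq_zero.1 h1
  have h4 := dotProduct_self_eq_zero.1 h2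
  have h5 : P *ᵥ z = z := by
    rw [Matrix.sub_mulVec, Matrix.one_mulVec, sub_eq_zero] at h4
    exact h4.symm
  rw [h5] at h3
  have h6 : Eᵀ *ᵥ z = z := by
    have h7 : (F * F)ᵀ *ᵥ z = 0 := by
      rw [Matrix.transpose_mul, ← Matrix.mulVec_mulVec, h3, Matrix.mulVec_zero]
    rw [hFF, Matrix.transpose_sub, Matrix.transpose_one, Matrix.sub_mulVec, Matrix.one_mulVec,
      sub_eq_zero] at h7
    exact h7.symm
  have h7 : H₁ *ᵥ z = 0 := by
    have h8 : H₁ * Eᵀ = E * Sg * Eᵀ * Eᵀ := by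
      have h9 := congrArg Matrix.transpose hEH
      have h10 : Sgᵀ = Sg := by rw [hSg, ← eps_conjTranspose, (X.surg hs).STh]
      rw [Matrix.transpose_mul, hHt, Matrix.transpose_mul, Matrix.transpose_mul,
        Matrix.transpose_transpose, h10] at h9
      rw [h9, ← Matrix.mul_assoc, Matrix.mul_assoc (E * Sg) Eᵀ Eᵀ, ← Matrix.transpose_mul, hEE]
    have h9 : H₁ *ᵥ z = E *ᵥ (H₁ *ᵥ z) := by
      conv_lhs => rw [← h6, Matrix.mulVec_mulVec, h8, ← hEH]
      rw [← Matrix.mulVec_mulVec, h6, ← Matrix.mulVec_mulVec]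
    rw [h9, hEHz]
  have h8 : (t.Z.map eps) * H₁ = 1 := by
    rw [hH, ← eps_matmul, t.Z_mul_H, Matrix.map_one _ (map_zero _) (map_one _)]
  apply hz0
  calc z = ((t.Z.map eps) * H₁) *ᵥ z := by rw [h8, Matrix.one_mulVec]
    _ = 0 := by rw [← Matrix.mulVec_mulVec, h7, Matrix.mulVec_zero]

end Pool.Agent.PD4.Alg
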