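import Pool.Agent.PD4.Alg.SigB

/-!
# Project PD4, algebra block: the signature lemma in the form used by `Out.lean` (helper85)
-/

namespace Pool.Agent.PD4.Alg

open Matrix Pool.Agent.H74

theorem omC_symm (i j k l : Fin 8) : omC k l i j = omC i j k l := by
  rw [omC_eq, omC_eq, Finset.sum_comm]
  have hG : ∀ p q : Fin 28, TorusE8.G p q = TorusE8.G q p := by decide +kernel
  refine Finset.sum_congr rfl fun p _ => Finset.sum_congr rfl fun q _ => ?_
  rw [hG p q]
  ring

/-- nondegeneracy in the form needed in `Pos.lean` -/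
theorem omC_nd (α : Fin 8 → Fin 8 → ℝ)
    (h : ∀ i j, ∑ u, ∑ v, α u v * (omC i j u v : ℝ) = 0) (k l : Fin 8) :
    ∑ u, ∑ v, α u v * (omC u v k l : ℝ) = 0 := by
  rw [← h k l]
  refine Finset.sum_congr rfl fun u _ => Finset.sum_congr rfl fun v _ => ?_
  rw [omC_symm k l u v]

variable {J : Type*} [Fintype J] [DecidableEq J]

/-- **Signature lemma.**  `H` real symmetric, vectors `b_ij` with Gram matrix `omC`, `H` positive
off them.  Then `H` has exactly ten negative directions, and in suitable coordinates seven linear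
forms vanishing on the positive ones give the imaginary part of the octonion product. -/
theorem sig_lemma (H : Matrix J J ℝ) (hH : Hᵀ = H)
    (b : Fin 8 → Fin 8 → J → ℝ)
    (hb : ∀ i j k l, b i j ⬝ᵥ (H *ᵥ b k l) = (omC i j k l : ℝ))
    (hpos : ∀ z : J → ℝ, (∀ i j, b i j ⬝ᵥ (H *ᵥ z) = 0) → z ≠ 0 → 0 < z ⬝ᵥ (H *ᵥ z)) :
    ∃ (S : Matrix J J ℝ) (s : Finset J), s.card = 10 ∧
      Sᵀ * H * S = Matrix.diagonal (fun i => if i ∈ s then (-1 : ℝ) else 1) ∧
      ∃ lam : Matrix (Fin 7) J ℝ, (∀ i ∉ s, ∀ c, (lam * S) c i = 0) ∧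
        ∀ j l c, (lam *ᵥ b j l) c = yOct j c.succ l := by
  classical
  obtain ⟨S, τ, hS, hτ⟩ := exists_normal H hH b hb hpos
  refine ⟨S, Finset.univ.map τ, ?_, hS, Matrix.of fun k x => lamK H b k x, ?_, ?_⟩
  · rw [Finset.card_map, Finset.card_univ, Fintype.card_fin]
  · intro i hi k
    rw [Matrix.mul_apply]
    simp only [Matrix.of_apply]
    rw [lamK_dot H b k (fun x => S x i)]
    exact YGI_fv H b k _ (hτ i hi)
  · intro j l k
    rw [Matrix.mulVec, dotProduct]
    simp only [Matrix.of_apply]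
    rw [lamK_dot H b k (b j l), b_eq_sum H b hb hpos j l, cY]
    have h3 : ∀ p, bf H (bv b p) (∑ q, (wdg q j l : ℝ) • bv b q) =
        ∑ q, (wdg q j l : ℝ) * (TorusE8.G p q : ℝ) := by
      intro p
      rw [map_sum]
      refine Finset.sum_congr rfl fun q _ => ?_
      rw [map_smul, bf_bv H b hb, smul_eq_mul]
    simp only [h3, Finset.mul_sum]
    rw [Finset.sum_comm]
    push_cast
    refine Finset.sum_congr rfl fun q _ => ?_
    have h4 : (∑ p, (YGI k p : ℝ) * (TorusE8.G p q : ℝ)) = (Y7 k q : ℝ) := by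
      exact_mod_cast cYGI k q
    rw [← h4, Finset.sum_mul]
    refine Finset.sum_congr rfl fun p _ => ?_
    ring

end Pool.Agent.PD4.Alg
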