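import Pool.Agent.PD4.Alg.Kern
import Pool.Agent.PD4.Alg.Pos
import Pool.Agent.PD4.Alg.SigO
import Pool.Agent.PD4.Iface

/-!
# Project PD4, algebra block: the output `IfaceData` (owner: helper85)
-/

namespace Pool.Agent.PD4.Alg

open Matrix LauR

variable {I : Type} [Fintype I] [DecidableEq I]

/-- the row `t_j - 1` -/
noncomputable def rowK : Matrix (Fin 1) (Fin 8) (Laurent 8) := Matrix.of fun _ j => T ℝ j - 1

theorem exists_iface (X : PDData ℝ 8 I) (hs : X.D.Sᴴ = X.D.S)
    (hform : ∀ i j k l, X.form i j k l = (omC i j k l : ℝ)) (hsp : X.Spans) :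
    Nonempty (IfaceData (PDData.J 8 I ⊕ Fin 1)) := by
  classical
  obtain ⟨t⟩ := exists_TData X hs
  -- the real matrix at one
  set H1 : Matrix (PDData.J 8 I) (PDData.J 8 I) ℝ := t.H.map eps with hH1
  have hH1s : H1ᵀ = H1 := by
    rw [hH1, ← eps_conjTranspose, t.H_herm]
  have hb : ∀ i j k l, t.b i j ⬝ᵥ (H1 *ᵥ t.b k l) = omC i j k l := fun i j k l => by
    rw [hH1, t.b_form, hform]
  have hnd : ∀ α : Fin 8 → Fin 8 → ℝ,
      (∀ i j, ∑ u, ∑ v, α u v * X.form i j u v = 0) →
        ∀ k l, ∑ u, ∑ v, α u v * X.form u v k l = 0 := by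
    intro α hα k l
    simp only [hform] at hα ⊢
    exact omC_nd α hα k l
  obtain ⟨S, s, hcard, hdiag, lam, hlamS, hlam⟩ := sig_lemma H1 hH1s t.b hb
    (fun z hz hz0 => H_pos t hsp hnd z hz hz0)
  have hmem : ∀ i : PDData.J 8 I, ((Sum.inl i : PDData.J 8 I ⊕ Fin 1) ∈
      s.map ⟨Sum.inl, Sum.inl_injective⟩ ∪ {Sum.inr 0}) ↔ i ∈ s := by
    intro i
    rw [Finset.mem_union, Finset.mem_singleton, Finset.mem_map]
    constructor
    · rintro (⟨a, ha, hai⟩ | h)
      · rwa [← Sum.inl_injective hai]
      · exact absurd h (by simp)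
    · intro h
      exact Or.inl ⟨i, h, rfl⟩
  refine ⟨{
    B := fromBlocks t.H 0 0 (-1)
    herm := ?_
    unit := ?_
    A := fromRows t.a rowK
    K := rowK
    neg := ?_
    inj := ?_
    zero := ?_
    S := fromBlocks S 0 0 1
    s := s.map ⟨Sum.inl, Sum.inl_injective⟩ ∪ {Sum.inr 0}
    card := ?_
    diag := ?_
    lam := Matrix.of fun c i => Fin.cases (Sum.elim (fun _ => (0 : ℝ)) (fun _ => 1) i)
      (fun c' => Sum.elim (fun i' => lam c' i') (fun _ => 0) i) c
    lamS := ?_
    first := ?_ }⟩
  · rw [fromBlocks_conjTranspose, t.H_herm]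
    simp
  · refine ⟨⟨fromBlocks t.H 0 0 (-1), fromBlocks t.Z 0 0 (-1), ?_, ?_⟩, rfl⟩
    · rw [fromBlocks_multiply, t.H_mul_Z]
      simp
    · rw [fromBlocks_multiply, t.Z_mul_H]
      simp
  · rw [conjTranspose_fromRows_eq_fromCols_conjTranspose, fromCols_mul_fromBlocks,
      fromCols_mul_fromRows]
    simp only [Matrix.mul_zero, add_zero, zero_add, t.a_isotropic]
    simp
  · intro x hx v hv
    have hv1 : (t.a.map (lch x)) *ᵥ v = 0 := by
      funext i
      have := congrFun hv (Sum.inl i)
      simpa [Matrix.mulVec, dotProduct] using this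
    have hv2 : ∑ j, (lch x (T ℝ j) - 1) * v j = 0 := by
      have := congrFun hv (Sum.inr 0)
      simpa [Matrix.mulVec, dotProduct, rowK] using this
    have hne : ∃ j, lch x (T ℝ j) ≠ 1 := by
      by_contra hcon
      push Not at hcon
      have hk : ∀ j, ∃ k : ℤ, x j = k := by
        intro j
        have h1 := hcon j
        rw [T_def, lch_single] at h1
        have h2 : ∑ i, ((Pi.single j (1 : ℤ) : Fin 8 → ℤ) i : ℂ) * (x i : ℂ) = (x j : ℂ) := by
          rw [Finset.sum_eq_single j]
          · simp
          · intro i _ hij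
            simp [hij]
          · simp
        rw [h2, Complex.ofReal_one, one_mul, Complex.exp_eq_one_iff] at h1
        obtain ⟨k, hk⟩ := h1
        refine ⟨k, ?_⟩
        have h3 : (2 * Real.pi * Complex.I : ℂ) ≠ 0 := by
          simp [Real.pi_ne_zero]
        have h4 : (x j : ℂ) = (k : ℂ) := by
          apply mul_left_cancel₀ h3
          rw [hk]
          ring
        exact_mod_cast h4
      choose k hk using hk
      exact hx k (funext hk)
    obtain ⟨c, hc⟩ := a_ker t (lch x) (fun y => lch_star x y) hne v hv1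
    have hc0 : c = 0 := by
      have h1 : ∑ j, (lch x (T ℝ j) - 1) * (c * star (lch x (T ℝ j) - 1)) = 0 := by
        rw [← hv2]
        refine Finset.sum_congr rfl fun j _ => ?_
        rw [hc]
        simp only [Pi.smul_apply, smul_eq_mul, wv, map_sub, lch_star, map_one, star_sub, star_one]
      have h2 : c * (∑ j, (lch x (T ℝ j) - 1) * star (lch x (T ℝ j) - 1)) = 0 := by
        rw [← h1, Finset.mul_sum]
        exact Finset.sum_congr rfl fun j _ => by ring
      rcases mul_eq_zero.1 h2 with h3 | h3
      · exact h3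
      · exfalso
        obtain ⟨j, hj⟩ := hne
        have h4 : (∑ j, (lch x (T ℝ j) - 1) * star (lch x (T ℝ j) - 1)) =
            ((∑ j, ‖lch x (T ℝ j) - 1‖ ^ 2 : ℝ) : ℂ) := by
          push_cast
          refine Finset.sum_congr rfl fun j _ => ?_
          exact Complex.mul_conj' _
        rw [h4] at h3
        have h5 : (∑ j, ‖lch x (T ℝ j) - 1‖ ^ 2 : ℝ) = 0 := by exact_mod_cast h3
        have h6 := (Finset.sum_eq_zero_iff_of_nonneg (fun j _ => by positivity)).1 h5 j
          (Finset.mem_univ j)
        have h7 : ‖lch x (T ℝ j) - 1‖ = 0 := by simpa using h6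
        exact hj (sub_eq_zero.1 (norm_eq_zero.1 h7))
    rw [hc, hc0, zero_smul]
  · ext i j
    rcases i with i | i
    · simpa using t.a_eps i j
    · simp [rowK, eps_T]
  · rw [Finset.card_union_of_disjoint, Finset.card_map, hcard]
    · simp
    · rw [Finset.disjoint_singleton_right]
      simp
  · have hmap : (fromBlocks t.H 0 0 (-1 : Matrix (Fin 1) (Fin 1) (Laurent 8))).map laug =
        fromBlocks H1 0 0 (-1) := by
      rw [fromBlocks_map]
      congr 1
      ext i j
      simp only [Matrix.map_apply, Matrix.neg_apply, map_neg, Matrix.one_apply]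
      split_ifs <;> simp
    rw [hmap, fromBlocks_transpose, fromBlocks_multiply, fromBlocks_multiply]
    simp only [Matrix.transpose_zero, Matrix.mul_zero, Matrix.zero_mul, add_zero, zero_add,
      Matrix.transpose_one, Matrix.one_mul, Matrix.mul_one, hdiag]
    ext i j
    rcases i with i | i <;> rcases j with j | j
    · rw [fromBlocks_apply₁₁, Matrix.diagonal_apply, Matrix.diagonal_apply]
      simp only [hmem, Sum.inl.injEq]
    · simp [Matrix.diagonal_apply]
    · simp [Matrix.diagonal_apply]
    · simp [Matrix.diagonal_apply, Subsingleton.elim i j, Subsingleton.elim j 0]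
  · intro i hi c
    rcases i with i | i
    · have hi' : i ∉ s := fun h => hi ((hmem i).2 h)
      have hl := hlamS i hi'
      refine Fin.cases ?_ (fun c' => ?_) c
      · simp [Matrix.mul_apply, Fintype.sum_sum_type]
      · have := hl c'
        simpa [Matrix.mul_apply, Fintype.sum_sum_type] using this
    · exfalso
      apply hi
      simp [Subsingleton.elim i 0]
  · intro j c l
    refine Fin.cases ?_ (fun c' => ?_) c
    · simp [Matrix.mul_apply, Fintype.sum_sum_type, rowK, MOct, lder_lT, lder_one]
    · have h1 := hlam j l c'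
      have h2 : ∀ i, (t.a.map (lder j)) i l = t.b j l i := fun i => t.a_Dr j l i
      have h3 : MOct j c'.succ l = yOct j c'.succ l := by
        rw [MOct, if_neg (Fin.succ_ne_zero c')]
      rw [h3, ← h1]
      simp [Matrix.mul_apply, Fintype.sum_sum_type, Matrix.mulVec, dotProduct, ← h2]

end Pool.Agent.PD4.Alg
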