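import Pool.Agent.PD4.Alg.Base
import Pool.Agent.PD4.Alg.Out

/-!
# Project PD4, algebra block: from integral input to `IfaceData` (owner: helper85)
-/

namespace Pool.Agent.PD4.Alg

open Matrix LauR

variable {I : Type} [Fintype I] [DecidableEq I]

/-- **Theorem A.**  Input over `ℤ[ℤ⁸]` with form `φ_ω` and `H²` rationally spanned by the
products gives the interface data. -/
theorem exists_iface_int (X : PDData ℤ 8 I)
    (hform : ∀ i j k l, X.form i j k l = omC i j k l)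
    (hsp : ∀ z : I → ℤ, (∀ i, z i ≠ 0 → X.deg i = 2) → (X.D.d.map eps)ᵀ *ᵥ z = 0 →
      ∃ (N : ℤ) (α : Fin 8 → Fin 8 → ℤ) (x : I → ℤ), N ≠ 0 ∧
        N • z = ∑ u, ∑ v, α u v • X.c u v + (X.D.d.map eps)ᵀ *ᵥ x) :
    Nonempty (IfaceData (PDData.J 8 I ⊕ Fin 1)) := by
  obtain ⟨X1, hdeg, hd, -, hη, -, hform1⟩ := X.exists_bc (Int.castRingHom ℝ)
  have hη' : X1.η = fun i => (X.η i : ℝ) := hη
  obtain ⟨X2, hs, hdeg2, hd2, hη2, hform2⟩ := X1.exists_symm (1 / 2 : ℝ) (by norm_num)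
  refine exists_iface X2 hs (fun i j k l => ?_) ?_
  · rw [hform2, hform1, hform]
    simp
  · exact PDData.spans_of_int X X2 (hdeg2.trans hdeg) (hd2.trans hd) (hη2.trans hη') hsp

end Pool.Agent.PD4.Alg
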