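import Pool.Agent.PD4.Alg.BaseInt

/-!
# Project PD4, algebra block: spanning from the rank and the unimodular form (owner: helper87)

`spans_of_gram` (matrix form): if `card K` classes `e` span the integer cocycles rationally, the
form `S` kills coboundaries against the cocycles `c k`, and the Gram matrix of the `c k` is
nondegenerate, then the `c k` span rationally.
-/

namespace Pool.Agent.PD4.Alg.Flat

open Matrix LauR

/-- `card K` spanning classes, nondegenerate Gram matrix of the `c k`: the `c k` span. -/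
theorem spans_of_gram {I K : Type*} [Fintype I] [Fintype K] [DecidableEq K]
    (A B S : Matrix I I ℤ) (P : I → Prop) (c e : K → I → ℤ)
    (hcP : ∀ k i, c k i ≠ 0 → P i) (hc : ∀ k, A *ᵥ c k = 0)
    (hB : ∀ k x, c k ⬝ᵥ (S *ᵥ (B *ᵥ x)) = 0)
    (hG : (Matrix.of fun k l => c k ⬝ᵥ (S *ᵥ c l)).det ≠ 0)
    (h : ∀ z : I → ℤ, (∀ i, z i ≠ 0 → P i) → A *ᵥ z = 0 →
      ∃ m : ℤ, m ≠ 0 ∧ ∃ (α : K → ℤ) (x : I → ℤ), m • z = ∑ k, α k • e k + B *ᵥ x)
    (z : I → ℤ) (hP : ∀ i, z i ≠ 0 → P i) (hz : A *ᵥ z = 0) :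
    ∃ m : ℤ, m ≠ 0 ∧ ∃ (α : K → ℤ) (x : I → ℤ), m • z = ∑ k, α k • c k + B *ᵥ x := by
  classical
  have h1 : ∀ k, ∃ m : ℤ, m ≠ 0 ∧ ∃ (α : K → ℤ) (x : I → ℤ),
      m • c k = ∑ l, α l • e l + B *ᵥ x := fun k => h (c k) (hcP k) (hc k)
  choose m hm α x hx using h1
  -- the Gram matrix times `diag m` factors through `α`
  have hfac : (Matrix.of fun k l => c k ⬝ᵥ (S *ᵥ c l)) * Matrix.diagonal m =
      (Matrix.of fun k a => c k ⬝ᵥ (S *ᵥ e a)) * (Matrix.of α)ᵀ := by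
    ext k l
    rw [Matrix.mul_diagonal, Matrix.mul_apply]
    simp only [Matrix.of_apply, Matrix.transpose_apply]
    have h2 : c k ⬝ᵥ (S *ᵥ c l) * m l = c k ⬝ᵥ (S *ᵥ (m l • c l)) := by
      rw [Matrix.mulVec_smul, dotProduct_smul, smul_eq_mul, mul_comm]
    rw [h2, hx l, Matrix.mulVec_add, dotProduct_add, hB, add_zero, Matrix.mulVec_sum,
      dotProduct_sum]
    refine Finset.sum_congr rfl fun a _ => ?_
    rw [Matrix.mulVec_smul, dotProduct_smul, smul_eq_mul, mul_comm]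
  have hdet : (Matrix.of α).det ≠ 0 := by
    intro h0
    have h3 := congrArg Matrix.det hfac
    rw [Matrix.det_mul, Matrix.det_mul, Matrix.det_transpose, h0, mul_zero,
      Matrix.det_diagonal] at h3
    rcases mul_eq_zero.mp h3 with h4 | h4
    · exact hG h4
    · exact (Finset.prod_ne_zero_iff.mpr fun k _ => hm k) h4
  obtain ⟨N, hN, β, y, hy⟩ := h z hP hz
  let adj := (Matrix.of α).adjugate
  -- `det α • e a = ∑ k, adj a k • (m k • c k - B x k)`
  have he : ∀ a, (Matrix.of α).det • e a = ∑ k, adj a k • (m k • c k - B *ᵥ x k) := by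
    intro a
    have h5 : ∀ k, m k • c k - B *ᵥ x k = ∑ l, α k l • e l := by
      intro k
      rw [hx k]
      abel
    simp only [h5, Finset.smul_sum, smul_smul]
    rw [Finset.sum_comm]
    simp only [← Finset.sum_smul]
    have h6 : ∀ l, ∑ k, adj a k * α k l = (adj * Matrix.of α) a l := by
      intro l
      rw [Matrix.mul_apply]
      rfl
    simp only [h6, adj, Matrix.adjugate_mul]
    rw [Finset.sum_eq_single a]
    · simp
    · intro l _ hl
      simp [Matrix.one_apply_ne hl.symm]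
    · intro h7
      exact absurd (Finset.mem_univ _) h7
  refine ⟨(Matrix.of α).det * N, mul_ne_zero hdet hN,
    fun k => ∑ a, β a * adj a k * m k,
    (Matrix.of α).det • y - ∑ a, ∑ k, (β a * adj a k) • x k, ?_⟩
  rw [mul_smul, hy, smul_add, Finset.smul_sum]
  have h8 : ∀ a, (Matrix.of α).det • β a • e a =
      ∑ k, (β a * adj a k * m k) • c k - B *ᵥ (∑ k, (β a * adj a k) • x k) := by
    intro a
    rw [smul_comm, he a, Finset.smul_sum, Matrix.mulVec_sum, ← Finset.sum_sub_distrib]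
    refine Finset.sum_congr rfl fun k _ => ?_
    rw [smul_sub, smul_sub, Matrix.mulVec_smul, smul_smul, smul_smul, smul_smul]
  simp only [h8, Finset.sum_sub_distrib]
  rw [Finset.sum_comm]
  simp only [← Finset.sum_smul]
  rw [Matrix.mulVec_sub, Matrix.mulVec_smul, Matrix.mulVec_sum]
  abel

/-- index type of the classes `c_uv`, `u < v` -/
abbrev Pr (n : ℕ) := {p : Fin n × Fin n // p.1 < p.2}

/-- the coboundaries are orthogonal to the classes `c_uv` -/
theorem c_orth {n : ℕ} {I : Type} [Fintype I] [DecidableEq I] (X : PDData ℤ n I)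
    (hcc : ∀ u v, (X.D.d.map eps)ᵀ *ᵥ X.c u v = 0) (u v : Fin n) (x : I → ℤ) :
    X.c u v ⬝ᵥ ((X.D.S.map eps) *ᵥ ((X.D.d.map eps)ᵀ *ᵥ x)) = 0 := by
  have h1 : X.D.S.map eps * (X.D.d.map eps)ᵀ = X.D.d.map eps * X.D.S.map eps := by
    rw [← eps_conjTranspose, ← eps_matmul, ← eps_matmul, X.D.dS]
  rw [Matrix.mulVec_mulVec, h1, ← Matrix.mulVec_mulVec, Matrix.dotProduct_mulVec,
    ← Matrix.mulVec_transpose, hcc u v, zero_dotProduct]

/-- **`Spans` from `b₂ = n(n-1)/2`**: if `n(n-1)/2` integer cochains `e` span the integer cocycles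
of degree two rationally modulo coboundaries and the Gram matrix of the `c_uv`, `u < v`, is
nondegenerate, then the `c_uv` span rationally: the hypothesis `h` of `spans_of_int`. -/
theorem int_spans_of_rank {n : ℕ} {I E : Type} [Fintype I] [DecidableEq I] [Fintype E]
    (hE : Fintype.card E = Fintype.card (Pr n)) (X : PDData ℤ n I)
    (hcd : ∀ u v i, X.c u v i ≠ 0 → X.deg i = 2)
    (hcc : ∀ u v, (X.D.d.map eps)ᵀ *ᵥ X.c u v = 0)
    (hG : (Matrix.of fun k l : Pr n => X.form k.1.1 k.1.2 l.1.1 l.1.2).det ≠ 0)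
    (e : E → I → ℤ)
    (he : ∀ z : I → ℤ, (∀ i, z i ≠ 0 → X.deg i = 2) → (X.D.d.map eps)ᵀ *ᵥ z = 0 →
      ∃ m : ℤ, m ≠ 0 ∧ ∃ (α : E → ℤ) (x : I → ℤ),
        m • z = ∑ k, α k • e k + (X.D.d.map eps)ᵀ *ᵥ x)
    (z : I → ℤ) (hz2 : ∀ i, z i ≠ 0 → X.deg i = 2) (hz : (X.D.d.map eps)ᵀ *ᵥ z = 0) :
    ∃ (N : ℤ) (α : Fin n → Fin n → ℤ) (x : I → ℤ), N ≠ 0 ∧
      N • z = ∑ u, ∑ v, α u v • X.c u v + (X.D.d.map eps)ᵀ *ᵥ x := by
  classical
  let σ : E ≃ Pr n := Fintype.equivOfCardEq hE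
  obtain ⟨m, hm, α, x, hx⟩ := spans_of_gram ((X.D.d.map eps)ᵀ) ((X.D.d.map eps)ᵀ)
    (X.D.S.map eps) (fun i => X.deg i = 2) (fun k : Pr n => X.c k.1.1 k.1.2)
    (fun k => e (σ.symm k)) (fun k i hi => hcd _ _ i hi) (fun k => hcc _ _)
    (fun k x => c_orth X hcc _ _ x) hG (by
      intro w hw hw0
      obtain ⟨m, hm, α, x, hx⟩ := he w hw hw0
      refine ⟨m, hm, fun k => α (σ.symm k), x, ?_⟩
      rw [hx, ← Equiv.sum_comp σ.symm (fun k => α k • e k)]) z hz2 hz
  refine ⟨m, fun u v => if h : u < v then α ⟨(u, v), h⟩ else 0, x, hm, ?_⟩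
  rw [hx]
  congr 1
  rw [← Fintype.sum_prod_type' (f := fun u v : Fin n =>
    (if h : u < v then α ⟨(u, v), h⟩ else 0) • X.c u v)]
  have h1 : ∀ p : Fin n × Fin n, ¬ p.1 < p.2 →
      (if h : p.1 < p.2 then α ⟨(p.1, p.2), h⟩ else 0) • X.c p.1 p.2 = 0 := by
    intro p hp
    rw [dif_neg hp, zero_smul]
  rw [← Finset.sum_subset (Finset.subset_univ (Finset.univ.filter fun p : Fin n × Fin n =>
    p.1 < p.2)) (fun p _ hp => h1 p (by simpa using hp))]
  rw [← Finset.sum_subtype_eq_sum_filter, Finset.subtype_univ]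
  refine Finset.sum_congr rfl fun k _ => ?_
  rw [dif_pos k.2]

end Pool.Agent.PD4.Alg.Flat
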