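import Pool.Agent.PD4.Alg.Rank

/-!
# Project PD4, algebra block: spanning from a map of the cocycles to `ℤ^m` (owner: helper87)

`dep_span`: if the integer cocycles of degree two embed, modulo torsion and coboundaries,
into `ℤ^m`, and the Gram matrix of `m` cocycles `c k` is nondegenerate, then the `c k` span the
cocycles rationally.
-/

namespace Pool.Agent.PD4.Alg.Flat

open Matrix LauR

section gen

variable {I K : Type} [Fintype I] [Fintype K] [DecidableEq K]

/-- the integer vectors supported in `P` and killed by `A` -/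
def Zk (A : Matrix I I ℤ) (P : I → Prop) : Submodule ℤ (I → ℤ) where
  carrier := {z | (∀ i, z i ≠ 0 → P i) ∧ A *ᵥ z = 0}
  add_mem' := by
    rintro a b ⟨ha, ha'⟩ ⟨hb, hb'⟩
    refine ⟨fun i hi => ?_, ?_⟩
    · by_contra h
      have h1 : a i = 0 := by
        by_contra h2
        exact h (ha i h2)
      have h2 : b i = 0 := by
        by_contra h2
        exact h (hb i h2)
      exact hi (by rw [Pi.add_apply, h1, h2, add_zero])
    · rw [Matrix.mulVec_add, ha', hb', add_zero]
  zero_mem' := ⟨fun i hi => absurd rfl hi, Matrix.mulVec_zero _⟩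
  smul_mem' := by
    rintro r a ⟨ha, ha'⟩
    refine ⟨fun i hi => ha i fun h => hi ?_, ?_⟩
    · rw [Pi.smul_apply, h, smul_zero]
    · rw [Matrix.mulVec_smul, ha', smul_zero]

/-- `m + 1` vectors in `ℤ^m` are dependent; pair the relation with the `c k` -/
theorem dep_span {m : ℕ} (hm : m = Fintype.card K) (A S : Matrix I I ℤ) (P : I → Prop)
    (c : K → I → ℤ) (hcP : ∀ k i, c k i ≠ 0 → P i) (hc : ∀ k, A *ᵥ c k = 0)
    (hB : ∀ k x, c k ⬝ᵥ (S *ᵥ (A *ᵥ x)) = 0)
    (hG : (Matrix.of fun k l => c k ⬝ᵥ (S *ᵥ c l)).det ≠ 0)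
    (φ : Zk A P →ₗ[ℤ] (Fin m → ℤ))
    (hφ : ∀ w : Zk A P, φ w = 0 → ∃ (r : ℤ) (x : I → ℤ), r ≠ 0 ∧
      r • (w : I → ℤ) = A *ᵥ x)
    (z : I → ℤ) (hzP : ∀ i, z i ≠ 0 → P i) (hz : A *ᵥ z = 0) :
    ∃ (N : ℤ) (β : K → ℤ) (x : I → ℤ), N ≠ 0 ∧ N • z = ∑ k, β k • c k + A *ᵥ x := by
  classical
  let c' : K → Zk A P := fun k => ⟨c k, hcP k, hc k⟩
  let z' : Zk A P := ⟨z, hzP, hz⟩
  let v : Option K → Zk A P := fun o => o.elim z' c'
  have hdep : ¬ LinearIndependent ℤ (fun o => φ (v o)) := by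
    intro h
    have h1 := h.fintype_card_le_finrank
    rw [Fintype.card_option, Module.finrank_fin_fun, hm] at h1
    omega
  rw [Fintype.not_linearIndependent_iff] at hdep
  obtain ⟨g, hg, o, ho⟩ := hdep
  rw [Fintype.sum_option] at hg
  have hw : φ (g none • z' + ∑ k, g (some k) • c' k) = 0 := by
    rw [map_add, map_smul, map_sum]
    simp only [map_smul]
    exact hg
  obtain ⟨r, x, hr, hx⟩ := hφ _ hw
  have hcoe : ((g none • z' + ∑ k, g (some k) • c' k : Zk A P) : I → ℤ) =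
      g none • z + ∑ k, g (some k) • c k := by
    simp [z', c']
  rw [hcoe] at hx
  have hN : g none ≠ 0 := by
    intro h0
    rw [h0, zero_smul, zero_add] at hx
    have h2 : (Matrix.of fun k l => c k ⬝ᵥ (S *ᵥ c l)) *ᵥ (fun k => g (some k)) = 0 := by
      funext l
      have h2 := congrArg (fun w => c l ⬝ᵥ (S *ᵥ w)) hx
      simp only [hB] at h2
      rw [Matrix.mulVec_smul, dotProduct_smul, smul_eq_mul] at h2
      have h3 := (mul_eq_zero.mp h2).resolve_left hr
      rw [Matrix.mulVec_sum, dotProduct_sum] at h3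
      change ∑ k, (c l ⬝ᵥ (S *ᵥ c k)) * g (some k) = 0
      rw [← h3]
      refine Finset.sum_congr rfl fun k _ => ?_
      rw [Matrix.mulVec_smul, dotProduct_smul, smul_eq_mul, mul_comm]
    have h3 := Matrix.eq_zero_of_mulVec_eq_zero hG h2
    rcases o with _ | k
    · exact ho h0
    · exact ho (congrFun h3 k)
  refine ⟨r * g none, fun k => -(r * g (some k)), x, mul_ne_zero hr hN, ?_⟩
  rw [← hx, smul_add, smul_smul, Finset.smul_sum]
  simp only [neg_smul, Finset.sum_neg_distrib, smul_smul]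
  abel

end gen

/-- a sum over the pairs `u < v` as a double sum -/
theorem sum_pr {n : ℕ} {A : Type} [AddCommGroup A] (β : Pr n → ℤ) (c : Fin n → Fin n → A) :
    ∑ u, ∑ w, (if h : u < w then β ⟨(u, w), h⟩ else 0) • c u w =
      ∑ k : Pr n, β k • c k.1.1 k.1.2 := by
  classical
  rw [← Fintype.sum_prod_type' (f := fun u w : Fin n =>
    (if h : u < w then β ⟨(u, w), h⟩ else 0) • c u w)]
  have h1 : ∀ p : Fin n × Fin n, ¬ p.1 < p.2 →
      (if h : p.1 < p.2 then β ⟨(p.1, p.2), h⟩ else 0) • c p.1 p.2 = 0 := by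
    intro p hp
    rw [dif_neg hp, zero_smul]
  rw [← Finset.sum_subset (Finset.subset_univ (Finset.univ.filter fun p : Fin n × Fin n =>
    p.1 < p.2)) (fun p _ hp => h1 p (by simpa using hp))]
  rw [← Finset.sum_subtype_eq_sum_filter, Finset.subtype_univ]
  refine Finset.sum_congr rfl fun k _ => ?_
  rw [dif_pos k.2]

end Pool.Agent.PD4.Alg.Flat
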