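import Mathlib

/-!
# Project PD (MP_69cf13_gt): the reduction lemma (note 2811 (II))

`L` a commutative ring with involution containing `1/2`.  `H` a unimodular hermitian matrix
(inverse `K`), `β : L^m → L^p`, `σ : L^p → L^q` with `σ β = 0`, `β K β* = 0`, `σ τ = 1`,
`β γ₀ = 1 - τ σ`.  The hyperbolic part of `H` belonging to `A = K β*` is replaced by a positive
definite one: there is an `H`-selfadjoint idempotent `e` with `β e = 0`, `e A = 0`, and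
`H₁ = e* H e + f₁* f₁ + f₂* f₂` on `L^m ⊕ L^q ⊕ L^q` is unimodular hermitian.
-/

open Matrix

namespace Pool.Agent.PD4.Alg

variable {L : Type*} [CommRing L] [StarRing L] [Invertible (2 : L)]
variable {m p q : Type*} [Fintype m] [Fintype p] [Fintype q]
  [DecidableEq m] [DecidableEq p] [DecidableEq q]

/-- the input of the reduction lemma -/
structure RedIn (L m p q : Type*) [CommRing L] [StarRing L] [Fintype m] [Fintype p] [Fintype q]
    [DecidableEq m] [DecidableEq p] [DecidableEq q] where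
  H : Matrix m m L
  K : Matrix m m L
  β : Matrix p m L
  σ : Matrix q p L
  τ : Matrix p q L
  γ₀ : Matrix m p L
  hH : Hᴴ = H
  HK : H * K = 1
  KH : K * H = 1
  iso : β * K * βᴴ = 0
  σβ : σ * β = 0
  στ : σ * τ = 1
  βγ₀ : β * γ₀ = 1 - τ * σ

namespace RedIn

variable (D : RedIn L m p q)

omit [Invertible (2 : L)] in
lemma hK : D.Kᴴ = D.K := by
  have h1 : D.Kᴴ * D.H = 1 := by
    have := congrArg conjTranspose D.HK
    rwa [conjTranspose_mul, D.hH, conjTranspose_one] at this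
  calc D.Kᴴ = D.Kᴴ * (D.H * D.K) := by rw [D.HK, Matrix.mul_one]
    _ = D.K := by rw [← Matrix.mul_assoc, h1, Matrix.one_mul]

/-- `A = K β*`, a Lagrangian direction -/
def A : Matrix m p L := D.K * D.βᴴ

/-- first normalisation of `γ₀` -/
def γ₁ : Matrix m p L := D.γ₀ * (1 - D.τ * D.σ)

/-- second normalisation: an isotropic `γ` -/
def γ : Matrix m p L := D.γ₁ - (⅟2 : L) • (D.A * (D.γ₁ᴴ * D.H * D.γ₁))

/-- the idempotent `e_Q` -/
def e : Matrix m m L := 1 - D.γ * D.β - D.A * (D.γᴴ * D.H)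

omit [Invertible (2 : L)] in
lemma βA : D.β * D.A = 0 := by rw [A, ← Matrix.mul_assoc]; exact D.iso

omit [Invertible (2 : L)] in
lemma HA : D.H * D.A = D.βᴴ := by rw [A, ← Matrix.mul_assoc, D.HK, Matrix.one_mul]

omit [Invertible (2 : L)] in
lemma AH : D.Aᴴ * D.H = D.β := by
  rw [A, conjTranspose_mul, conjTranspose_conjTranspose, D.hK, Matrix.mul_assoc, D.KH,
    Matrix.mul_one]

omit [Invertible (2 : L)] in
lemma Aσ : D.A * D.σᴴ = 0 := by
  rw [A, Matrix.mul_assoc, ← conjTranspose_mul, D.σβ, conjTranspose_zero, Matrix.mul_zero]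

omit [Invertible (2 : L)] in
lemma γ₁τ : D.γ₁ * D.τ = 0 := by
  rw [γ₁, Matrix.mul_assoc, Matrix.sub_mul, Matrix.mul_assoc D.τ, D.στ, Matrix.mul_one,
    Matrix.one_mul, sub_self, Matrix.mul_zero]

omit [Invertible (2 : L)] in
lemma idem : (1 - D.τ * D.σ) * (1 - D.τ * D.σ) = 1 - D.τ * D.σ := by
  have h : D.τ * D.σ * (D.τ * D.σ) = D.τ * D.σ := by
    rw [Matrix.mul_assoc, ← Matrix.mul_assoc D.σ, D.στ, Matrix.one_mul]
  rw [Matrix.sub_mul, Matrix.mul_sub, Matrix.mul_sub, h]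
  simp

omit [Invertible (2 : L)] in
lemma βγ₁ : D.β * D.γ₁ = 1 - D.τ * D.σ := by
  rw [γ₁, ← Matrix.mul_assoc, D.βγ₀, D.idem]

omit [Invertible (2 : L)] in
lemma γ₁P : D.γ₁ * (1 - D.τ * D.σ) = D.γ₁ := by
  rw [γ₁, Matrix.mul_assoc, D.idem]

lemma βγ : D.β * D.γ = 1 - D.τ * D.σ := by
  rw [γ, Matrix.mul_sub, Matrix.mul_smul, ← Matrix.mul_assoc D.β D.A, D.βA, Matrix.zero_mul,
    smul_zero, sub_zero, D.βγ₁]

lemma γτ : D.γ * D.τ = 0 := by
  rw [γ, Matrix.sub_mul, D.γ₁τ, Matrix.smul_mul, Matrix.mul_assoc D.A, Matrix.mul_assoc _ D.γ₁,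
    D.γ₁τ, Matrix.mul_zero, Matrix.mul_zero, smul_zero, sub_zero]

lemma γP : D.γ * (1 - D.τ * D.σ) = D.γ := by
  rw [Matrix.mul_sub, Matrix.mul_one, ← Matrix.mul_assoc, D.γτ, Matrix.zero_mul, sub_zero]

omit [Invertible (2 : L)] in
lemma star_half [Invertible (2 : L)] : star (⅟2 : L) = ⅟2 := by
  have h : star (⅟2 : L) * 2 = 1 := by
    have := congrArg star (invOf_mul_self (2 : L))
    rwa [star_mul', star_ofNat, star_one] at this
  calc star (⅟2 : L) = star (⅟2 : L) * (2 * ⅟2) := by rw [mul_invOf_self, mul_one]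
    _ = ⅟2 := by rw [← mul_assoc, h, one_mul]

lemma γHγ : D.γᴴ * D.H * D.γ = 0 := by
  set X := D.γ₁ᴴ * D.H * D.γ₁ with hX
  have hXs : Xᴴ = X := by
    rw [hX, conjTranspose_mul, conjTranspose_mul, conjTranspose_conjTranspose, D.hH,
      Matrix.mul_assoc]
  have e1 : D.γ₁ᴴ * D.H * (D.A * X) = X := by
    rw [Matrix.mul_assoc D.γ₁ᴴ, ← Matrix.mul_assoc D.H, D.HA, ← Matrix.mul_assoc,
      ← conjTranspose_mul, D.βγ₁]
    rw [hX, Matrix.mul_assoc D.γ₁ᴴ, ← Matrix.mul_assoc, ← conjTranspose_mul, D.γ₁P]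
  have e2 : (D.A * X)ᴴ * D.H * D.γ₁ = X := by
    have := congrArg conjTranspose e1
    rw [hXs] at this
    refine Eq.trans ?_ this
    simp only [conjTranspose_mul, conjTranspose_conjTranspose, D.hH, Matrix.mul_assoc]
  have e3 : (D.A * X)ᴴ * D.H * (D.A * X) = 0 := by
    rw [conjTranspose_mul, Matrix.mul_assoc Xᴴ, D.AH, Matrix.mul_assoc, ← Matrix.mul_assoc D.β,
      D.βA, Matrix.zero_mul, Matrix.mul_zero]
  have hγ : D.γ = D.γ₁ - (⅟2 : L) • (D.A * X) := rfl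
  rw [hγ, conjTranspose_sub, conjTranspose_smul, star_half, Matrix.sub_mul, Matrix.sub_mul,
    Matrix.mul_sub, Matrix.mul_sub, Matrix.smul_mul, Matrix.smul_mul, Matrix.mul_smul,
    Matrix.mul_smul, Matrix.smul_mul, e1, e2, e3, ← hX, smul_zero, smul_zero, sub_zero]
  have h2 : (⅟2 : L) • X + (⅟2 : L) • X = X := by
    rw [← add_smul, ← two_mul, mul_invOf_self, one_smul]
  calc X - (⅟2 : L) • X - (⅟2 : L) • X = X - ((⅟2 : L) • X + (⅟2 : L) • X) := by abel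
    _ = 0 := by rw [h2, sub_self]

/-- `γ* H A = (1 - τσ)*` -/
lemma γHA : D.γᴴ * D.H * D.A = (1 - D.τ * D.σ)ᴴ := by
  rw [Matrix.mul_assoc, D.HA, ← conjTranspose_mul, D.βγ]

lemma βe : D.β * D.e = 0 := by
  rw [e, Matrix.mul_sub, Matrix.mul_sub, Matrix.mul_one, ← Matrix.mul_assoc, D.βγ,
    ← Matrix.mul_assoc D.β D.A, D.βA, Matrix.zero_mul, sub_zero, Matrix.sub_mul, Matrix.one_mul,
    Matrix.mul_assoc, D.σβ, Matrix.mul_zero, sub_zero, sub_self]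

lemma γHe : D.γᴴ * D.H * D.e = 0 := by
  have h : D.γᴴ * D.H * (D.A * (D.γᴴ * D.H)) = D.γᴴ * D.H := by
    rw [← Matrix.mul_assoc, D.γHA, ← Matrix.mul_assoc, ← conjTranspose_mul, D.γP]
  rw [e, Matrix.mul_sub, Matrix.mul_sub, Matrix.mul_one, h, ← Matrix.mul_assoc, D.γHγ,
    Matrix.zero_mul, sub_zero, sub_self]

lemma eγ : D.e * D.γ = 0 := by
  rw [e, Matrix.sub_mul, Matrix.sub_mul, Matrix.one_mul, Matrix.mul_assoc D.γ, D.βγ, D.γP,
    Matrix.mul_assoc D.A, D.γHγ, Matrix.mul_zero, sub_self, sub_zero]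

lemma eA : D.e * D.A = 0 := by
  rw [e, Matrix.sub_mul, Matrix.sub_mul, Matrix.one_mul, Matrix.mul_assoc D.γ, D.βA,
    Matrix.mul_zero, sub_zero, Matrix.mul_assoc D.A, D.γHA, conjTranspose_sub, conjTranspose_one,
    conjTranspose_mul, Matrix.mul_sub, Matrix.mul_one, ← Matrix.mul_assoc, D.Aσ, Matrix.zero_mul,
    sub_zero, sub_self]

lemma ee : D.e * D.e = D.e := by
  have h : D.e * D.e = D.e * (1 - D.γ * D.β - D.A * (D.γᴴ * D.H)) := rfl
  rw [h, Matrix.mul_sub, Matrix.mul_sub, Matrix.mul_one, ← Matrix.mul_assoc D.e D.γ,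
    ← Matrix.mul_assoc D.e D.A, D.eγ, D.eA, Matrix.zero_mul, Matrix.zero_mul, sub_zero, sub_zero]

/-- `e` is `H`-selfadjoint -/
lemma He : D.H * D.e = D.eᴴ * D.H := by
  have h1 : D.H * D.e = D.H - D.H * D.γ * D.β - D.βᴴ * (D.γᴴ * D.H) := by
    rw [e, Matrix.mul_sub, Matrix.mul_sub, Matrix.mul_one, ← Matrix.mul_assoc,
      ← Matrix.mul_assoc D.H D.A, D.HA]
  have h2 : (D.H * D.e)ᴴ = D.H * D.e := by
    rw [h1, conjTranspose_sub, conjTranspose_sub, conjTranspose_mul, conjTranspose_mul,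
      conjTranspose_mul, conjTranspose_mul, conjTranspose_conjTranspose,
      conjTranspose_conjTranspose, D.hH]
    abel
  rw [← h2, conjTranspose_mul, D.hH]

/-- `f₁ = (β, τ, 0)`, `f₂ = (γ* H, 0, σ*)`, as one matrix -/
def F : Matrix (p ⊕ p) (m ⊕ (q ⊕ q)) L :=
  fromBlocks D.β (fromCols D.τ 0) (D.γᴴ * D.H) (fromCols 0 D.σᴴ)

/-- `g₁ = (γ, σ, 0)`, `g₂ = (A, 0, τ*)`, as one matrix -/
def G : Matrix (m ⊕ (q ⊕ q)) (p ⊕ p) L :=
  fromBlocks D.γ D.A (fromRows D.σ 0) (fromRows 0 D.τᴴ)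

/-- `e` as a matrix `L^m ⊕ L^q ⊕ L^q → L^m` -/
def eR : Matrix m (m ⊕ (q ⊕ q)) L := fromCols D.e 0

/-- `e` as a matrix `L^m → L^m ⊕ L^q ⊕ L^q` -/
def eL : Matrix (m ⊕ (q ⊕ q)) m L := fromRows D.e 0

lemma FG : D.F * D.G = 1 := by
  rw [F, G, fromBlocks_multiply, fromCols_mul_fromRows, fromCols_mul_fromRows,
    fromCols_mul_fromRows, fromCols_mul_fromRows, ← fromBlocks_one]
  congr 1
  · rw [D.βγ]; simp
  · rw [D.βA]; simp
  · rw [D.γHγ]; simp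
  · rw [D.γHA, conjTranspose_sub, conjTranspose_mul]; simp

lemma F_eL : D.F * D.eL = 0 := by
  rw [F, eL, fromBlocks_mul_fromRows, D.βe, D.γHe]
  simp

lemma eR_G : D.eR * D.G = 0 := by
  rw [G, eR, fromCols_mul_fromBlocks, D.eγ, D.eA]
  simp

lemma eR_eL : D.eR * D.eL = D.e := by
  rw [eR, eL, fromCols_mul_fromRows, D.ee]; simp

/-- the resolution of the identity `e + g₁f₁ + g₂f₂ = 1` -/
lemma resol : D.eL * D.eR + D.G * D.F = 1 := by
  rw [eL, eR, fromRows_mul_fromCols, G, F, fromBlocks_multiply, fromBlocks_add, ← fromBlocks_one]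
  have hτγ : D.τᴴ * (D.γᴴ * D.H) = 0 := by
    rw [← Matrix.mul_assoc, ← conjTranspose_mul, D.γτ, conjTranspose_zero, Matrix.zero_mul]
  have hτσ : D.τᴴ * D.σᴴ = 1 := by rw [← conjTranspose_mul, D.στ, conjTranspose_one]
  congr 1
  · rw [D.ee, e]; abel
  · rw [mul_fromCols, mul_fromCols, D.γτ, D.Aσ]; simp
  · rw [fromRows_mul, fromRows_mul, D.σβ, hτγ]; simp
  · rw [fromRows_mul_fromCols, fromRows_mul_fromCols, D.στ, hτσ, ← fromBlocks_one]
    simp [fromBlocks_add]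

/-- the reduced form `H₁ = e* H e + f₁* f₁ + f₂* f₂` -/
def H₁ : Matrix (m ⊕ (q ⊕ q)) (m ⊕ (q ⊕ q)) L := D.eRᴴ * D.H * D.eR + D.Fᴴ * D.F

/-- its inverse -/
def K₁ : Matrix (m ⊕ (q ⊕ q)) (m ⊕ (q ⊕ q)) L := D.eL * D.K * D.eLᴴ + D.G * D.Gᴴ

/-- `H₁` is hermitian -/
lemma hH₁ : D.H₁ᴴ = D.H₁ := by
  simp only [H₁, conjTranspose_add, conjTranspose_mul, conjTranspose_conjTranspose, D.hH,
    Matrix.mul_assoc]

lemma hK₁ : D.K₁ᴴ = D.K₁ := by
  simp only [K₁, conjTranspose_add, conjTranspose_mul, conjTranspose_conjTranspose, D.hK,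
    Matrix.mul_assoc]

/-- `e_R* = e_R* e*`-type identity -/
lemma e_eR : D.e * D.eR = D.eR := by
  rw [eR, mul_fromCols, D.ee, Matrix.mul_zero]

lemma eL_e : D.eL * D.e = D.eL := by
  rw [eL, fromRows_mul, D.ee, Matrix.zero_mul]

/-- `H₁ K₁ = 1` -/
lemma H₁K₁ : D.H₁ * D.K₁ = 1 := by
  have h1 : D.eRᴴ * D.H * D.eR * (D.eL * D.K * D.eLᴴ) = D.eRᴴ * D.eLᴴ := by
    have hk : D.H * D.e * D.K = D.eᴴ := by
      rw [D.He, Matrix.mul_assoc, D.HK, Matrix.mul_one]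
    calc D.eRᴴ * D.H * D.eR * (D.eL * D.K * D.eLᴴ)
        = D.eRᴴ * (D.H * (D.eR * D.eL) * D.K) * D.eLᴴ := by simp only [Matrix.mul_assoc]
      _ = D.eRᴴ * D.eᴴ * D.eLᴴ := by rw [D.eR_eL, hk]
      _ = D.eRᴴ * D.eLᴴ := by rw [← conjTranspose_mul, D.e_eR]
  have h2 : D.eRᴴ * D.H * D.eR * (D.G * D.Gᴴ) = 0 := by
    rw [Matrix.mul_assoc, ← Matrix.mul_assoc D.eR, D.eR_G, Matrix.zero_mul, Matrix.mul_zero]
  have h3 : D.Fᴴ * D.F * (D.eL * D.K * D.eLᴴ) = 0 := by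
    rw [Matrix.mul_assoc D.Fᴴ, Matrix.mul_assoc D.eL, ← Matrix.mul_assoc D.F, D.F_eL,
      Matrix.zero_mul, Matrix.mul_zero]
  have h4 : D.Fᴴ * D.F * (D.G * D.Gᴴ) = D.Fᴴ * D.Gᴴ := by
    rw [Matrix.mul_assoc, ← Matrix.mul_assoc D.F, D.FG, Matrix.one_mul]
  rw [H₁, K₁, Matrix.add_mul, Matrix.mul_add, Matrix.mul_add, h1, h2, h3, h4, add_zero, zero_add,
    ← conjTranspose_mul, ← conjTranspose_mul, ← conjTranspose_add, D.resol, conjTranspose_one]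

/-- `K₁ H₁ = 1` -/
lemma K₁H₁ : D.K₁ * D.H₁ = 1 := by
  have := congrArg conjTranspose D.H₁K₁
  rwa [conjTranspose_mul, D.hH₁, D.hK₁, conjTranspose_one] at this

/-- value of `H₁` on the image of `e` -/
lemma eLHeL {k l : Type*} [Fintype k] [Fintype l] (x : Matrix m k L) (y : Matrix m l L)
    (hx : D.e * x = x) (hy : D.e * y = y) :
    (D.eL * x)ᴴ * D.H₁ * (D.eL * y) = xᴴ * D.H * y := by
  have h1 : D.eR * (D.eL * y) = y := by rw [← Matrix.mul_assoc, D.eR_eL, hy]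
  have h2 : (D.eL * x)ᴴ * D.eRᴴ = xᴴ := by
    rw [← conjTranspose_mul, ← Matrix.mul_assoc, D.eR_eL, hx]
  have h3 : D.F * (D.eL * y) = 0 := by rw [← Matrix.mul_assoc, D.F_eL, Matrix.zero_mul]
  calc (D.eL * x)ᴴ * D.H₁ * (D.eL * y)
      = ((D.eL * x)ᴴ * D.eRᴴ) * D.H * (D.eR * (D.eL * y))
        + (D.eL * x)ᴴ * D.Fᴴ * (D.F * (D.eL * y)) := by
        simp only [H₁, Matrix.mul_add, Matrix.add_mul, Matrix.mul_assoc]
    _ = xᴴ * D.H * y := by rw [h1, h2, h3, Matrix.mul_zero, add_zero]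

end RedIn

end Pool.Agent.PD4.Alg
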