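import Pool.Agent.PD4.Alg.SigB

/-!
# Project PD4, algebra block: the form `φ_ω`, its signature and the certificate (owner: helper74)
-/

namespace Pool.Agent.PD4.Alg

open Matrix

/-- `x_i x_j x_k x_l ω = phi4 i j k l [T]` for the landed class `ω` -/
def phi4 (i j k l : Fin 8) : ℤ :=
  (H74.TorusE8.omData.map fun t => t.2 * H74.TorusE8.sgnL [i, j, k, l,
    t.1 0, t.1 1, t.1 2, t.1 3]).sum

theorem phi4_eq (i j k l : Fin 8) : phi4 i j k l = omC i j k l := rfl

theorem phi4_prs (p q : Fin 28) :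
    phi4 (H74.TorusE8.prs p).1 (H74.TorusE8.prs p).2 (H74.TorusE8.prs q).1
      (H74.TorusE8.prs q).2 = H74.TorusE8.G p q := by
  rw [← H74.TorusE8.gramEntry_eq]
  rfl

/-- antisymmetry in the first pair -/
theorem phi4_swap (i j k l : Fin 8) : phi4 j i k l = - phi4 i j k l :=
  omC_swap₁ i j k l

theorem G_symm : ∀ p q : Fin 28, H74.TorusE8.G p q = H74.TorusE8.G q p := by decide +kernel

theorem phi4_symm (i j k l : Fin 8) : phi4 k l i j = phi4 i j k l := by
  rw [phi4_eq, phi4_eq, omC_eq, omC_eq, Finset.sum_comm]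
  refine Finset.sum_congr rfl fun p _ => Finset.sum_congr rfl fun q _ => ?_
  rw [G_symm q p]
  ring

/-- nondegeneracy in the form needed in `Pos.lean` -/
theorem phi4_nd (α : Fin 8 → Fin 8 → ℝ)
    (h : ∀ i j, ∑ u, ∑ v, α u v * (phi4 i j u v : ℝ) = 0) (k l : Fin 8) :
    ∑ u, ∑ v, α u v * (phi4 u v k l : ℝ) = 0 := by
  rw [← h k l]
  refine Finset.sum_congr rfl fun u _ => Finset.sum_congr rfl fun v _ => ?_
  rw [phi4_symm]

/-- **Signature lemma.**  `H` real symmetric, vectors `b_ij` with Gram matrix `phi4`, `H` positive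
off them.  Then `H` has exactly ten negative directions, and in suitable coordinates seven linear
forms vanishing on the positive ones give the imaginary part of the octonion product. -/
theorem sig_lemma {J : Type} [Fintype J] [DecidableEq J] (H : Matrix J J ℝ) (hH : Hᵀ = H)
    (b : Fin 8 → Fin 8 → J → ℝ)
    (hb : ∀ i j k l, b i j ⬝ᵥ (H *ᵥ b k l) = phi4 i j k l)
    (hpos : ∀ z : J → ℝ, (∀ i j, b i j ⬝ᵥ (H *ᵥ z) = 0) → z ≠ 0 → 0 < z ⬝ᵥ (H *ᵥ z)) :
    ∃ (S : Matrix J J ℝ) (s : Finset J), s.card = 10 ∧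
      Sᵀ * H * S = Matrix.diagonal (fun i => if i ∈ s then (-1 : ℝ) else 1) ∧
      ∃ lam : Matrix (Fin 7) J ℝ, (∀ i ∉ s, ∀ c, (lam * S) c i = 0) ∧
        ∀ j l c, (lam *ᵥ b j l) c = yOct j c.succ l := by
  obtain ⟨S, τ, hS, hτ⟩ := exists_normal H hH b hb hpos
  refine ⟨S, Finset.univ.map τ, ?_, hS, Matrix.of (lamK H b), ?_, ?_⟩
  · rw [Finset.card_map, Finset.card_univ, Fintype.card_fin]
  · intro i hi c
    have h0 : (Matrix.of (lamK H b) * S) c i = ∑ x, lamK H b c x * S x i := rfl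
    rw [h0, lamK_dot H b c (fun x => S x i)]
    exact YGI_fv H b c _ (hτ i hi)
  · intro j l k
    have h0 : (Matrix.of (lamK H b) *ᵥ b j l) k = ∑ x, lamK H b k x * b j l x := rfl
    rw [h0, lamK_dot H b k (b j l), b_eq_sum H b hb hpos j l, cY]
    have h3 : ∀ p, bf H (bv b p) (∑ q, (wdg q j l : ℝ) • bv b q) =
        ∑ q, (wdg q j l : ℝ) * (H74.TorusE8.G p q : ℝ) := by
      intro p
      rw [map_sum]
      refine Finset.sum_congr rfl fun q _ => ?_
      rw [map_smul, bf_bv H b hb, smul_eq_mul]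
    simp only [h3, Finset.mul_sum]
    rw [Finset.sum_comm]
    push_cast
    refine Finset.sum_congr rfl fun q _ => ?_
    have h4 : (∑ p, (YGI k p : ℝ) * (H74.TorusE8.G p q : ℝ)) = (Y7 k q : ℝ) := by
      exact_mod_cast cYGI k q
    rw [← h4, Finset.sum_mul]
    refine Finset.sum_congr rfl fun p _ => ?_
    ring

end Pool.Agent.PD4.Alg
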