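import Mathlib

/-!
# Project PD4, algebra block: real frames adapted to a form (helper74)
-/

namespace Pool.Agent.PD4.Alg

open Matrix

section frame

variable {J : Type*} [Fintype J] [DecidableEq J]

/-- a positive definite real matrix is `Rᵀ R` with `R` invertible -/
lemma exists_sq (M : Matrix J J ℝ) (hs : Mᵀ = M)
    (hp : ∀ z : J → ℝ, z ≠ 0 → 0 < z ⬝ᵥ (M *ᵥ z)) :
    ∃ R : Matrix J J ℝ, IsUnit R ∧ M = Rᵀ * R := by
  have hM : M.PosDef := by
    rw [posDef_iff_dotProduct_mulVec]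
    refine ⟨?_, fun {x} hx => ?_⟩
    · rw [Matrix.IsHermitian, conjTranspose_eq_transpose_of_trivial, hs]
    · rw [star_trivial]
      exact hp x hx
  open scoped MatrixOrder Matrix.Norms.L2Operator in
  obtain ⟨y, hy, h⟩ := CStarAlgebra.isStrictlyPositive_iff_eq_star_mul_self.mp
    hM.isStrictlyPositive
  refine ⟨y, hy, ?_⟩
  rw [h, star_eq_conjTranspose, conjTranspose_eq_transpose_of_trivial]

omit [DecidableEq J] in
lemma inner_toLp (a b : J → ℝ) :
    inner ℝ (WithLp.toLp 2 a : EuclideanSpace ℝ J) (WithLp.toLp 2 b) = a ⬝ᵥ b := by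
  rw [PiLp.inner_apply]
  simp only [dotProduct, RCLike.inner_apply, conj_trivial]
  exact Finset.sum_congr rfl fun i _ => mul_comm _ _

/-- extension of an `M`-orthonormal family to an `M`-orthonormal basis -/
lemma exists_frame (M : Matrix J J ℝ) (hs : Mᵀ = M)
    (hp : ∀ z : J → ℝ, z ≠ 0 → 0 < z ⬝ᵥ (M *ᵥ z)) {m : ℕ} (e : Fin m → J → ℝ)
    (he : ∀ i j, e i ⬝ᵥ (M *ᵥ e j) = if i = j then 1 else 0) :
    ∃ (S : Matrix J J ℝ) (τ : Fin m ↪ J), Sᵀ * M * S = 1 ∧ ∀ i, (fun j => S j (τ i)) = e i := by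
  obtain ⟨R, hR, hMR⟩ := exists_sq M hs hp
  set v : Fin m → EuclideanSpace ℝ J := fun i => WithLp.toLp 2 (R *ᵥ e i) with hv
  have hon : Orthonormal ℝ v := by
    rw [orthonormal_iff_ite]
    intro i j
    rw [hv, inner_toLp, ← he i j, hMR, ← Matrix.mulVec_mulVec, Matrix.dotProduct_mulVec (e i) Rᵀ,
      Matrix.vecMul_transpose]
  have hcard : m ≤ Fintype.card J := by
    have := hon.linearIndependent.fintype_card_le_finrank
    simpa using this
  obtain ⟨τ⟩ : Nonempty (Fin m ↪ J) := by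
    apply Function.Embedding.nonempty_of_card_le
    simpa using hcard
  classical
  set w : J → EuclideanSpace ℝ J := fun j => if h : ∃ i, τ i = j then v h.choose else 0 with hw
  have hwτ : ∀ i, w (τ i) = v i := by
    intro i
    have h : ∃ k, τ k = τ i := ⟨i, rfl⟩
    have h2 : w (τ i) = v h.choose := dif_pos h
    rw [h2]
    exact congrArg v (τ.injective h.choose_spec)
  have hws : Orthonormal ℝ ((Set.range τ).domRestrict w) := by
    rw [orthonormal_iff_ite]
    rintro ⟨_, i, rfl⟩ ⟨_, j, rfl⟩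
    rw [orthonormal_iff_ite] at hon
    change inner ℝ (w (τ i)) (w (τ j)) = _
    rw [hwτ, hwτ, hon i j]
    by_cases hij : i = j
    · subst hij
      simp
    · rw [if_neg hij, if_neg]
      intro h
      exact hij (τ.injective (congrArg Subtype.val h))
  obtain ⟨b, hb⟩ := hws.exists_orthonormalBasis_extension_of_card_eq (ι := J) (by simp)
  set O : Matrix J J ℝ := Matrix.of fun j k => b k j with hO
  have hOO : Oᵀ * O = 1 := by
    ext i j
    rw [Matrix.mul_apply, Matrix.one_apply, ← orthonormal_iff_ite.mp b.orthonormal i j,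
      PiLp.inner_apply]
    refine Finset.sum_congr rfl fun k _ => ?_
    simp [hO, mul_comm]
  obtain ⟨Ri, hRi, hRi'⟩ : ∃ Ri : Matrix J J ℝ, R * Ri = 1 ∧ Ri * R = 1 := by
    obtain ⟨u, rfl⟩ := hR
    exact ⟨_, Units.mul_inv u, Units.inv_mul u⟩
  refine ⟨Ri * O, τ, ?_, fun i => ?_⟩
  · have h2 : Riᵀ * Rᵀ = 1 := by
      rw [← Matrix.transpose_mul, hRi, Matrix.transpose_one]
    rw [hMR, Matrix.transpose_mul]
    calc Oᵀ * Riᵀ * (Rᵀ * R) * (Ri * O)
        = Oᵀ * (Riᵀ * Rᵀ) * (R * Ri) * O := by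
          simp only [Matrix.mul_assoc]
      _ = 1 := by rw [h2, hRi, Matrix.mul_one, Matrix.mul_one, hOO]
  · have h3 : (fun j => O j (τ i)) = R *ᵥ e i := by
      have := hb (τ i) ⟨i, rfl⟩
      rw [hwτ] at this
      funext j
      change b (τ i) j = _
      rw [this]
    have h4 : (fun j => (Ri * O) j (τ i)) = Ri *ᵥ (fun j => O j (τ i)) := by
      funext j
      rfl
    rw [h4, h3, Matrix.mulVec_mulVec, hRi', Matrix.one_mulVec]

end frame

end Pool.Agent.PD4.Alg
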