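import Pool.Agent.PD4.Alg.SigA
import Pool.Agent.PD4.Cert2

/-!
# Project PD4, algebra block: normal form at `1` (owner: helper74)

Input: a real symmetric matrix `H` and vectors `b u v` with `b_ij · H b_kl = omC i j k l` (the
values of `x_i x_j x_k x_l ω` on `[T]`), `H` positive on the orthogonal complement of the `b u v`.
Output: the fields `S`, `s`, `lam` of `IfaceData` for `H ⊕ (-1)`.
-/

namespace Pool.Agent.PD4.Alg

open Matrix Pool.Agent.H74

variable {J : Type*} [Fintype J] [DecidableEq J]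

section

variable (H : Matrix J J ℝ) (hH : Hᵀ = H) (b : Fin 8 → Fin 8 → J → ℝ)
  (hb : ∀ i j k l, b i j ⬝ᵥ (H *ᵥ b k l) = (omC i j k l : ℝ))
  (hpos : ∀ z : J → ℝ, (∀ u v, b u v ⬝ᵥ (H *ᵥ z) = 0) → z ≠ 0 → 0 < z ⬝ᵥ (H *ᵥ z))

/-- the bilinear form of `H` -/
noncomputable def bf (H : Matrix J J ℝ) : (J → ℝ) →ₗ[ℝ] (J → ℝ) →ₗ[ℝ] ℝ :=
  Matrix.toLinearMap₂' ℝ H

omit [DecidableEq J] in
lemma bf_apply [DecidableEq J] (H : Matrix J J ℝ) (x y : J → ℝ) : bf H x y = x ⬝ᵥ (H *ᵥ y) :=
  Matrix.toLinearMap₂'_apply' H x y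

include hH in
lemma bf_symm (x y : J → ℝ) : bf H x y = bf H y x := by
  rw [bf_apply, bf_apply, Matrix.dotProduct_mulVec, dotProduct_comm, ← Matrix.mulVec_transpose, hH]

/-- the vectors `b (prs p)` -/
def bv (b : Fin 8 → Fin 8 → J → ℝ) (p : Fin 28) : J → ℝ :=
  b (TorusE8.prs p).1 (TorusE8.prs p).2

/-- the orthogonal vectors -/
noncomputable def fv (b : Fin 8 → Fin 8 → J → ℝ) (i : Fin 28) : J → ℝ :=
  ∑ p, (TT p i : ℝ) • bv b p

include hb in
lemma bf_b (i j k l : Fin 8) : bf H (b i j) (b k l) = (omC i j k l : ℝ) := by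
  rw [bf_apply, hb]

include hb in
lemma bf_bv (p q : Fin 28) : bf H (bv b p) (bv b q) = (TorusE8.G p q : ℝ) := by
  rw [bv, bv, bf_b H b hb, omC_prs]

include hb hpos in
/-- `b` is antisymmetric -/
lemma b_swap (u v : Fin 8) : b v u = -b u v := by
  have hz : ∀ i j, bf H (b i j) (b v u + b u v) = 0 := by
    intro i j
    rw [map_add, bf_b H b hb, bf_b H b hb, omC_swap₂ i j u v]
    push_cast
    ring
  by_contra hne
  have hne' : b v u + b u v ≠ 0 := fun h => hne (eq_neg_of_add_eq_zero_left h)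
  have := hpos (b v u + b u v) (fun i j => by rw [← bf_apply]; exact hz i j) hne'
  rw [← bf_apply, LinearMap.map_add₂, hz, hz, add_zero] at this
  exact lt_irrefl _ this

include hb hpos in
lemma b_eq_sum (u v : Fin 8) : b u v = ∑ p, (wdg p u v : ℝ) • bv b p := by
  have h := antisymm_sum b (b_swap H b hb hpos) u v
  rw [h]
  refine Finset.sum_congr rfl fun p _ => ?_
  rw [bv, Int.cast_smul_eq_zsmul]

include hb in
lemma bf_fv (i j : Fin 28) : bf H (fv b i) (fv b j) = if i = j then (dd i : ℝ) else 0 := by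
  have h1 : bf H (fv b i) (fv b j) = ((∑ p, TT p i * GT p j : ℤ) : ℝ) := by
    conv_lhs => rw [fv]
    rw [LinearMap.map_sum₂]
    push_cast
    refine Finset.sum_congr rfl fun p _ => ?_
    rw [LinearMap.map_smul₂, fv, map_sum, smul_eq_mul, ← cGT]
    push_cast
    congr 1
    refine Finset.sum_congr rfl fun q _ => ?_
    rw [map_smul, smul_eq_mul, bf_bv H b hb, mul_comm]
  rw [h1, cT]
  push_cast
  rfl

omit [Fintype J] [DecidableEq J] in
/-- `bv` in terms of `fv` -/
lemma bv_eq (q : Fin 28) : (60 : ℝ) • bv b q = ∑ i, ((qq i * GT q i : ℤ) : ℝ) • fv b i := by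
  have h : ∑ i, ((qq i * GT q i : ℤ) : ℝ) • fv b i =
      ∑ p, ((∑ i, TT p i * (qq i * GT q i) : ℤ) : ℝ) • bv b p := by
    simp only [fv, Finset.smul_sum, smul_smul]
    rw [Finset.sum_comm]
    refine Finset.sum_congr rfl fun p _ => ?_
    rw [← Finset.sum_smul]
    congr 1
    push_cast
    refine Finset.sum_congr rfl fun i _ => ?_
    ring
  rw [h]
  simp only [cI]
  rw [Finset.sum_eq_single q]
  · rw [if_pos rfl]
    norm_num
  · intro p _ hp
    rw [if_neg hp]
    simp
  · intro h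
    exact absurd (Finset.mem_univ _) h

include hb hpos in
lemma bf_b_of_fv (z : J → ℝ) (hz : ∀ i, bf H (fv b i) z = 0) (u v : Fin 8) :
    bf H (b u v) z = 0 := by
  rw [b_eq_sum H b hb hpos u v, map_sum, LinearMap.sum_apply]
  refine Finset.sum_eq_zero fun q _ => ?_
  have h : (60 : ℝ) * bf H (bv b q) z = 0 := by
    rw [← smul_eq_mul, ← LinearMap.smul_apply, ← map_smul, bv_eq, map_sum, LinearMap.sum_apply]
    refine Finset.sum_eq_zero fun i _ => ?_
    rw [map_smul, LinearMap.smul_apply, hz, smul_zero]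
  have h2 : bf H (bv b q) z = 0 := by linarith
  rw [map_smul, LinearMap.smul_apply, h2, smul_zero]

lemma dd_ne (i : Fin 28) : (dd i : ℝ) ≠ 0 := by
  rcases lt_or_ge (i : ℕ) 10 with h | h
  · exact_mod_cast (dd_neg i h).ne
  · exact_mod_cast (dd_pos i h).ne'

include hH hb hpos in
/-- the decomposition of `z ⬝ᵥ H z` -/
lemma decomp (z : J → ℝ) (hz : z ≠ 0) :
    0 < bf H z z - 2 * ∑ i ∈ Finset.univ.filter (fun i : Fin 28 => (i : ℕ) < 10),
      (bf H (fv b i) z) ^ 2 / (dd i : ℝ) := by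
  set c : Fin 28 → ℝ := fun i => bf H (fv b i) z with hc
  set m : J → ℝ := ∑ i, (c i / dd i) • fv b i with hm
  set k : J → ℝ := z - m with hk
  have hfm : ∀ j, bf H (fv b j) m = c j := by
    intro j
    rw [hm, map_sum, Finset.sum_eq_single j]
    · rw [map_smul, bf_fv H b hb, if_pos rfl, smul_eq_mul, div_mul_cancel₀ _ (dd_ne j)]
    · intro i _ hi
      rw [map_smul, bf_fv H b hb, if_neg hi.symm, smul_zero]
    · intro h
      exact absurd (Finset.mem_univ _) h
  have hfk : ∀ j, bf H (fv b j) k = 0 := by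
    intro j
    rw [hk, map_sub, hfm, hc]
    exact sub_self _
  have hmm : bf H m m = ∑ i, c i ^ 2 / dd i := by
    have h1 : bf H m m = bf H (∑ i, (c i / dd i) • fv b i) m := rfl
    rw [h1, LinearMap.map_sum₂]
    refine Finset.sum_congr rfl fun i _ => ?_
    rw [LinearMap.map_smul₂, hfm, smul_eq_mul]
    ring
  have hmk : bf H m k = 0 := by
    have h1 : bf H m k = bf H (∑ i, (c i / dd i) • fv b i) k := rfl
    rw [h1, LinearMap.map_sum₂]
    refine Finset.sum_eq_zero fun i _ => ?_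
    rw [LinearMap.map_smul₂, hfk, smul_zero]
  have hzz : bf H z z = ∑ i, c i ^ 2 / dd i + bf H k k := by
    have h1 : z = m + k := by rw [hk]; abel
    have h2 : bf H k m = 0 := by rw [bf_symm H hH, hmk]
    conv_lhs => rw [h1]
    rw [LinearMap.map_add₂, map_add, map_add, hmm, hmk, h2]
    ring
  have hsum : bf H z z - 2 * ∑ i ∈ Finset.univ.filter (fun i : Fin 28 => (i : ℕ) < 10),
      c i ^ 2 / (dd i : ℝ) = ∑ i, c i ^ 2 / |(dd i : ℝ)| + bf H k k := by
    rw [hzz]
    have h1 : ∑ i, c i ^ 2 / |(dd i : ℝ)| = ∑ i, (c i ^ 2 / dd i -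
        2 * if (i : ℕ) < 10 then c i ^ 2 / (dd i : ℝ) else 0) := by
      refine Finset.sum_congr rfl fun i _ => ?_
      rcases lt_or_ge (i : ℕ) 10 with h | h
      · have h2 : (dd i : ℝ) < 0 := by exact_mod_cast dd_neg i h
        rw [abs_of_neg h2, if_pos h, div_neg]
        ring
      · have h2 : (0 : ℝ) < dd i := by exact_mod_cast dd_pos i h
        rw [abs_of_pos h2, if_neg (not_lt.mpr h)]
        ring
    rw [h1, Finset.sum_sub_distrib, ← Finset.mul_sum, ← Finset.sum_filter]
    ring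
  have hgoal : (∑ i ∈ Finset.univ.filter (fun i : Fin 28 => (i : ℕ) < 10),
      (bf H (fv b i) z) ^ 2 / (dd i : ℝ)) =
      ∑ i ∈ Finset.univ.filter (fun i : Fin 28 => (i : ℕ) < 10), c i ^ 2 / (dd i : ℝ) := rfl
  rw [hgoal, hsum]
  have hnn : ∀ i ∈ Finset.univ, 0 ≤ c i ^ 2 / |(dd i : ℝ)| := fun i _ => by positivity
  by_cases hk0 : k = 0
  · have hex : ∃ i, c i ≠ 0 := by
      by_contra hcon
      push Not at hcon
      apply hz
      have h1 : z = m + k := by rw [hk]; abel
      rw [h1, hk0, add_zero, hm]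
      refine Finset.sum_eq_zero fun i _ => ?_
      rw [hcon i, zero_div, zero_smul]
    obtain ⟨i, hi⟩ := hex
    have h1 : 0 < c i ^ 2 / |(dd i : ℝ)| :=
      div_pos (by positivity) (abs_pos.mpr (dd_ne i))
    have h2 : 0 < ∑ i, c i ^ 2 / |(dd i : ℝ)| := Finset.sum_pos' hnn ⟨i, Finset.mem_univ _, h1⟩
    rw [hk0, map_zero, add_zero]
    exact h2
  · have h1 : 0 < bf H k k := by
      rw [bf_apply]
      refine hpos k (fun u v => ?_) hk0
      rw [← bf_apply]
      exact bf_b_of_fv H b hb hpos k hfk u v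
    have h2 : 0 ≤ ∑ i, c i ^ 2 / |(dd i : ℝ)| := Finset.sum_nonneg hnn
    linarith

/-- the normalised negative vectors -/
noncomputable def ev (b : Fin 8 → Fin 8 → J → ℝ) (i : Fin 10) : J → ℝ :=
  (Real.sqrt (-(dd (Fin.castLE (by norm_num) i) : ℝ)))⁻¹ • fv b (Fin.castLE (by norm_num) i)

lemma dd_cast_neg (i : Fin 10) : (dd (Fin.castLE (by norm_num) i) : ℝ) < 0 := by
  exact_mod_cast dd_neg _ i.2

include hb in
lemma bf_ev (i j : Fin 10) : bf H (ev b i) (ev b j) = if i = j then -1 else 0 := by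
  rw [ev, ev, LinearMap.map_smul₂, map_smul, bf_fv H b hb]
  by_cases h : i = j
  · subst h
    rw [if_pos rfl, if_pos rfl]
    have h1 := dd_cast_neg i
    have h2 : (0 : ℝ) < -(dd (Fin.castLE (by norm_num) i) : ℝ) := by linarith
    rw [smul_eq_mul, smul_eq_mul, ← mul_assoc, ← mul_inv, Real.mul_self_sqrt h2.le, inv_neg,
      neg_mul, inv_mul_cancel₀ h1.ne]
  · rw [if_neg h, if_neg, smul_zero, smul_zero]
    intro h2
    exact h (Fin.castLE_injective _ h2)

/-- the positive definite matrix obtained by changing the sign on the negative vectors -/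
noncomputable def Mp (H : Matrix J J ℝ) (b : Fin 8 → Fin 8 → J → ℝ) : Matrix J J ℝ :=
  H + (2 : ℝ) • ∑ i, vecMulVec (H *ᵥ ev b i) (H *ᵥ ev b i)

lemma Mp_form (x y : J → ℝ) :
    x ⬝ᵥ (Mp H b *ᵥ y) = bf H x y + 2 * ∑ i, bf H x (ev b i) * bf H y (ev b i) := by
  have h1 : ∀ i, x ⬝ᵥ (vecMulVec (H *ᵥ ev b i) (H *ᵥ ev b i) *ᵥ y) =
      bf H x (ev b i) * bf H y (ev b i) := by
    intro i
    rw [Matrix.vecMulVec_mulVec, bf_apply, bf_apply, dotProduct_comm y]
    simp [dotProduct_smul, mul_comm]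
  rw [Mp, Matrix.add_mulVec, dotProduct_add, bf_apply, Matrix.smul_mulVec, dotProduct_smul,
    Matrix.sum_mulVec, dotProduct_sum, smul_eq_mul]
  simp only [h1]

omit [DecidableEq J] in
include hH in
lemma Mp_symm : (Mp H b)ᵀ = Mp H b := by
  rw [Mp, Matrix.transpose_add, hH, Matrix.transpose_smul, Matrix.transpose_sum]
  congr 2
  refine Finset.sum_congr rfl fun i _ => ?_
  rw [Matrix.transpose_vecMulVec]

include hH hb hpos in
lemma Mp_pos (z : J → ℝ) (hz : z ≠ 0) : 0 < z ⬝ᵥ (Mp H b *ᵥ z) := by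
  rw [Mp_form H b]
  have h := decomp H hH b hb hpos z hz
  have h2 : ∑ i, bf H z (ev b i) * bf H z (ev b i) =
      -∑ i ∈ Finset.univ.filter (fun i : Fin 28 => (i : ℕ) < 10),
      (bf H (fv b i) z) ^ 2 / (dd i : ℝ) := by
    rw [← Finset.sum_neg_distrib]
    refine Finset.sum_bij (fun i _ => Fin.castLE (by norm_num) i) ?_ ?_ ?_ ?_
    · intro i _
      rw [Finset.mem_filter]
      exact ⟨Finset.mem_univ _, i.2⟩
    · intro i _ j _ hij
      exact Fin.castLE_injective _ hij
    · intro i hi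
      rw [Finset.mem_filter] at hi
      exact ⟨⟨i, hi.2⟩, Finset.mem_univ _, rfl⟩
    · intro i _
      have h1 := dd_cast_neg i
      have h3 : (0 : ℝ) < -(dd (Fin.castLE (by norm_num) i) : ℝ) := by linarith
      rw [bf_symm H hH, ev, LinearMap.map_smul₂, smul_eq_mul]
      have h4 : (Real.sqrt (-(dd (Fin.castLE (by norm_num) i) : ℝ)))⁻¹ *
          (Real.sqrt (-(dd (Fin.castLE (by norm_num) i) : ℝ)))⁻¹ =
          -(dd (Fin.castLE (by norm_num) i) : ℝ)⁻¹ := by
        rw [← mul_inv, Real.mul_self_sqrt h3.le, inv_neg]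
      calc _ = ((Real.sqrt (-(dd (Fin.castLE (by norm_num) i) : ℝ)))⁻¹ *
          (Real.sqrt (-(dd (Fin.castLE (by norm_num) i) : ℝ)))⁻¹) *
          (bf H (fv b (Fin.castLE (by norm_num) i)) z) ^ 2 := by ring
        _ = _ := by
          rw [h4]
          ring
  rw [h2]
  linarith

include hH hb hpos in
/-- the normal form of `H` -/
theorem exists_normal :
    ∃ (S : Matrix J J ℝ) (τ : Fin 10 ↪ J),
      Sᵀ * H * S = Matrix.diagonal (fun j => if j ∈ Finset.univ.map τ then (-1 : ℝ) else 1) ∧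
      ∀ j, j ∉ Finset.univ.map τ → ∀ i : Fin 10, bf H (ev b i) (fun x => S x j) = 0 := by
  classical
  have hM : ∀ i j, ev b i ⬝ᵥ (Mp H b *ᵥ ev b j) = if i = j then 1 else 0 := by
    intro i j
    rw [Mp_form H b]
    simp only [bf_ev H b hb]
    by_cases h : i = j
    · subst h
      simp
      norm_num
    · have h0 : ∀ x : Fin 10, (if i = x then (-1 : ℝ) else 0) * (if j = x then -1 else 0) = 0 := by
        intro x
        by_cases h1 : i = x
        · subst h1
          rw [if_neg (fun h2 : j = i => h h2.symm), mul_zero]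
        · rw [if_neg h1, zero_mul]
      simp [h0, h]
  obtain ⟨S, τ, hS, hτ⟩ := exists_frame (Mp H b) (Mp_symm H hH b)
    (Mp_pos H hH b hb hpos) (ev b) hM
  set s : J → J → ℝ := fun j x => S x j with hs
  have hsM : ∀ j k, s j ⬝ᵥ (Mp H b *ᵥ s k) = if j = k then 1 else 0 := by
    intro j k
    have h1 := congrFun (congrFun hS j) k
    rw [Matrix.one_apply] at h1
    rw [← h1, Matrix.mul_assoc, Matrix.mul_apply]
    rfl
  have hsτ : ∀ i, s (τ i) = ev b i := hτ
  have hse : ∀ j i, bf H (s j) (ev b i) = if j = τ i then -1 else 0 := by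
    intro j i
    have h1 := hsM j (τ i)
    rw [Mp_form H b, hsτ] at h1
    simp only [bf_ev H b hb] at h1
    have h2 : ∑ x, bf H (s j) (ev b x) * (if i = x then (-1 : ℝ) else 0) =
        -bf H (s j) (ev b i) := by
      rw [Finset.sum_eq_single i]
      · rw [if_pos rfl]
        ring
      · intro x _ hx
        rw [if_neg hx.symm, mul_zero]
      · intro h
        exact absurd (Finset.mem_univ _) h
    rw [h2] at h1
    have h3 : bf H (s j) (ev b i) = -(if j = τ i then 1 else 0) := by linarith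
    rw [h3]
    split_ifs <;> simp
  refine ⟨S, τ, ?_, ?_⟩
  · ext j k
    have h0 : (Sᵀ * H * S) j k = bf H (s j) (s k) := by
      rw [bf_apply, Matrix.mul_assoc, Matrix.mul_apply]
      rfl
    have h1 := hsM j k
    rw [Mp_form H b] at h1
    have h2 : ∑ i, bf H (s j) (ev b i) * bf H (s k) (ev b i) =
        if j = k ∧ j ∈ Finset.univ.map τ then 1 else 0 := by
      simp only [hse]
      by_cases hj : j ∈ Finset.univ.map τ
      · rw [Finset.mem_map] at hj
        obtain ⟨i, -, rfl⟩ := hj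
        rw [Finset.sum_eq_single i]
        · by_cases hk : τ i = k
          · subst hk
            simp
          · rw [if_neg (fun h : k = τ i => hk h.symm), mul_zero, if_neg (fun h => hk h.1)]
        · intro x _ hx
          rw [if_neg (fun h => hx (τ.injective h).symm), zero_mul]
        · intro h
          exact absurd (Finset.mem_univ _) h
      · rw [if_neg (fun h => hj h.2)]
        refine Finset.sum_eq_zero fun x _ => ?_
        rw [if_neg, zero_mul]
        intro h
        exact hj (Finset.mem_map.mpr ⟨x, Finset.mem_univ _, h.symm⟩)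
    rw [h0, Matrix.diagonal_apply]
    rw [h2] at h1
    have h3 : bf H (s j) (s k) = (if j = k then 1 else 0) -
        2 * (if j = k ∧ j ∈ Finset.univ.map τ then 1 else 0) := by linarith
    rw [h3]
    by_cases hjk : j = k
    · subst hjk
      by_cases hj : j ∈ Finset.univ.map τ
      · simp only [hj, and_self, if_true]
        norm_num
      · simp only [hj, and_false, if_false, if_true]
        norm_num
    · simp [hjk]
  · intro j hj i
    have h1 := hse j i
    rw [if_neg] at h1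
    · rw [bf_symm H hH]
      exact h1
    · intro h
      exact hj (Finset.mem_map.mpr ⟨i, Finset.mem_univ _, h.symm⟩)

/-- the seven linear forms -/
noncomputable def lamK (H : Matrix J J ℝ) (b : Fin 8 → Fin 8 → J → ℝ) (k : Fin 7) (x : J) : ℝ :=
  (((∑ p, (YGI k p : ℝ) • bv b p) ᵥ* H) : J → ℝ) x

/-- the eight linear forms -/
noncomputable def lamS (H : Matrix J J ℝ) (b : Fin 8 → Fin 8 → J → ℝ) :
    Matrix (Fin 8) (J ⊕ Unit) ℝ :=
  fun c => Fin.cases (Sum.elim (fun _ => 0) (fun _ => 1))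
    (fun k => Sum.elim (lamK H b k) (fun _ => 0)) c

lemma lamK_dot (k : Fin 7) (y : J → ℝ) :
    ∑ x, lamK H b k x * y x = ∑ p, (YGI k p : ℝ) * bf H (bv b p) y := by
  have h1 : ∑ x, lamK H b k x * y x = bf H (∑ p, (YGI k p : ℝ) • bv b p) y := by
    rw [bf_apply, Matrix.dotProduct_mulVec]
    rfl
  rw [h1, LinearMap.map_sum₂]
  refine Finset.sum_congr rfl fun p _ => ?_
  rw [LinearMap.map_smul₂, smul_eq_mul]

lemma YGI_fv (k : Fin 7) (y : J → ℝ) (hy : ∀ i : Fin 10, bf H (ev b i) y = 0) :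
    ∑ p, (YGI k p : ℝ) * bf H (bv b p) y = 0 := by
  have hf : ∀ i : Fin 28, (i : ℕ) < 10 → bf H (fv b i) y = 0 := by
    intro i hi
    have h1 := hy ⟨i, hi⟩
    rw [ev, LinearMap.map_smul₂, smul_eq_mul] at h1
    have h2 := dd_cast_neg ⟨i, hi⟩
    have h3 : (Real.sqrt (-(dd (Fin.castLE (by norm_num) (⟨i, hi⟩ : Fin 10)) : ℝ)))⁻¹ ≠ 0 := by
      refine inv_ne_zero (Real.sqrt_ne_zero'.mpr ?_)
      linarith
    exact (mul_eq_zero.mp h1).resolve_left h3
  have h2 : 2 * ∑ p, (YGI k p : ℝ) * bf H (bv b p) y =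
      ∑ i, (CC k i : ℝ) * bf H (fv b i) y := by
    have h3 : ∀ p, 2 * (YGI k p : ℝ) = ∑ i, (CC k i : ℝ) * (TT p i : ℝ) := by
      intro p
      exact_mod_cast cC k p
    rw [Finset.mul_sum]
    have h4 : ∀ i, bf H (fv b i) y = ∑ p, (TT p i : ℝ) * bf H (bv b p) y := by
      intro i
      rw [fv, LinearMap.map_sum₂]
      refine Finset.sum_congr rfl fun p _ => ?_
      rw [LinearMap.map_smul₂, smul_eq_mul]
    simp only [h4, Finset.mul_sum]
    rw [Finset.sum_comm]
    refine Finset.sum_congr rfl fun p _ => ?_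
    rw [← mul_assoc, h3, Finset.sum_mul]
    refine Finset.sum_congr rfl fun i _ => ?_
    ring
  have h5 : ∑ i, (CC k i : ℝ) * bf H (fv b i) y = 0 := by
    refine Finset.sum_eq_zero fun i _ => ?_
    rcases lt_or_ge (i : ℕ) 10 with h | h
    · rw [hf i h, mul_zero]
    · rw [CC_zero k i h]
      simp
  linarith

include hH hb hpos in
/-- the fields `S`, `s`, `card`, `diag`, `lam`, `lamS`, `first` of `IfaceData` for `H ⊕ (-1)` -/
theorem normal_form :
    ∃ (S : Matrix (J ⊕ Unit) (J ⊕ Unit) ℝ) (s : Finset (J ⊕ Unit))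
      (lam : Matrix (Fin 8) (J ⊕ Unit) ℝ),
      s.card = 11 ∧
      Sᵀ * (fromBlocks H 0 0 (-1 : Matrix Unit Unit ℝ)) * S =
        Matrix.diagonal (fun i => if i ∈ s then (-1 : ℝ) else 1) ∧
      (∀ i ∉ s, ∀ c, (lam * S) c i = 0) ∧
      ∀ (F : Matrix (J ⊕ Unit) (Fin 8) ℝ) (j : Fin 8),
        (∀ i l, F (Sum.inl i) l = b j l i) →
        (∀ l, F (Sum.inr ()) l = if j = l then 1 else 0) →
        ∀ c l, (lam * F) c l = MOct j c l := by
  classical
  obtain ⟨S, τ, hS, hτ⟩ := exists_normal H hH b hb hpos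
  refine ⟨fromBlocks S 0 0 1, (Finset.univ.map τ).disjSum {()}, lamS H b, ?_, ?_, ?_, ?_⟩
  · rw [Finset.card_disjSum, Finset.card_map, Finset.card_univ, Fintype.card_fin,
      Finset.card_singleton]
  · rw [Matrix.fromBlocks_transpose, Matrix.fromBlocks_multiply, Matrix.fromBlocks_multiply]
    simp only [Matrix.transpose_zero, Matrix.zero_mul, Matrix.mul_zero, add_zero, zero_add,
      Matrix.transpose_one, Matrix.mul_one, Matrix.one_mul, hS]
    ext i j
    rcases i with i | i <;> rcases j with j | j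
    · rw [Matrix.fromBlocks_apply₁₁, Matrix.diagonal_apply, Matrix.diagonal_apply]
      simp only [Sum.inl.injEq, Finset.inl_mem_disjSum]
    · rw [Matrix.fromBlocks_apply₁₂, Matrix.diagonal_apply]
      simp
    · rw [Matrix.fromBlocks_apply₂₁, Matrix.diagonal_apply]
      simp
    · rw [Matrix.fromBlocks_apply₂₂, Matrix.diagonal_apply]
      simp
  · rintro (i | i) hi c
    · have hi' : i ∉ Finset.univ.map τ := fun h => hi (Finset.inl_mem_disjSum.mpr h)
      rw [Matrix.mul_apply, Fintype.sum_sum_type]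
      simp only [Matrix.fromBlocks_apply₁₁, Matrix.fromBlocks_apply₂₁, Matrix.zero_apply,
        mul_zero, Finset.sum_const_zero, add_zero]
      refine Fin.cases ?_ (fun k => ?_) c
      · simp [lamS]
      · have h1 : ∀ x, lamS H b k.succ (Sum.inl x) = lamK H b k x := fun x => rfl
        simp only [h1]
        rw [lamK_dot H b k (fun x => S x i)]
        exact YGI_fv H b k _ (hτ i hi')
    · exact absurd (by simp) hi
  · intro F j hF1 hF2 c l
    rw [Matrix.mul_apply, Fintype.sum_sum_type]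
    simp only [hF1, Finset.univ_unique, Finset.sum_singleton]
    have hF2' := hF2 l
    refine Fin.cases ?_ (fun k => ?_) c
    · have h1 : ∀ x, lamS H b 0 (Sum.inl x) = 0 := fun x => rfl
      have h2 : ∀ x, lamS H b 0 (Sum.inr x) = 1 := fun x => rfl
      simp only [h1, h2, zero_mul, Finset.sum_const_zero, zero_add, one_mul]
      rw [show (default : Unit) = () from rfl, hF2', MOct, if_pos rfl]
      push_cast
      rfl
    · have h1 : ∀ x, lamS H b k.succ (Sum.inl x) = lamK H b k x := fun x => rfl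
      have h2 : ∀ x, lamS H b k.succ (Sum.inr x) = 0 := fun x => rfl
      simp only [h1, h2, zero_mul, add_zero]
      rw [lamK_dot H b k (b j l), b_eq_sum H b hb hpos j l, MOct,
        if_neg (Fin.succ_ne_zero k), cY]
      have h3 : ∀ p, bf H (bv b p) (∑ q, (wdg q j l : ℝ) • bv b q) =
          ∑ q, (wdg q j l : ℝ) * (TorusE8.G p q : ℝ) := by
        intro p
        rw [map_sum]
        refine Finset.sum_congr rfl fun q _ => ?_
        rw [map_smul, bf_bv H b hb, smul_eq_mul]
      simp only [h3, Finset.mul_sum]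
      rw [Finset.sum_comm]
      push_cast
      refine Finset.sum_congr rfl fun q _ => ?_
      have h4 : (∑ p, (YGI k p : ℝ) * (TorusE8.G p q : ℝ)) = (Y7 k q : ℝ) := by
        exact_mod_cast cYGI k q
      rw [← h4, Finset.sum_mul]
      refine Finset.sum_congr rfl fun p _ => ?_
      ring

end

end Pool.Agent.PD4.Alg
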