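import Pool.Agent.PD4.Alg.Defs

/-!
# Project PD4, algebra block: gradings and low exactness of the surgered complex (owner: helper62)
-/

namespace Pool.Agent.PD4.Alg

open Matrix LauR

section aux

variable {L : Type*} {I J κ : Type*}

lemma Hg.mulVec_supp [Semiring L] [Fintype J] {p : I → ℤ} {q : J → ℤ} {r m : ℤ}
    {M : Matrix I J L} (hM : Hg p q r M) {x : J → L} (hx : ∀ j, x j ≠ 0 → q j = m) :
    ∀ i, (M *ᵥ x) i ≠ 0 → p i = m + r := by
  intro i hi
  rw [Matrix.mulVec, dotProduct] at hi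
  obtain ⟨j, -, hj⟩ := Finset.exists_ne_zero_of_sum_ne_zero hi
  have h1 := hM i j (left_ne_zero_of_mul hj)
  have h2 := hx j (right_ne_zero_of_mul hj)
  beta_reduce at *
  omega

lemma surg_b3_mulVec [CommRing L] [Fintype I] [Fintype κ]
    (a11 : Matrix I I L) (a12 a13 : Matrix I κ L) (a21 : Matrix κ I L)
    (a22 a23 : Matrix κ κ L) (a31 : Matrix κ I L) (a32 a33 : Matrix κ κ L)
    (u : I → L) (v w : κ → L) :
    b3 a11 a12 a13 a21 a22 a23 a31 a32 a33 *ᵥ Sum.elim u (Sum.elim v w) =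
      Sum.elim (a11 *ᵥ u + a12 *ᵥ v + a13 *ᵥ w)
        (Sum.elim (a21 *ᵥ u + a22 *ᵥ v + a23 *ᵥ w) (a31 *ᵥ u + a32 *ᵥ v + a33 *ᵥ w)) := by
  unfold b3
  rw [fromBlocks_mulVec]
  simp only [Sum.elim_comp_inl, Sum.elim_comp_inr, fromCols_mulVec, fromRows_mulVec,
    fromBlocks_mulVec]
  funext i
  rcases i with i | i | i <;> simp [add_assoc]

lemma surg_elim3 (x : I ⊕ (κ ⊕ κ) → L) :
    x = Sum.elim (fun i => x (Sum.inl i))
      (Sum.elim (fun k => x (Sum.inr (Sum.inl k))) (fun k => x (Sum.inr (Sum.inr k)))) := by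
  funext i
  rcases i with i | i | i <;> rfl

end aux

namespace PDData

variable {R : Type} [CommRing R] {n : ℕ} {I : Type} [Fintype I] [DecidableEq I]
  (X : PDData R n I) (hs : X.D.Sᴴ = X.D.S)

lemma surg_hgGh : Hg X.deg (fun k => 4 - degK n k) 0 (X.D.S' * X.g) := by
  intro i k h
  rw [Matrix.mul_apply] at h
  obtain ⟨j, -, hj⟩ := Finset.exists_ne_zero_of_sum_ne_zero h
  have h1 := X.gr.hS' i j (left_ne_zero_of_mul hj)
  have h2 := X.hg j k (right_ne_zero_of_mul hj)
  beta_reduce at *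
  omega

lemma surg_hgkap : Hg (degK n) (degK n) (-1) (kap R n) := by
  intro i k h
  rcases i with i | i <;> rcases k with k | k
  · exact absurd rfl h
  · simp [degK]
  · exact absurd rfl h
  · exact absurd rfl h

lemma surg_degT_inl (i : I) : X.degT (Sum.inl i) = X.deg i := rfl

lemma surg_degT_inr_inl (k : KI n) : X.degT (Sum.inr (Sum.inl k)) = degK n k + 1 := rfl

lemma surg_degT_inr_inr (k : KI n) : X.degT (Sum.inr (Sum.inr k)) = 3 - degK n k := rfl

theorem hg_dT : Hg X.degT X.degT (-1) (X.surg hs).dT := by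
  have h12 : Hg X.deg (degK n) 0 (X.D.S * (X.D.S' * X.g)) := by
    intro i k h
    rw [Matrix.mul_apply] at h
    obtain ⟨j, -, hj⟩ := Finset.exists_ne_zero_of_sum_ne_zero h
    have h1 := X.gr.hS i j (left_ne_zero_of_mul hj)
    have h2 := X.surg_hgGh j k (right_ne_zero_of_mul hj)
    beta_reduce at *
    omega
  rintro (i | i | i) (j | j | j) h
  · exact X.gr.hd i j h
  · have := h12 i j h
    rw [surg_degT_inl, surg_degT_inr_inl]
    beta_reduce at *
    omega
  · exact absurd rfl h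
  · exact absurd rfl h
  · have := (surg_hgkap (R := R)).neg i j h
    rw [surg_degT_inr_inl, surg_degT_inr_inl]
    beta_reduce at *
    omega
  · exact absurd rfl h
  · have := X.surg_hgGh.conjTranspose i j h
    rw [surg_degT_inr_inr, surg_degT_inl]
    beta_reduce at *
    omega
  · exact absurd rfl h
  · have := (surg_hgkap (R := R)).conjTranspose.neg i j h
    rw [surg_degT_inr_inr, surg_degT_inr_inr]
    beta_reduce at *
    omega

theorem hg_ST : Hg X.degT (fun j => 4 - X.degT j) 0 (X.surg hs).ST := by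
  rintro (i | i | i) (j | j | j) h
  · exact X.gr.hS i j h
  · exact absurd rfl h
  · exact absurd rfl h
  · exact absurd rfl h
  · exact absurd rfl h
  · by_cases hij : i = j
    · subst hij
      simp only [surg_degT_inr_inl, surg_degT_inr_inr]
      beta_reduce at *
      omega
    · exact absurd (Matrix.one_apply_ne hij) h
  · exact absurd rfl h
  · by_cases hij : i = j
    · subst hij
      simp only [surg_degT_inr_inl, surg_degT_inr_inr]
      beta_reduce at *
      omega
    · exact absurd (Matrix.one_apply_ne hij) h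
  · exact absurd rfl h

theorem hg_ST' : Hg X.degT (fun j => 4 - X.degT j) 0 (X.surg hs).ST' := by
  have hGh := X.surg_hgGh
  rintro (i | i | i) (j | j | j) h
  · exact X.gr.hS' i j h
  · have h1 := (X.gr.hk.mul hGh) i j h
    simp only [surg_degT_inl, surg_degT_inr_inl]
    beta_reduce at *
    omega
  · exact absurd rfl h
  · have h1 := (hGh.conjTranspose.mul X.gr.hh).neg i j h
    simp only [surg_degT_inl, surg_degT_inr_inl]
    beta_reduce at *
    omega
  · have h1 : (X.D.m * (X.D.S' * X.g)) = X.D.m * (X.D.S' * X.g) := rfl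
    have h2 : (((X.D.S' * X.g)ᴴ * X.D.m) * (X.D.S' * X.g)) i j ≠ 0 := by
      intro h0
      apply h
      change (-((X.D.S' * X.g)ᴴ * X.D.m * (X.D.S' * X.g))) i j = 0
      rw [Matrix.neg_apply, h0, neg_zero]
    rw [Matrix.mul_apply] at h2
    obtain ⟨a, -, ha⟩ := Finset.exists_ne_zero_of_sum_ne_zero h2
    have h3 := (hGh.conjTranspose.mul X.gr.hm) i a (left_ne_zero_of_mul ha)
    have h4 := hGh a j (right_ne_zero_of_mul ha)
    simp only [surg_degT_inr_inl]
    beta_reduce at *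
    omega
  · by_cases hij : i = j
    · subst hij
      simp only [surg_degT_inr_inl, surg_degT_inr_inr]
      beta_reduce at *
      omega
    · exact absurd (Matrix.one_apply_ne hij) h
  · exact absurd rfl h
  · by_cases hij : i = j
    · subst hij
      simp only [surg_degT_inr_inl, surg_degT_inr_inr]
      beta_reduce at *
      omega
    · exact absurd (Matrix.one_apply_ne hij) h
  · exact absurd rfl h

theorem hg_hT : Hg X.degT X.degT 1 (X.surg hs).hT := by
  have hGh := X.surg_hgGh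
  rintro (i | i | i) (j | j | j) h
  · exact X.gr.hh i j h
  · change (X.D.m * (X.D.S' * X.g)) i j ≠ 0 at h
    rw [Matrix.mul_apply] at h
    obtain ⟨a, -, ha⟩ := Finset.exists_ne_zero_of_sum_ne_zero h
    have h3 := X.gr.hm i a (left_ne_zero_of_mul ha)
    have h4 := hGh a j (right_ne_zero_of_mul ha)
    simp only [surg_degT_inl, surg_degT_inr_inl]
    beta_reduce at *
    omega
  all_goals exact absurd rfl h

/-- `S S' g = g - d h g - h g κ` -/
lemma surg_SGh : X.D.S * (X.D.S' * X.g) = X.g - X.D.d * (X.D.h * X.g)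
    - X.D.h * (X.g * kap R n) := by
  have h1 := X.D.c1
  have h2 : X.D.S * X.D.S' = 1 - X.D.d * X.D.h - X.D.h * X.D.d := by
    rw [← h1]; abel
  rw [← Matrix.mul_assoc, h2, Matrix.sub_mul, Matrix.sub_mul, Matrix.one_mul, Matrix.mul_assoc,
    Matrix.mul_assoc, X.dg]

/-- `T` is exact in degrees `≤ 1`.  (`G = S S' g = g - d h g - h g κ`; a cycle `(c, k, 0)` of `T`
gives the cycle `(c - h g k, k)` of the cone of `g`; use `τ`.  The `K'` component vanishes by
degree.) -/
theorem T_low (m : ℤ) (hm : m ≤ 1) (x : J n I → LauR R n)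
    (hx : ∀ j, x j ≠ 0 → X.degT j = m) (h0 : (X.surg hs).dT *ᵥ x = 0) :
    ∃ y : J n I → LauR R n, (X.surg hs).dT *ᵥ y = x := by
  obtain ⟨c, hc⟩ : ∃ c : I → LauR R n, c = fun i => x (Sum.inl i) := ⟨_, rfl⟩
  obtain ⟨k, hk⟩ : ∃ k : KI n → LauR R n, k = fun i => x (Sum.inr (Sum.inl i)) := ⟨_, rfl⟩
  have hdegK : ∀ i : KI n, degK n i ≤ 1 := by
    rintro (i | i) <;> simp [degK]
  have hk' : (fun i => x (Sum.inr (Sum.inr i))) = (0 : KI n → LauR R n) := by
    funext i
    by_contra hne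
    have h1 := hx _ hne
    rw [surg_degT_inr_inr] at h1
    have := hdegK i
    beta_reduce at *
    omega
  have hxe : x = Sum.elim c (Sum.elim k 0) := by
    rw [hc, hk, ← hk']
    exact surg_elim3 x
  have hcs : ∀ i, c i ≠ 0 → X.deg i = m := by
    intro i hi
    rw [hc] at hi
    exact hx (Sum.inl i) hi
  have hks : ∀ i, k i ≠ 0 → degK n i + 1 = m := by
    intro i hi
    rw [hk] at hi
    exact hx (Sum.inr (Sum.inl i)) hi
  have hdT : (X.surg hs).dT = b3 X.D.d (X.D.S * (X.D.S' * X.g)) 0 0 (-kap R n) 0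
      (X.D.S' * X.g)ᴴ 0 (-(kap R n)ᴴ) := rfl
  rw [hdT, hxe, surg_b3_mulVec] at h0
  have e1 : X.D.d *ᵥ c + (X.D.S * (X.D.S' * X.g)) *ᵥ k = 0 := by
    funext i
    have := congrFun h0 (Sum.inl i)
    simpa using this
  have e2 : kap R n *ᵥ k = 0 := by
    funext i
    have := congrFun h0 (Sum.inr (Sum.inl i))
    simpa [Matrix.neg_mulVec] using this
  have hS : ∀ b : KI n → LauR R n, (X.D.S * (X.D.S' * X.g)) *ᵥ b =
      X.g *ᵥ b - X.D.d *ᵥ (X.D.h *ᵥ (X.g *ᵥ b)) - X.D.h *ᵥ (X.g *ᵥ (kap R n *ᵥ b)) := by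
    intro b
    rw [X.surg_SGh, Matrix.sub_mulVec, Matrix.sub_mulVec]
    simp only [Matrix.mulVec_mulVec]
  rw [hS k, e2, Matrix.mulVec_zero, Matrix.mulVec_zero, sub_zero] at e1
  -- the cycle of the cone
  obtain ⟨c', hc'⟩ : ∃ c' : I → LauR R n, c' = c - X.D.h *ᵥ (X.g *ᵥ k) := ⟨_, rfl⟩
  have e3 : X.D.d *ᵥ c' + X.g *ᵥ k = 0 := by
    rw [hc', Matrix.mulVec_sub, ← e1]
    abel
  obtain ⟨u, hu⟩ : ∃ u : I ⊕ KI n → LauR R n, u = Sum.elim c' k := ⟨_, rfl⟩
  have hcone : coneG X.D.d X.g *ᵥ u = 0 := by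
    rw [hu, coneG, fromBlocks_mulVec]
    simp only [Sum.elim_comp_inl, Sum.elim_comp_inr, e3, Matrix.zero_mulVec,
      Matrix.neg_mulVec, e2, neg_zero, add_zero]
    funext i
    rcases i with i | i <;> rfl
  have hgk : ∀ i, (X.g *ᵥ k) i ≠ 0 → X.deg i = m - 1 := by
    intro i hi
    have := X.hg.mulVec_supp (m := m - 1) (fun j hj => by have := hks j hj; omega) i hi
    beta_reduce at *
    omega
  have hc's : ∀ i, c' i ≠ 0 → X.deg i = m := by
    intro i hi
    by_contra hne
    apply hi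
    have h1 : c i = 0 := by
      by_contra h
      exact hne (hcs i h)
    have h2 : (X.D.h *ᵥ (X.g *ᵥ k)) i = 0 := by
      by_contra h
      have := X.gr.hh.mulVec_supp hgk i h
      beta_reduce at *
      omega
    rw [hc', Pi.sub_apply, h1, h2, sub_zero]
  have hus : ∀ j, u j ≠ 0 → degG X.deg n j = m := by
    rintro (j | j) hj
    · rw [hu] at hj
      exact hc's j hj
    · rw [hu] at hj
      exact hks j hj
  have hpr : pr (LauR R n) (degG X.deg n) (· ≤ 1) *ᵥ u = u := by
    funext j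
    rw [pr, Matrix.mulVec_diagonal]
    by_cases hj : u j = 0
    · rw [hj, mul_zero]
    · have h1 : degG X.deg n j ≤ 1 := by
        rw [hus j hj]
        exact hm
      rw [if_pos h1, one_mul]
  have hτu : coneG X.D.d X.g *ᵥ (X.τ *ᵥ u) = u := by
    have h1 := congrArg (fun M => M *ᵥ u) X.τlow
    simp only [← Matrix.mulVec_mulVec, hpr] at h1
    rw [Matrix.add_mulVec, ← Matrix.mulVec_mulVec, ← Matrix.mulVec_mulVec, hcone,
      Matrix.mulVec_zero, add_zero] at h1
    exact h1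
  have hτs := X.hτ.mulVec_supp hus
  obtain ⟨a, ha⟩ : ∃ a : I → LauR R n, a = fun i => (X.τ *ᵥ u) (Sum.inl i) := ⟨_, rfl⟩
  obtain ⟨b, hb⟩ : ∃ b : KI n → LauR R n, b = fun i => (X.τ *ᵥ u) (Sum.inr i) := ⟨_, rfl⟩
  have hab : X.τ *ᵥ u = Sum.elim a b := by
    rw [ha, hb]
    funext i
    rcases i with i | i <;> rfl
  rw [hab, coneG, fromBlocks_mulVec] at hτu
  simp only [Sum.elim_comp_inl, Sum.elim_comp_inr] at hτu
  have e4 : X.D.d *ᵥ a + X.g *ᵥ b = c' := by
    funext i
    have := congrFun hτu (Sum.inl i)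
    rw [hu] at this
    exact this
  have e5 : kap R n *ᵥ b = -k := by
    funext i
    have := congrFun hτu (Sum.inr i)
    rw [hu] at this
    simp only [Sum.elim_inr, Matrix.zero_mulVec, Matrix.neg_mulVec, Pi.add_apply,
      Pi.zero_apply, Pi.neg_apply, zero_add] at this
    rw [Pi.neg_apply, ← this, neg_neg]
  have has : ∀ i, a i ≠ 0 → X.deg i = m + 1 := by
    intro i hi
    rw [ha] at hi
    exact hτs (Sum.inl i) hi
  have hbs : ∀ i, b i ≠ 0 → degK n i = m := by
    intro i hi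
    rw [hb] at hi
    have : degK n i + 1 = m + 1 := hτs (Sum.inr i) hi
    beta_reduce at *
    omega
  have hgb := X.hg.mulVec_supp hbs
  have hhgb := X.gr.hh.mulVec_supp hgb
  obtain ⟨y1, hy1⟩ : ∃ y1 : I → LauR R n, y1 = a + X.D.h *ᵥ (X.g *ᵥ b) := ⟨_, rfl⟩
  have hy1s : ∀ i, y1 i ≠ 0 → X.deg i = m + 1 := by
    intro i hi
    by_contra hne
    apply hi
    have h1 : a i = 0 := by
      by_contra h
      exact hne (has i h)
    have h2 : (X.D.h *ᵥ (X.g *ᵥ b)) i = 0 := by
      by_contra h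
      have := hhgb i h
      beta_reduce at *
      omega
    rw [hy1, Pi.add_apply, h1, h2, add_zero]
  have e6 : (X.D.S' * X.g)ᴴ *ᵥ y1 = 0 := by
    funext i
    by_contra hne
    have := X.surg_hgGh.conjTranspose.mulVec_supp hy1s i hne
    have := hdegK i
    beta_reduce at *
    omega
  refine ⟨Sum.elim y1 (Sum.elim b 0), ?_⟩
  rw [hdT, surg_b3_mulVec, hxe]
  congr 1
  · rw [Matrix.zero_mulVec, add_zero, hS b, e5, hy1, Matrix.mulVec_add, Matrix.mulVec_neg,
      Matrix.mulVec_neg]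
    have : c = c' + X.D.h *ᵥ (X.g *ᵥ k) := by
      rw [hc']; abel
    rw [this, ← e4]
    abel
  · congr 1
    · rw [Matrix.zero_mulVec, Matrix.zero_mulVec, zero_add, add_zero, Matrix.neg_mulVec, e5,
        neg_neg]
    · rw [e6, Matrix.zero_mulVec, Matrix.mulVec_zero, add_zero, add_zero]

end PDData

end Pool.Agent.PD4.Alg
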